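import Mathlib

/-!
A set whose tangent cones span subspaces of dimension at most `n` has Hausdorff dimension at most
`n`; and a small calculus of directional derivatives along tangent vectors of a set.
-/

open Set Filter Topology Module
open scoped ENNReal NNReal

namespace Pool.Agent.MP_249f74_an.H69

section Dim

variable {X : Type*} [NormedAddCommGroup X] [NormedSpace ℝ X] [FiniteDimensional ℝ X]

/-- The span of the tangent cone. -/
noncomputable def Tan (S : Set X) (q : X) : Submodule ℝ X :=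
  Submodule.span ℝ (tangentConeAt ℝ S q)

lemma dimH_le_of_local {Y : Type*} [EMetricSpace Y] [SecondCountableTopology Y] {s : Set Y}
    {n : ℝ≥0∞} (h : ∀ x ∈ s, ∃ t ∈ 𝓝[s] x, dimH t ≤ n) : dimH s ≤ n := by
  choose! t ht hd using h
  obtain ⟨c, hcs, hc, hcov⟩ := TopologicalSpace.countable_cover_nhdsWithin ht
  refine (dimH_mono hcov).trans ?_
  rw [dimH_bUnion hc]
  exact iSup₂_le fun x hx => hd x (hcs hx)

lemma lower_bound_near {Y : Type*} [NormedAddCommGroup Y] [NormedSpace ℝ Y] (S : Set X) (q : X)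
    (P : X →L[ℝ] Y) {c : ℝ} (hc : 0 < c) (hP : ∀ v ∈ Tan S q, c * ‖v‖ ≤ ‖P v‖) :
    ∃ r > 0, ∀ q' ∈ S, ‖q' - q‖ < r → c / 2 * ‖q' - q‖ ≤ ‖P (q' - q)‖ := by
  by_contra hcon
  push Not at hcon
  have h1 : ∀ n : ℕ, ∃ q' ∈ S, ‖q' - q‖ < 1 / ((n : ℝ) + 1) ∧ ‖P (q' - q)‖ < c / 2 * ‖q' - q‖ :=
    fun n => hcon _ (by positivity)
  choose y hyS hy1 hy2 using h1
  have hne : ∀ n, 0 < ‖y n - q‖ := fun n => by
    by_contra h0
    have : ‖y n - q‖ = 0 := le_antisymm (not_lt.1 h0) (norm_nonneg _)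
    have h2 := hy2 n
    rw [this, mul_zero] at h2
    exact absurd h2 (not_lt.2 (norm_nonneg _))
  set w : ℕ → X := fun n => ‖y n - q‖⁻¹ • (y n - q) with hw
  have hwn : ∀ n, w n ∈ Metric.sphere (0 : X) 1 := fun n => by
    simp only [hw, mem_sphere_iff_norm, sub_zero, norm_smul, norm_inv, norm_norm]
    exact inv_mul_cancel₀ (hne n).ne'
  obtain ⟨v, hv, φ, hφ, hlim⟩ := (isCompact_sphere (0 : X) 1).tendsto_subseq hwn
  have hd0 : Tendsto (fun n => y (φ n) - q) atTop (𝓝 0) := by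
    rw [tendsto_zero_iff_norm_tendsto_zero]
    refine squeeze_zero (fun n => norm_nonneg _) (fun n => (hy1 (φ n)).le) ?_
    exact tendsto_one_div_add_atTop_nhds_zero_nat.comp hφ.tendsto_atTop
  have hvT : v ∈ tangentConeAt ℝ S q :=
    mem_tangentConeAt_of_seq atTop (fun n => ‖y (φ n) - q‖⁻¹) (fun n => y (φ n) - q) hd0
      (Eventually.of_forall fun n => by simpa using hyS (φ n)) hlim
  have hv1 : ‖v‖ = 1 := by simpa using hv
  have h3 : c ≤ ‖P v‖ := by simpa [hv1] using hP v (Submodule.subset_span hvT)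
  have h4 : ‖P v‖ ≤ c / 2 := by
    have ht : Tendsto (fun n => ‖P (w (φ n))‖) atTop (𝓝 ‖P v‖) :=
      ((P.continuous.tendsto v).comp hlim).norm
    refine le_of_tendsto' ht fun n => ?_
    simp only [hw, map_smul, norm_smul, norm_inv, norm_norm]
    rw [inv_mul_le_iff₀ (hne _)]
    have := (hy2 (φ n)).le
    linarith
  linarith

lemma exists_inj_on (T : Submodule ℝ X) {n : ℕ} (hT : finrank ℝ T ≤ n) :
    ∃ (P : X →L[ℝ] (Fin n → ℝ)) (c : ℝ), 0 < c ∧ ∀ v ∈ T, c * ‖v‖ ≤ ‖P v‖ := by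
  have h1 : ∃ f : T →ₗ[ℝ] (Fin n → ℝ), Function.Injective f := by
    have : finrank ℝ T ≤ finrank ℝ (Fin n → ℝ) := by simpa using hT
    exact finrank_le_iff_exists_linearMap.1 this
  obtain ⟨f, hf⟩ := h1
  obtain ⟨g, hg⟩ := LinearMap.exists_extend f
  obtain ⟨K, hK0, hK⟩ := LinearMap.exists_antilipschitzWith f (LinearMap.ker_eq_bot.2 hf)
  refine ⟨LinearMap.toContinuousLinearMap g, (K : ℝ)⁻¹, by positivity, fun v hv => ?_⟩
  have h2 := hK.le_mul_dist ⟨v, hv⟩ 0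
  have h3 : g v = f ⟨v, hv⟩ := by rw [← hg]; rfl
  simp only [dist_zero_right, map_zero] at h2
  have hK1 : (0 : ℝ) < K := hK0
  simp only [LinearMap.coe_toContinuousLinearMap', h3]
  rw [inv_mul_le_iff₀ hK1]
  exact h2

theorem dimH_small_tangent (S : Set X) (n : ℕ) :
    dimH {q | q ∈ S ∧ finrank ℝ (Tan S q) ≤ n} ≤ n := by
  obtain ⟨D, hDc, hD⟩ := TopologicalSpace.exists_countable_dense (X →L[ℝ] (Fin n → ℝ))
  let B : (X →L[ℝ] (Fin n → ℝ)) → ℕ → Set X := fun P j =>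
    {q | q ∈ S ∧ ∀ q' ∈ S, ‖q' - q‖ < 1 / ((j : ℝ) + 1) → ‖q' - q‖ ≤ (j + 1) * ‖P (q' - q)‖}
  have hcov : {q | q ∈ S ∧ finrank ℝ (Tan S q) ≤ n} ⊆ ⋃ P ∈ D, ⋃ j, B P j := by
    rintro q ⟨hq, hT⟩
    obtain ⟨P, c, hc, hP⟩ := exists_inj_on _ hT
    obtain ⟨P', hP'D, hP'⟩ := Metric.mem_closure_iff.1 (hD P) (c / 2) (by positivity)
    have hP2 : ∀ v ∈ Tan S q, c / 2 * ‖v‖ ≤ ‖P' v‖ := fun v hv => by
      have h1 := hP v hv
      have h2 : ‖(P - P') v‖ ≤ c / 2 * ‖v‖ := by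
        refine ((P - P').le_opNorm v).trans ?_
        rw [dist_eq_norm] at hP'
        gcongr
      have h3 : ‖P v‖ ≤ ‖(P - P') v‖ + ‖P' v‖ := by
        simpa using norm_add_le ((P - P') v) (P' v)
      linarith
    obtain ⟨r, hr, hr2⟩ := lower_bound_near S q P' (by positivity) hP2
    obtain ⟨j, hj⟩ := exists_nat_gt (max (1 / r) (4 / c))
    have hj1 : 1 / r < j := (le_max_left _ _).trans_lt hj
    have hj2 : 4 / c < j := (le_max_right _ _).trans_lt hj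
    simp only [mem_iUnion]
    refine ⟨P', hP'D, j, hq, fun q' hq' hd => ?_⟩
    have h5 : 1 / ((j : ℝ) + 1) < r := by
      rw [div_lt_iff₀ (by positivity)]
      rw [div_lt_iff₀ hr] at hj1
      nlinarith
    have h6 := hr2 q' hq' (hd.trans h5)
    rw [div_lt_iff₀ hc] at hj2
    have h7 : 0 ≤ ‖P' (q' - q)‖ := norm_nonneg _
    have h8 : 0 ≤ ‖q' - q‖ := norm_nonneg _
    nlinarith
  refine (dimH_mono hcov).trans ?_
  rw [dimH_bUnion hDc]
  refine iSup₂_le fun P _ => ?_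
  rw [dimH_iUnion]
  refine iSup_le fun j => dimH_le_of_local fun x hx => ?_
  refine ⟨B P j ∩ Metric.ball x (1 / ((j : ℝ) + 1) / 2),
    inter_mem_nhdsWithin _ (Metric.ball_mem_nhds _ (by positivity)), ?_⟩
  set A := B P j ∩ Metric.ball x (1 / ((j : ℝ) + 1) / 2) with hA
  have hanti : AntilipschitzWith ((j : ℝ≥0) + 1) (fun a : A => P a) := by
    refine AntilipschitzWith.of_le_mul_dist fun a b => ?_
    have h1 : ‖(a : X) - b‖ < 1 / ((j : ℝ) + 1) := by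
      have ha := a.2.2
      have hb := b.2.2
      rw [Metric.mem_ball] at ha hb
      have := dist_triangle_right (a : X) b x
      rw [← dist_eq_norm]
      linarith
    have h2 := b.2.1.2 a a.2.1.1 h1
    rw [Subtype.dist_eq, dist_eq_norm, dist_eq_norm, ← map_sub]
    simpa using h2
  have h3 := hanti.le_dimH_image univ
  have h4 : dimH (univ : Set A) = dimH A := by
    rw [← isometry_subtype_coe.dimH_image univ]
    simp
  rw [h4] at h3
  refine h3.trans ((dimH_mono (subset_univ _)).trans ?_)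
  rw [Real.dimH_univ_pi_fin]

end Dim

section Calc

variable {X : Type*} [NormedAddCommGroup X] [NormedSpace ℝ X]
variable {F G : Type*} [NormedAddCommGroup F] [NormedSpace ℝ F] [NormedAddCommGroup G]
  [NormedSpace ℝ G]

/-- `φ` is differentiable at `q` with derivative `y` in the direction `v`. -/
def Dir (φ : X → F) (q v : X) (y : F) : Prop :=
  ∃ A : X →L[ℝ] F, HasFDerivAt φ A q ∧ A v = y

namespace Dir

variable {q v : X}

lemma eq_zero [FiniteDimensional ℝ X] {S : Set X} {φ : X → F} {y : F} (h : Dir φ q v y)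
    (hq : q ∈ S) (hv : v ∈ Tan S q) (h0 : ∀ x ∈ S, φ x = 0) : y = 0 := by
  obtain ⟨A, hA, rfl⟩ := h
  have h1 : HasFDerivWithinAt φ (0 : X →L[ℝ] F) S q :=
    (hasFDerivWithinAt_const (0 : F) q S).congr h0 (h0 q hq)
  have h2 := hA.hasFDerivWithinAt.unique_on h1
  have h3 : Tan S q ≤ LinearMap.ker (A : X →ₗ[ℝ] F) :=
    Submodule.span_le.2 fun w hw => by simpa using h2 hw
  simpa using h3 hv

lemma congr {φ : X → F} {y y' : F} (h : Dir φ q v y) (e : y = y') : Dir φ q v y' := e ▸ h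

lemma const (c : F) : Dir (fun _ : X => c) q v 0 := ⟨0, hasFDerivAt_const c q, rfl⟩

lemma clm (A : X →L[ℝ] F) : Dir (fun x => A x) q v (A v) := ⟨A, A.hasFDerivAt, rfl⟩

lemma add {φ ψ : X → F} {y z : F} (h : Dir φ q v y) (h' : Dir ψ q v z) :
    Dir (fun x => φ x + ψ x) q v (y + z) := by
  obtain ⟨A, hA, rfl⟩ := h
  obtain ⟨B, hB, rfl⟩ := h'
  exact ⟨A + B, hA.add hB, rfl⟩

lemma sub {φ ψ : X → F} {y z : F} (h : Dir φ q v y) (h' : Dir ψ q v z) :
    Dir (fun x => φ x - ψ x) q v (y - z) := by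
  obtain ⟨A, hA, rfl⟩ := h
  obtain ⟨B, hB, rfl⟩ := h'
  exact ⟨A - B, hA.sub hB, rfl⟩

lemma neg {φ : X → F} {y : F} (h : Dir φ q v y) : Dir (fun x => -φ x) q v (-y) := by
  obtain ⟨A, hA, rfl⟩ := h
  exact ⟨-A, hA.neg, rfl⟩

lemma smul {c : X → ℝ} {φ : X → F} {y : ℝ} {z : F} (h : Dir c q v y) (h' : Dir φ q v z) :
    Dir (fun x => c x • φ x) q v (c q • z + y • φ q) := by
  obtain ⟨A, hA, rfl⟩ := h
  obtain ⟨B, hB, rfl⟩ := h'
  exact ⟨_, hA.smul hB, by simp⟩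

lemma mul {c e : X → ℝ} {y z : ℝ} (h : Dir c q v y) (h' : Dir e q v z) :
    Dir (fun x => c x * e x) q v (c q * z + y * e q) := h.smul h'

lemma inv {c : X → ℝ} {y : ℝ} (h : Dir c q v y) (hc : c q ≠ 0) :
    Dir (fun x => (c x)⁻¹) q v (-y / c q ^ 2) := by
  obtain ⟨A, hA, rfl⟩ := h
  refine ⟨_, (hasFDerivAt_inv hc).comp q hA, ?_⟩
  simp
  ring

lemma div {c e : X → ℝ} {y z : ℝ} (h : Dir c q v y) (h' : Dir e q v z) (he : e q ≠ 0) :
    Dir (fun x => c x / e x) q v ((y * e q - c q * z) / e q ^ 2) := by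
  have := h.mul (h'.inv he)
  simp only [← div_eq_mul_inv] at this
  refine this.congr ?_
  field_simp
  ring

lemma comp {φ : X → F} {ψ : F → G} {y : F} {B : F →L[ℝ] G} (h : Dir φ q v y)
    (hψ : HasFDerivAt ψ B (φ q)) : Dir (fun x => ψ (φ x)) q v (B y) := by
  obtain ⟨A, hA, rfl⟩ := h
  exact ⟨_, hψ.comp q hA, rfl⟩

lemma comp_zero {φ : X → F} {ψ : F → G} (h : Dir φ q v 0)
    (hψ : DifferentiableAt ℝ ψ (φ q)) : Dir (fun x => ψ (φ x)) q v 0 :=
  (h.comp hψ.hasFDerivAt).congr (map_zero _)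

lemma app {Φ : X → F →L[ℝ] G} {φ : X → F} {Y : F →L[ℝ] G} {y : F} (h : Dir Φ q v Y)
    (h' : Dir φ q v y) : Dir (fun x => Φ x (φ x)) q v (Φ q y + Y (φ q)) := by
  obtain ⟨A, hA, rfl⟩ := h
  obtain ⟨B, hB, rfl⟩ := h'
  exact ⟨_, hA.clm_apply hB, by simp⟩

lemma inner {E : Type*} [NormedAddCommGroup E] [InnerProductSpace ℝ E] {φ ψ : X → E} {y z : E}
    (h : Dir φ q v y) (h' : Dir ψ q v z) :
    Dir (fun x => inner ℝ (φ x) (ψ x)) q v (inner ℝ (φ q) z + inner ℝ y (ψ q)) := by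
  obtain ⟨A, hA, rfl⟩ := h
  obtain ⟨B, hB, rfl⟩ := h'
  exact ⟨_, hA.inner ℝ hB, by simp⟩

lemma of_diff {φ : X → F} (h : DifferentiableAt ℝ φ q) : ∃ y, Dir φ q v y :=
  ⟨_, _, h.hasFDerivAt, rfl⟩

lemma diff {φ : X → F} {y : F} (h : Dir φ q v y) : DifferentiableAt ℝ φ q := by
  obtain ⟨A, hA, _⟩ := h
  exact hA.differentiableAt

end Dir

end Calc

end Pool.Agent.MP_249f74_an.H69
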