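import Pool.Agent.MP_249f74_an.H85.Kill

/-!
A line polynomial that vanishes on the tangent lines of a developable hypersurface vanishes on all
lines of its tangent hyperplanes.
-/

open Matrix
open MvPolynomial hiding funext

namespace Pool.Agent.MP_249f74_an.H69

open H17 (Der)
open H17.Cm (grad)
open H18 (Dev Hs Tn)
open H74 (GenK hs)
open H90 (dv dv_dot dv_sub dv_add dv_smul dv_single)
open H2 (KrS mem_KrS)

variable {C Ω ι : Type} [Field C] [Field Ω] [Algebra C Ω] [Fintype ι] [DecidableEq ι]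
  {g : MvPolynomial ι C} {H : MvPolynomial (ι ⊕ ι) C}

/-- The projection along a coordinate vector. -/
def prj (ν : ι → Ω) (e : ι) (c : Ω) (w : ι → Ω) : ι → Ω := w - (ν ⬝ᵥ w - c) • Pi.single e 1

lemma van (L : IntermediateField C Ω) {ν : ι → Ω} {c : Ω} (e : ι) (hν : ∀ i, ν i ∈ L) (hc : c ∈ L)
    {a b : ι → Ω} (hw : AlgebraicIndependent L (Sum.elim a b))
    (h : H65.ev (prj ν e c a) (prj ν e 0 b) H = 0) (x v : ι → Ω) :
    H65.ev (prj ν e c x) (prj ν e 0 v) H = 0 := by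
  let p (f : ι → ι ⊕ ι) (s : L) (i : ι) : MvPolynomial (ι ⊕ ι) L :=
    X (f i) - (∑ j, MvPolynomial.C ⟨ν j, hν j⟩ * X (f j) - MvPolynomial.C s) *
      if i = e then 1 else 0
  have key : ∀ a b : ι → Ω, aeval (Sum.elim a b) (H65.ev (p .inl ⟨c, hc⟩) (p .inr 0) H) =
      H65.ev (prj ν e c a) (prj ν e 0 b) H := fun a b => by
    refine (H65.map_ev ((aeval (Sum.elim a b) : MvPolynomial (ι ⊕ ι) L →ₐ[L] Ω).restrictScalars C)
      _ _ H).trans ?_
    congr 2 <;> ext i <;> by_cases h : i = e <;> simp [p, prj, h, dotProduct]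
  rw [← key, map_eq_zero_iff _ hw] at h
  rw [← key, h, map_zero]

lemma core [CharZero Ω] {y b n : ι → Ω} {t s : Ω} {e : ι} (hd : Dev g) (hH : H65.Lin H)
    (ht : Tn g H) (hy : GenK g y) (hn : grad g y = n) (he : n e ≠ 0)
    (h1 : Hs g y (prj ((n e)⁻¹ • n) e 0 b) (prj ((n e)⁻¹ • n) e 0 b) ≠ 0)
    (hθ : ∀ r B τ σ, n ⬝ᵥ r = 0 → ∃ θ : Der C Ω, dv y θ = r ∧ dv b θ = B ∧ θ t = τ ∧ θ s = σ)
    (x v : ι → Ω) (hx : n ⬝ᵥ (x - y) = 0) (hv : n ⬝ᵥ v = 0) : H65.ev x v H = 0 := by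
  have : CharZero C := (algebraMap C Ω).charZero
  have n0 : n ≠ 0 := fun h => he (congrFun h e)
  set ν := (n e)⁻¹ • n with hν
  have a0 : ∀ w, n ⬝ᵥ w = 0 → ν ⬝ᵥ w = 0 := fun w hw => by rw [hν, smul_dotProduct, hw, smul_zero]
  have a1 : ν ⬝ᵥ Pi.single e 1 = 1 := by simp [hν, he]
  have a2 : ∀ w, n ⬝ᵥ prj ν e 0 w = 0 := fun w => by simp [prj, hν, he, mul_right_comm]
  have d : ∀ a b, n ⬝ᵥ a = 0 → n ⬝ᵥ b = 0 →
      (a ⬝ᵥ hs g y *ᵥ a) * (b ⬝ᵥ hs g y *ᵥ b) = (a ⬝ᵥ hs g y *ᵥ b) ^ 2 := fun a b ha hb => by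
    simpa only [H85.Hs_eq] using hd Ω y a b hy.zero (hn ▸ n0) (hn ▸ ha) (hn ▸ hb)
  rw [H85.Hs_eq] at h1
  set v0 := prj ν e 0 b with hv0
  let L := KrS {θ : Der C Ω | dv ν θ = 0}
  have key := van (H := H) L (ν := ν) (c := ν ⬝ᵥ y) e
    (fun i => mem_KrS.2 fun θ h => congrFun h i)
    (mem_KrS.2 fun θ (h : dv ν θ = 0) => by
      rw [dv_dot, h, zero_dotProduct, zero_add, a0 _ (hn ▸ hy.tan θ)])
    (a := y - t • v0 + s • Pi.single e 1) (b := b) ?_ ?_ x v
  · have e1 : ν ⬝ᵥ x - ν ⬝ᵥ y = 0 := by rw [← dotProduct_sub, a0 _ hx]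
    simpa [prj, e1, a0 _ hv] using key
  · have : CharZero L := algebraRat.charZero _
    have k : ∀ A B : ι → Ω, ∃ θ : Derivation L Ω Ω,
        H17.Cm.dv θ (Sum.elim (y - t • v0 + s • Pi.single e 1) b) = Sum.elim A B := fun A B => by
      obtain ⟨A', hA⟩ : ∃ A', A' = A + t • prj ν e 0 B := ⟨_, rfl⟩
      obtain ⟨τ, hτ⟩ : ∃ τ, τ = -(prj ν e 0 A' ⬝ᵥ hs g y *ᵥ v0) / (v0 ⬝ᵥ hs g y *ᵥ v0) := ⟨_, rfl⟩
      have r0 : n ⬝ᵥ (prj ν e 0 A' + τ • v0) = 0 := by simp [a2, hv0]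
      obtain ⟨θ, t1, t2, t3, t4⟩ := hθ _ B τ (ν ⬝ᵥ A') r0
      have r1 := d _ _ r0 (a2 b)
      rw [← hv0, add_dotProduct _ _ (_ *ᵥ v0), smul_dotProduct, smul_eq_mul, hτ,
        div_mul_cancel₀ _ h1, add_neg_cancel, ← hτ, zero_pow two_ne_zero, mul_eq_zero,
        or_iff_left h1] at r1
      obtain ⟨k, hk⟩ := H74.par1 (T := n) (K := dv n θ) fun w hw => by
        have := d _ _ hw r0
        rw [r1, mul_zero, eq_comm, pow_eq_zero_iff two_ne_zero] at this
        rwa [← hn, H74.dv_grad, t1, dotProduct_comm]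
      have t5 : dv ν θ = 0 := by
        rw [hν, dv_smul, Derivation.leibniz_inv, show θ (n e) = _ from congrFun hk e, hk]
        ext i
        simp only [Pi.add_apply, Pi.smul_apply, smul_eq_mul, Pi.zero_apply]
        field_simp
        ring
      have t6 : dv v0 θ = prj ν e 0 B := by
        simp [hv0, prj, dv_sub, dv_smul, dv_single, dv_dot, t2, t5]
      refine ⟨H17.toDer (θ.restrictScalars ℤ) fun c => mem_KrS.1 c.2 θ t5, funext ?_⟩
      rintro (i | i)
      · have : dv (y - t • v0 + s • Pi.single e 1) θ = A := by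
          rw [dv_add, dv_sub, dv_smul, dv_smul, dv_single, t1, t3, t4, t6, prj,
            eq_sub_of_add_eq hA.symm]
          simp only [smul_zero, sub_zero]
          abel
        exact congrFun this i
      · exact congrFun t2 i
    refine H17.Cm.indep_of_dual fun j => ?_
    obtain ⟨D, hD⟩ := k (fun i => Pi.single (M := fun _ => Ω) j 1 (.inl i))
      fun i => Pi.single (M := fun _ => Ω) j 1 (.inr i)
    exact ⟨D, hD.trans (by ext (i | i) <;> rfl)⟩
  · have e1 : prj ν e (ν ⬝ᵥ y) (y - t • v0 + s • Pi.single e 1) = fun i => y i + -t * v0 i := by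
      rw [prj, dotProduct_add, dotProduct_sub, dotProduct_smul, dotProduct_smul, a1, a0 _ (a2 b)]
      ext i
      simp
      ring
    rw [e1, ← hv0, hH.tr]
    exact ht Ω y v0 hy.zero (hn ▸ n0) (hn ▸ a2 b)

/-- The polynomial vanishes on all lines of a tangent hyperplane. -/
theorem dvd [CharZero Ω] {y z x v : ι → Ω} (hp : Prime g) (hd : Dev g) (hH : H65.Lin H)
    (ht : Tn g H) (hy : GenK g y) (h0 : grad g y ⬝ᵥ z = 0) (h1 : Hs g y z z ≠ 0)
    (hx : grad g y ⬝ᵥ (x - y) = 0) (hv : grad g y ⬝ᵥ v = 0) : H65.ev x v H = 0 := by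
  obtain ⟨K, _, _, _, u, hu⟩ := H96.Pv.exists_ext Ω (ι ⊕ Bool)
  let _ : Algebra C K := ((algebraMap Ω K).comp (algebraMap C Ω)).toAlgebra
  have : IsScalarTower C Ω K := IsScalarTower.of_algebraMap_eq fun _ => rfl
  have : CharZero K := charZero_of_injective_algebraMap (algebraMap Ω K).injective
  let φ := IsScalarTower.toAlgHom C Ω K
  have a1 : ∀ F, aeval (fun i => φ (y i)) F = φ (aeval y F) := fun F =>
    (comp_aeval_apply y φ F).symm
  have a2 : grad g (fun i => φ (y i)) = fun i => φ (grad g y i) := funext fun _ => a1 _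
  have a3 : ∀ w, grad g y ⬝ᵥ w = 0 → (fun i => φ (grad g y i)) ⬝ᵥ (fun i => φ (w i)) = 0 :=
    fun w hw => by simpa [dotProduct] using congrArg φ hw
  obtain ⟨e, he⟩ := Function.ne_iff.1 (hy.grad_ne hp)
  have he' : φ (grad g y e) ≠ 0 := (_root_.map_ne_zero φ).2 he
  have := core hd hH ht (hy.map φ) a2 (e := e) (b := fun i => u (.inl i)) (t := u (.inr true))
    (s := u (.inr false)) he' (fun h => h1 ?_) (fun r B τ σ hr => ?_) (fun i => φ (x i))
    (fun i => φ (v i)) (by simpa [Pi.sub_def] using a3 _ hx) (a3 _ hv)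
  · rwa [← H65.map_ev, map_eq_zero] at this
  · obtain ⟨D, hD⟩ := H97.der_exists_of_indep (M := K) hu.1 (Sum.elim (fun i => φ (z i)) 0)
    have b1 : ∀ a, D (φ a) = 0 := fun a => D.map_algebraMap a
    set w := prj ((φ (grad g y e))⁻¹ • fun i => φ (grad g y i)) e 0 fun i => u (.inl i) with hw
    have b2 : ∀ i, D (w i) = φ (z i) := fun i => by
      have := a3 z h0
      simp only [dotProduct] at this
      by_cases h : i = e <;>
        simp [hw, prj, h, hD, b1, dotProduct, ← map_inv₀, mul_assoc, ← Finset.mul_sum, this]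
    have b3 := congrArg D (congrArg D h)
    simp only [Hs, a1, map_sum, Derivation.leibniz, b1, b2, smul_eq_mul, map_add, map_zero,
      mul_zero, add_zero, zero_add] at b3
    refine (map_eq_zero φ).1 (mul_left_cancel₀ (two_ne_zero (α := K)) ?_)
    rw [mul_zero, ← b3]
    simp only [Hs, map_sum, map_mul, Finset.mul_sum]
    exact Finset.sum_congr rfl fun i _ => Finset.sum_congr rfl fun j _ => by ring
  · obtain ⟨θ, hθ⟩ := (hy.map φ).sur hp (a2 ▸ hr)
    obtain ⟨D, hD⟩ := H97.der_exists_of_indep (M := K) hu.1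
      fun o => Sum.elim B (fun c => cond c τ σ) o - θ (u o)
    refine ⟨θ + D.restrictScalars C, ?_, ?_, by simp [hD], by simp [hD]⟩
    · rw [← hθ]
      ext i
      simp [show D (φ (y i)) = 0 from D.map_algebraMap _]
    · ext i
      simp [hD]

end Pool.Agent.MP_249f74_an.H69
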