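import Pool.Agent.MP_249f74_an.H69.Generic

/-!
Billiard quadrilaterals of a `C^3` hypersurface have Hausdorff dimension at most `2 d - 3`.
-/

open Set Module
open scoped RealInnerProductSpace ENNReal

namespace Pool.Agent.MP_249f74_an.H69

variable {E : Type*} [NormedAddCommGroup E] [InnerProductSpace ℝ E] [FiniteDimensional ℝ E]

lemma bd_of_contDiff {f : E → ℝ} (hf : ContDiff ℝ 3 f) :
    Bd f (gradient f) (fderiv ℝ (gradient f)) := by
  have h1 : ContDiff ℝ 2 (fderiv ℝ f) := hf.fderiv_right (by norm_num)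
  have h2 : ContDiff ℝ 2 (gradient f) :=
    (InnerProductSpace.toDual ℝ E).symm.toContinuousLinearEquiv.contDiff.comp h1
  have h3 : ContDiff ℝ 1 (fderiv ℝ (gradient f)) := h2.fderiv_right (by norm_num)
  have h4 : ∀ y b, ⟪gradient f y, b⟫ = fderiv ℝ f y b := fun y b => by
    simp [gradient]
  have h5 : ∀ x a b, ⟪fderiv ℝ (gradient f) x a, b⟫ = fderiv ℝ (fderiv ℝ f) x a b := by
    intro x a b
    have a1 := ((h2.differentiable (by norm_num)) x).hasFDerivAt.inner ℝ (hasFDerivAt_const b x)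
    have a2 := ((h1.differentiable (by norm_num)) x).hasFDerivAt.clm_apply (hasFDerivAt_const b x)
    simp only [h4] at a1
    have := congrArg (fun A => A a) (a1.unique a2)
    simpa using this
  refine ⟨fun x => ?_, fun x => ((h2.differentiable (by norm_num)) x).hasFDerivAt,
    fun x => (h3.differentiable (by norm_num)) x, fun x a b => ?_⟩
  · have e : innerSL ℝ (gradient f x) = fderiv ℝ f x := by
      ext b
      simp [h4]
    rw [e]
    exact ((hf.differentiable (by norm_num)) x).hasFDerivAt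
  · rw [h5, h5]
    exact (hf.contDiffAt.isSymmSndFDerivAt (by simp; norm_num)).eq a b

theorem dimH_four {f : E → ℝ} (hf : ContDiff ℝ 3 f) (hd : 3 ≤ finrank ℝ E) :
    dimH {q : E × E | ∃ p u : ℕ → E, p 0 = q.1 ∧ u 0 = q.2 ∧ p 4 = q.1 ∧ u 4 = q.2 ∧
      ∀ k < 4, f (p k) = 0 ∧ ‖u k‖ = 1 ∧ inner ℝ (u k) (gradient f (p k)) < 0 ∧
        (∃ t : ℝ, 0 < t ∧ p (k + 1) = p k + t • u k) ∧
        u (k + 1) = u k - (2 * inner ℝ (u k) (gradient f (p (k + 1))) /
          ‖gradient f (p (k + 1))‖ ^ 2) • gradient f (p (k + 1))}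
      ≤ ((2 * finrank ℝ E - 3 : ℕ) : ℝ≥0∞) := by
  have h := ae_false (bd_of_contDiff hf) hd
  let A : Cfg E →L[ℝ] E × E :=
    ((ContinuousLinearMap.proj 0).comp (ContinuousLinearMap.fst ℝ _ _)).prod
      ((ContinuousLinearMap.proj 0).comp
        ((ContinuousLinearMap.fst ℝ _ _).comp (ContinuousLinearMap.snd ℝ _ _)))
  refine (dimH_mono ?_).trans ((A.lipschitz.dimH_image_le _).trans h)
  rintro ⟨x, w⟩ ⟨p, u, p0, u0, p4, u4, H⟩
  have H1 : ∀ k : Fin 4, ∃ t : ℝ, 0 < t ∧ p (k + 1) = p k + t • u k :=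
    fun k => (H k k.2).2.2.2.1
  choose t ht0 ht using H1
  have ep : ∀ i j : Fin 4, j = i + 1 → p j = p (i + 1) := by
    rintro i j rfl
    fin_cases i
    exacts [rfl, rfl, rfl, p0.trans p4.symm]
  have eu : ∀ i j : Fin 4, j = i + 1 → u j = u (i + 1) := by
    rintro i j rfl
    fin_cases i
    exacts [rfl, rfl, rfl, u0.trans u4.symm]
  have gne : ∀ i : Fin 4, 0 < ‖gradient f (p i)‖ ^ 2 := fun i => by
    refine pow_pos (norm_pos_iff.2 fun h0 => ?_) 2
    have := (H i i.2).2.2.1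
    rw [h0, inner_zero_right] at this
    exact lt_irrefl _ this
  refine ⟨(fun i => p i, fun i => u i, t,
    fun i => 2 * inner ℝ (u i) (gradient f (p i)) / ‖gradient f (p i)‖ ^ 2),
    ⟨⟨fun i => (H i i.2).1, fun i j e => ?_, fun i => ?_, fun i j e => ?_, ht0, fun i => ?_,
      fun i => ?_⟩, not_false⟩, Prod.ext p0 u0⟩
  · exact (ep i j e).trans (ht i)
  · change ⟪u i, u i⟫ = 1
    rw [real_inner_self_eq_norm_sq, (H i i.2).2.1, one_pow]
  · have h1 := (H i i.2).2.2.2.2
    rw [← ep i j e, ← eu i j e] at h1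
    have h2 : ⟪u j, gradient f (p j)⟫ = -⟪u i, gradient f (p j)⟫ := by
      have := (gne j).ne'
      rw [h1, inner_sub_left, real_inner_smul_left, real_inner_self_eq_norm_sq,
        div_mul_cancel₀ _ this]
      ring
    change u j - u i = (2 * ⟪u j, gradient f (p j)⟫ / ‖gradient f (p j)‖ ^ 2) • gradient f (p j)
    rw [h2, mul_neg, neg_div, neg_smul]
    nth_rw 1 [h1]
    abel
  · change ⟪gradient f (p i), u i⟫ < 0
    rw [real_inner_comm]
    exact (H i i.2).2.2.1
  · exact div_neg_of_neg_of_pos (by linarith [(H i i.2).2.2.1]) (gne i)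

end Pool.Agent.MP_249f74_an.H69
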