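import Pool.Agent.MP_249f74_an.H69.Rot

/-!
Non-planar quadrilaterals whose holonomy is not a half-turn form a small set.
-/

open Set Module
open scoped RealInnerProductSpace ENNReal

namespace Pool.Agent.MP_249f74_an.H69

variable {E : Type*} [NormedAddCommGroup E] [InnerProductSpace ℝ E]
variable {f : E → ℝ} {g : E → E} {G : E → E →L[ℝ] E}

lemma mf_comm (hB : Bd f g G) (q : Cfg E) (i j : Fin 4) (a b : E) :
    mf G q i j a b = mf G q i j b a := by
  rw [mf, mf, ed_comm, hB.symm]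

lemma mf_lin (q : Cfg E) (i j : Fin 4) (a b c : E) (x y : ℝ) :
    mf G q i j a (x • b + y • c) = x * mf G q i j a b + y * mf G q i j a c := by
  simp only [mf, ed_add_right, ed_smul_right, inner_add_right, real_inner_smul_right]
  ring

/-- symmetry of the second variation form twisted by the holonomy -/
def Sym (g : E → E) (G : E → E →L[ℝ] E) (q : Cfg E) (i j k l : Fin 4) : Prop :=
  ∀ a b, ⟪g (q.1 j), a⟫ = 0 → ⟪g (q.1 j), b⟫ = 0 →
    mf G q i j a (Hol g q i j k l b) = mf G q i j b (Hol g q i j k l a)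

/-- tangential part of the Hessian -/
noncomputable def So (g : E → E) (G : E → E →L[ℝ] E) (x y : E) : E := pr (g x) (g x) (G x y)

lemma So_inner (x y : E) {n : E} (h : ⟪g x, n⟫ = 0) : ⟪So g G x y, n⟫ = ⟪G x y, n⟫ := by
  rw [So, pr, inner_sub_left, real_inner_smul_left, h]
  ring

lemma So_lin (x a b : E) (s t : ℝ) :
    So g G x (s • a + t • b) = s • So g G x a + t • So g G x b := by
  simp only [So, map_add, map_smul, pr_add, pr_smul]

/-- a function that depends on the vertex only -/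
noncomputable def FF (g : E → E) (G : E → E →L[ℝ] E) (q : Cfg E) (i j : Fin 4) : ℝ :=
  ((q.2.2.1 i)⁻¹ + (q.2.2.1 j)⁻¹) / ⟪g (q.1 j), q.2.1 j⟫
    + ⟪G (q.1 j) (q.2.1 i + q.2.1 j), q.2.1 i + q.2.1 j⟫
      / (4 * (⟪g (q.1 j), q.2.1 j⟫ * ⟪g (q.1 j), q.2.1 j⟫))

/-- invariant plane and trace relation -/
def G1 (g : E → E) (G : E → E →L[ℝ] E) (q : Cfg E) (i j : Fin 4) (n : E) : Prop :=
  ⟪q.2.1 i, n⟫ = 0 ∧ ⟪q.2.1 j, n⟫ = 0 ∧ n ≠ 0 ∧ ∃ a b c d : ℝ,
    So g G (q.1 j) (q.2.1 i + q.2.1 j) = a • (q.2.1 i + q.2.1 j) + b • n ∧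
    So g G (q.1 j) n = c • (q.2.1 i + q.2.1 j) + d • n ∧
    -(⟪g (q.1 j), g (q.1 j)⟫ * FF g G q i j) = a + d

/-- the differential of `FF` along point sources -/
noncomputable def II (g : E → E) (G : E → E →L[ℝ] E) (q : Cfg E) (i j k : Fin 4) (η : E) : ℝ :=
  ⟪g (q.1 k), η⟫ / ⟪g (q.1 k), q.1 k - q.1 j⟫ + ⟪g (q.1 i), η⟫ / ⟪g (q.1 i), q.1 j - q.1 i⟫
    + ⟪G (q.1 j) (q.2.1 i + q.2.1 j), η⟫ / ⟪g (q.1 j), q.2.1 j⟫

/-- normalised second fundamental form -/
noncomputable def kap (g : E → E) (G : E → E →L[ℝ] E) (q : Cfg E) (j : Fin 4) (a b : E) : ℝ :=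
  ⟪G (q.1 j) a, b⟫ / ⟪g (q.1 j), q.2.1 j⟫

lemma kap_comm (hB : Bd f g G) (q : Cfg E) (j : Fin 4) (a b : E) :
    kap g G q j a b = kap g G q j b a := by
  rw [kap, kap, hB.symm]

lemma kap_lin (q : Cfg E) (j : Fin 4) (a b c d : E) (x y z w : ℝ) :
    kap g G q j (x • a + y • b) (z • c + w • d) = x * z * kap g G q j a c
      + x * w * kap g G q j a d + y * z * kap g G q j b c + y * w * kap g G q j b d := by
  simp only [kap, map_add, map_smul, inner_add_left, inner_add_right, real_inner_smul_left,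
    real_inner_smul_right]
  ring

/-- the normalised forms are in arithmetic progression -/
def AP (g : E → E) (G : E → E →L[ℝ] E) (q : Cfg E) (i j k : Fin 4) : Prop :=
  ∀ a b, ⟪g (q.1 k), a⟫ = 0 → ⟪g (q.1 k), b⟫ = 0 →
    kap g G q k a b + kap g G q i (sg g q i (sg g q j a)) (sg g q i (sg g q j b))
      = 2 * kap g G q j (sg g q j a) (sg g q j b)

lemma Bil.edge {q : Cfg E} (hb : Bil f g q) {i j : Fin 4} (e : j = i + 1) :
    q.1 j - q.1 i = q.2.2.1 i • q.2.1 i := by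
  rw [hb.e i j e]
  abel

lemma Src.dgu (hB : Bd f g G) {q v : Cfg E} {i j k : Fin 4} {θ : E}
    (hθ : ⟪g (q.1 j), θ⟫ = 0) (h : Src g G q v i j k θ) :
    Dir (fun q : Cfg E => ⟪g (q.1 j), q.2.1 j⟫) q v
      (-(⟪q.2.1 j, θ⟫ * ⟪g (q.1 j), q.2.1 j⟫)) := by
  refine ((dir_g0 hB h.x0).inner (dir_u j)).congr ?_
  rw [h.pi, inner_sub_right, real_inner_smul_right, hθ, inner_zero_left]
  ring

lemma Src.dFF (hB : Bd f g G) {q v : Cfg E} {i j k : Fin 4} {θ : E} (hb : Bil f g q)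
    (e1 : j = i + 1) (e2 : k = j + 1) (hθ : ⟪g (q.1 j), θ⟫ = 0) (h : Src g G q v i j k θ) :
    Dir (fun q : Cfg E => FF g G q i j) q v (II g G q i j k θ / ⟪g (q.1 j), q.2.1 j⟫) := by
  have hW := h.dW hb e1 hθ
  have hβ := h.dgu hB hθ
  have b0 := hb.gu_ne j
  have b1 := hb.gu_ne i
  have b2 := (hb.gu_prev_pos e2).ne'
  have L1 := (hb.Lp i).ne'
  have L2 := (hb.Lp j).ne'
  refine (((((dir_L i).inv L1).add ((dir_L j).inv L2)).div hβ b0).add
    (((dir_G0 hB h.x0 hW).inner hW).div ((Dir.const 4).mul (hβ.mul hβ))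
      (mul_ne_zero four_ne_zero (mul_ne_zero b0 b0)))).congr ?_
  have l1 := h.lin.l_eq hb e1
  have l2 := h.lin.l_eq hb e2
  rw [h.x0, h.xh, pr] at l1
  rw [h.x0, h.xj, pr] at l2
  rw [hB.symm _ (_ - _), II, hb.edge e1, hb.edge e2, l1, l2]
  generalize q.2.1 i + q.2.1 j = W
  simp only [inner_sub_right, real_inner_smul_right, inner_zero_right, hb.n, hb.tan_eq e1 hθ]
  field_simp
  ring

lemma Src.dSo (hB : Bd f g G) {q v : Cfg E} {i j k : Fin 4} {θ : E} (hb : Bil f g q)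
    (h : Src g G q v i j k θ) {y : Cfg E → E} {y' : E} (hy : Dir y q v y') :
    Dir (fun q : Cfg E => So g G (q.1 j) (y q)) q v (So g G (q.1 j) y') := by
  have h0 := dir_g0 (q := q) hB h.x0
  have h1 := dir_G0 hB h.x0 hy
  have gg := (hb.gg_pos j).ne'
  refine (h1.sub (((h0.inner h1).div (h0.inner h0) gg).smul h0)).congr ?_
  simp only [So, pr, inner_zero_left, inner_zero_right, smul_zero, zero_add, add_zero, mul_zero,
    sub_zero]
  congr 2
  field_simp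

variable [FiniteDimensional ℝ E]

lemma ae_Sym (hB : Bd f g G) {i j k l : Fin 4} (c : Cyc i j k l) :
    AE f g fun q => True → Sym g G q i j k l := by
  refine AE.step hB _ _ fun S q hS _ hq hF => ?_
  have hb := hS q hq
  have key : ∀ a b, ⟪g (q.1 j), a⟫ = 0 → mf G q i j a (Hol g q i j k l b)
      = -mf G q k l (sg g q l (sg g q i a)) (sg g q l (sg g q i b)) := fun a b ha => by
    obtain ⟨v, -, hs⟩ := exists_src hB hS hq hF c.li c.ij (hb.sg_tan i a)
    have h1 := hs.fwd hb c (hb.sg_tan j (sg g q k (sg g q l (sg g q i b))))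
    have h2 := hs.bwd hb c (hb.sg_tan l (sg g q i b))
    rw [sg, ed_pr_right (hb.n j), ← hb.ed_eq c.jk (hs.lin.z k) (hb.sg_tan k _), sg,
      ed_pr_right (hb.n k), h2] at h1
    have h3 : pr (g (q.1 j)) (q.2.1 i) (sg g q i a) = a := pr_pr (hb.gu_prev_pos c.ij).ne' ha
    rw [h3] at h1
    exact h1.symm
  intro a b ha hb'
  rw [key a b ha, key b a hb', mf_comm hB]

lemma g1_of_rot (hB : Bd f g G) {q : Cfg E} (hb : Bil f g q) (hz : NZ q) {i j k l : Fin 4}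
    (c : Cyc i j k l) {n : E} {C S : ℝ} (hr : RotD g q i j k l n C S) (hs : Sym g G q i j k l) :
    G1 g G q i j n ∧ mf G q i j n n + mf G q i j (q.2.1 i + q.2.1 j) (q.2.1 i + q.2.1 j) = 0 := by
  have g2 := hb.gam_pos c.ij
  have g3 := hb.one_add_pos hz c.ij
  have gW := hb.gW c.ij
  have gn : ⟪g (q.1 j), n⟫ = 0 := (hb.tan_iff c.ij).2 (by rw [inner_sub_left, hr.n1, hr.n2, sub_self])
  have Wn : ⟪q.2.1 i + q.2.1 j, n⟫ = 0 := by rw [inner_add_left, hr.n1, hr.n2, add_zero]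
  have gg := (hb.gg_pos j).ne'
  have hLL := mul_pos (hb.Lp i) (hb.Lp j)
  have tr : mf G q i j n n + mf G q i j (q.2.1 i + q.2.1 j) (q.2.1 i + q.2.1 j) = 0 := by
    have h1 := hs _ _ gW gn
    rw [hr.hW, hr.hn, mf_lin, mf_lin, mf_comm hB q i j n (_ + _)] at h1
    apply mul_left_cancel₀ hr.S0
    linear_combination -h1
  have orth : ∀ r, ⟪q.2.1 i + q.2.1 j, r⟫ = 0 → ⟪n, r⟫ = 0 → ⟪g (q.1 j), r⟫ = 0 →
      ⟪G (q.1 j) (q.2.1 i + q.2.1 j), r⟫ = 0 ∧ ⟪G (q.1 j) n, r⟫ = 0 := fun r h1 h2 h3 => by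
    have a1 := hb.tan_eq c.ij h3
    have a2 : ⟪q.2.1 i, r⟫ = 0 := by
      rw [inner_add_left] at h1
      linarith
    have a3 := hr.hr r a2 (a1.trans a2) h2
    have b1 := hs _ _ gW h3
    have b2 := hs _ _ gn h3
    rw [a3, hr.hW, mf_lin, mf_comm hB q i j r, mf_comm hB q i j r] at b1
    rw [a3, hr.hn, mf_lin, mf_comm hB q i j r, mf_comm hB q i j r] at b2
    have b0 : (C - 1) ^ 2 + S ^ 2 ≠ 0 := by
      have := sq_pos_of_ne_zero hr.S0
      positivity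
    have b3 : mf G q i j (q.2.1 i + q.2.1 j) r = 0 := by
      apply mul_left_cancel₀ b0
      linear_combination -(C - 1) * b1 + S * b2
    have b4 : mf G q i j n r = 0 := by
      apply mul_left_cancel₀ b0
      linear_combination -S * b1 - (C - 1) * b2
    rw [mf, ed, h1, a2] at b3
    rw [mf, ed, h2, a2] at b4
    have b5 := mul_ne_zero hLL.ne' (hb.an j).ne
    constructor
    · apply mul_left_cancel₀ b5
      linear_combination b3
    · apply mul_left_cancel₀ b5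
      linear_combination b4
  have dec : ∀ y, (∀ r, ⟪q.2.1 i + q.2.1 j, r⟫ = 0 → ⟪n, r⟫ = 0 → ⟪g (q.1 j), r⟫ = 0 →
      ⟪G (q.1 j) y, r⟫ = 0) → ∃ a b : ℝ, So g G (q.1 j) y = a • (q.2.1 i + q.2.1 j) + b • n :=
    fun y hy => by
      obtain ⟨a, b, d, e⟩ := span3 hy
      refine ⟨a, b, ?_⟩
      rw [So, e, pr_add, pr_add, pr_smul, pr_smul, pr_smul, pr_self gg, pr_of_zero _ gW,
        pr_of_zero _ gn, smul_zero, add_zero]
  obtain ⟨a, b, e1⟩ := dec _ fun r h1 h2 h3 => (orth r h1 h2 h3).1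
  obtain ⟨c', d, e2⟩ := dec _ fun r h1 h2 h3 => (orth r h1 h2 h3).2
  refine ⟨⟨hr.n1, hr.n2, fun h => ?_, a, b, c', d, e1, e2, ?_⟩, tr⟩
  · have := hr.nn
    rw [h, inner_zero_left] at this
    exact (mul_pos g3 g2).ne this
  · have s1 := So_inner (G := G) (q.1 j) (q.2.1 i + q.2.1 j) gW
    have s2 := So_inner (G := G) (q.1 j) n gn
    rw [e1, inner_add_left (a • _), real_inner_smul_left, real_inner_smul_left,
      real_inner_comm _ n, Wn, hb.WW] at s1
    rw [e2, inner_add_left (c' • _), real_inner_smul_left, real_inner_smul_left, Wn, hr.nn] at s2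
    rw [mf, mf, hb.edWW, ed, hr.n1, hr.nn, ← s1, ← s2] at tr
    rw [FF, ← s1]
    have t1 := hb.gg_eq c.ij
    have t2 := hb.gam_eq c.ij
    have a0 := (hb.an j).ne
    have L1 := (hb.Lp i).ne'
    have L2 := (hb.Lp j).ne'
    have t3 : ⟪g (q.1 j), g (q.1 j)⟫ = 2 * (1 - ⟪q.2.1 i, q.2.1 j⟫) / q.2.2.2 j ^ 2 := by
      field_simp
      linear_combination t1
    have t4 : ⟪g (q.1 j), q.2.1 j⟫ = (1 - ⟪q.2.1 i, q.2.1 j⟫) / q.2.2.2 j := by
      field_simp
      linear_combination -t2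
    have t5 : d = -(2 * (q.2.2.1 i + q.2.2.1 j) / (q.2.2.1 i * q.2.2.1 j * q.2.2.2 j)
        + 2 * a / (1 - ⟪q.2.1 i, q.2.1 j⟫)) := by
      have g2' := g2.ne'
      field_simp
      apply mul_left_cancel₀ g3.ne'
      linear_combination tr
    rw [t3, t4, t5]
    have g2' := g2.ne'
    field_simp
    ring

lemma ae_II_sc (hB : Bd f g G) {i j k : Fin 4} (e1 : j = i + 1) (e2 : k = j + 1) :
    AE f g fun q => (NZ q ∧ (∃ n, G1 g G q i j n) ∧ Sc g G q j) →
      ∀ θ, ⟪g (q.1 j), θ⟫ = 0 → II g G q i j k θ = 0 := by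
  refine AE.step hB _ _ fun S q hS hC hq hF θ hθ => ?_
  have hb := hS q hq
  obtain ⟨hz, -, hsc⟩ := hC q hq
  obtain ⟨v, hv, hs⟩ := exists_src hB hS hq hF e1 e2 hθ
  have hW := hs.dW hb e1 hθ
  have h0 := dir_g0 (q := q) hB hs.x0
  have WW := (real_inner_self_pos.2 (hz i j e1)).ne'
  have h1 := (((h0.inner h0).mul (hs.dFF hB hb e1 e2 hθ)).add ((Dir.const 2).mul
    (((dir_G0 hB hs.x0 hW).inner hW).div (hW.inner hW) WW))).eq_zero hq hv fun x hx => by
      obtain ⟨hz, ⟨n, n1, n2, n0, a, b, c, d, a1, a2, a3⟩, hsc⟩ := hC x hx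
      have hb := hS x hx
      have gW := hb.gW e1
      have gn : ⟪g (x.1 j), n⟫ = 0 := (hb.tan_iff e1).2 (by rw [inner_sub_left, n1, n2, sub_self])
      have Wn : ⟪x.2.1 i + x.2.1 j, n⟫ = 0 := by rw [inner_add_left, n1, n2, add_zero]
      have s1 := So_inner (G := G) (x.1 j) (x.2.1 i + x.2.1 j) gW
      have s2 := So_inner (G := G) (x.1 j) n gn
      rw [a1, inner_add_left (a • _), real_inner_smul_left, real_inner_smul_left,
        real_inner_comm _ n, Wn, hsc.sv hb hz e1 _ _ gW gW, mul_zero, add_zero] at s1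
      rw [a2, inner_add_left (c • _), real_inner_smul_left, real_inner_smul_left, Wn,
        hsc.sv hb hz e1 _ _ gn gn, mul_zero, zero_add] at s2
      have s3 := mul_right_cancel₀ (real_inner_self_pos.2 (hz i j e1)).ne' s1
      have s4 := mul_right_cancel₀ (real_inner_self_pos.2 n0).ne' s2
      change _ + 2 * sv G x i j = 0
      linarith
  have gd : ⟪g (q.1 j), (2 : ℝ) • θ - ⟪q.2.1 j, θ⟫ • (q.2.1 i + q.2.1 j)⟫ = 0 := by
    rw [inner_sub_right, real_inner_smul_right, real_inner_smul_right, hθ, hb.gW e1]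
    ring
  rw [hsc.sv hb hz e1 _ _ (hb.gW e1) gd, hsc.sv hb hz e1 _ _ gd (hb.gW e1),
    hsc.sv hb hz e1 _ _ (hb.gW e1) (hb.gW e1)] at h1
  have h2 : ⟪g (q.1 j), g (q.1 j)⟫ * (II g G q i j k θ / ⟪g (q.1 j), q.2.1 j⟫) = 0 := by
    rw [← h1]
    simp only [inner_zero_left, inner_zero_right]
    field_simp
    ring
  have h3 := (mul_eq_zero.1 h2).resolve_left (hb.gg_pos j).ne'
  exact (div_eq_zero_iff.1 h3).resolve_right (hb.gu_ne j)

lemma ae_II_ns (hB : Bd f g G) {i j k : Fin 4} (e1 : j = i + 1) (e2 : k = j + 1) :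
    AE f g fun q => (NZ q ∧ (∃ n, G1 g G q i j n) ∧ ¬ Um g G q i j) →
      ∀ θ, ⟪g (q.1 j), θ⟫ = 0 → II g G q i j k θ = 0 := by
  refine AE.step hB _ _ fun S q hS hC hq hF θ hθ => ?_
  have hb := hS q hq
  obtain ⟨hz, ⟨n, n1, n2, n0, a, b, c, d, a1, a2, a3⟩, hU⟩ := hC q hq
  obtain ⟨v, hv, hs⟩ := exists_src hB hS hq hF e1 e2 hθ
  have hW := hs.dW hb e1 hθ
  have h0 := dir_g0 (q := q) hB hs.x0
  have gW := hb.gW e1
  have gn : ⟪g (q.1 j), n⟫ = 0 := (hb.tan_iff e1).2 (by rw [inner_sub_left, n1, n2, sub_self])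
  have Wn : ⟪q.2.1 i + q.2.1 j, n⟫ = 0 := by rw [inner_add_left, n1, n2, add_zero]
  have ch : ∀ {x W n : E} {a b c d : ℝ}, So g G x W = a • W + b • n → So g G x n = c • W + d • n →
      So g G x (So g G x W) = (a + d) • So g G x W - (a * d - b * c) • W := by
    intro x W n a b c d h1 h2
    rw [h1, So_lin, h1, h2]
    module
  have h1 := dir_rel hq hv (hs.dSo hB hb hW) hW (hs.dSo hB hb (hs.dSo hB hb hW))
    ((h0.inner h0).mul (hs.dFF hB hb e1 e2 hθ)).neg (δ := a * d - b * c) (fun x hx => by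
      obtain ⟨-, ⟨n, -, -, -, a, b, c, d, a1, a2, a3⟩, -⟩ := hC x hx
      exact ⟨_, by rw [a3]; exact ch a1 a2⟩) (by rw [a3]; exact ch a1 a2) (hz i j e1) Wn
  have gd : ⟪g (q.1 j), (2 : ℝ) • θ - ⟪q.2.1 j, θ⟫ • (q.2.1 i + q.2.1 j)⟫ = 0 := by
    rw [inner_sub_right, real_inner_smul_right, real_inner_smul_right, hθ, hb.gW e1]
    ring
  generalize (2 : ℝ) • θ - ⟪q.2.1 j, θ⟫ • (q.2.1 i + q.2.1 j) = ω at h1 gd
  have gS : ⟪g (q.1 j), So g G (q.1 j) ω⟫ = 0 := inner_pr (hb.gg_pos j).ne' _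
  have sy : ∀ y z, ⟪g (q.1 j), y⟫ = 0 → ⟪g (q.1 j), z⟫ = 0 →
      ⟪So g G (q.1 j) y, z⟫ = ⟪So g G (q.1 j) z, y⟫ := fun y z hy hz => by
    rw [So_inner _ _ hz, So_inner _ _ hy, hB.symm]
  have s1 := sy _ _ gS gn
  have s2 := sy _ _ gd gn
  have s3 := sy _ _ gd gW
  rw [a2, inner_add_left (c • _), real_inner_smul_left, real_inner_smul_left,
    real_inner_comm _ n, real_inner_comm _ (_ + _)] at s1
  rw [a2, inner_add_left (c • _), real_inner_smul_left, real_inner_smul_left] at s2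
  rw [a1, inner_add_left (a • _), real_inner_smul_left, real_inner_smul_left] at s3
  rw [a3, s1, s2, s3, a1, inner_add_left (a • _), real_inner_smul_left, real_inner_smul_left, Wn,
    real_inner_comm n ω] at h1
  have b0 : b ≠ 0 := by
    rintro rfl
    refine hU ⟨a, ⟪g (q.1 j), G (q.1 j) (q.2.1 i + q.2.1 j)⟫ / ⟪g (q.1 j), g (q.1 j)⟫, ?_⟩
    rw [So, pr] at a1
    linear_combination (norm := module) a1
  have h2 : ⟪g (q.1 j), g (q.1 j)⟫ * (II g G q i j k θ / ⟪g (q.1 j), q.2.1 j⟫) = 0 := by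
    apply mul_right_cancel₀ (mul_ne_zero b0 (real_inner_self_pos.2 n0).ne')
    simp only [inner_zero_left, inner_zero_right] at h1
    linear_combination h1
  have h3 := (mul_eq_zero.1 h2).resolve_left (hb.gg_pos j).ne'
  exact (div_eq_zero_iff.1 h3).resolve_right (hb.gu_ne j)

lemma ae_AP (hB : Bd f g G) {i j k : Fin 4} (e1 : j = i + 1) (e2 : k = j + 1) :
    AE f g fun q => (∀ θ, ⟪g (q.1 j), θ⟫ = 0 → II g G q i j k θ = 0) → AP g G q i j k := by
  refine AE.step hB _ _ fun S q hS hC hq hF a b ha hb' => ?_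
  have hb := hS q hq
  have hθ := hb.sg_tan j a
  have hη := hb.sg_tan j b
  obtain ⟨v, hv, hs⟩ := exists_src hB hS hq hF e1 e2 hθ
  have hW := hs.dW hb e1 hθ
  have h0 := dir_g0 (q := q) hB hs.x0
  have gg := (hb.gg_pos j).ne'
  have b0 := hb.gu_ne j
  have b1 := hb.gu_ne i
  have b2 := (hb.gu_prev_pos e2).ne'
  have L1 := (hb.Lp i).ne'
  have L2 := (hb.Lp j).ne'
  have dη : Dir (fun x : Cfg E => pr (g (x.1 j)) (g (x.1 j)) (sg g q j b)) q v 0 := by
    refine ((Dir.const _).sub (((h0.inner (Dir.const _)).div (h0.inner h0) gg).smul h0)).congr ?_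
    simp
  have h1 := (((((dir_g hB k).inner dη).div ((dir_g hB k).inner ((dir_x k).sub (dir_x j)))
      (by rw [hb.edge e2, real_inner_smul_right]; exact mul_ne_zero L2 b2)).add
    (((dir_g hB i).inner dη).div ((dir_g hB i).inner ((dir_x j).sub (dir_x i)))
      (by rw [hb.edge e1, real_inner_smul_right]; exact mul_ne_zero L1 b1))).add
    (((dir_G0 hB hs.x0 hW).inner dη).div (hs.dgu hB hθ) b0)).eq_zero hq hv fun x hx =>
      hC x hx _ (inner_pr ((hS x hx).gg_pos j).ne' _)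
  have x3 : v.1 k = q.2.2.1 j • a := by rw [hs.xj, sg, pr_pr b2 ha]
  have x1 : v.1 i = -q.2.2.1 i • sg g q i (sg g q j a) := hs.xh
  have z1 := hb.sg_tan i (sg g q j a)
  have y3 : b = sg g q j b - (⟪g (q.1 k), sg g q j b⟫ / ⟪g (q.1 k), q.2.1 j⟫) • q.2.1 j :=
    (pr_pr b2 hb').symm
  rw [pr_of_zero _ hη, hs.x0, x3, x1, hb.edge e1, hb.edge e2] at h1
  have k3 : kap g G q k a b = -((⟪G (q.1 k) a, sg g q j b⟫ - ⟪g (q.1 k), sg g q j b⟫
      / ⟪g (q.1 k), q.2.1 j⟫ * ⟪G (q.1 k) a, q.2.1 j⟫) / ⟪g (q.1 k), q.2.1 j⟫) := by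
    rw [kap, hb.gu_prev e2, div_neg, neg_neg, ← hb.gu_prev e2, ← real_inner_smul_right,
      ← inner_sub_right, ← y3]
  rw [k3, kap, kap, show sg g q i (sg g q j b) = sg g q j b
    - (⟪g (q.1 i), sg g q j b⟫ / ⟪g (q.1 i), q.2.1 i⟫) • q.2.1 i from rfl]
  generalize sg g q i (sg g q j a) = a1 at *
  generalize sg g q j a = a2 at *
  generalize sg g q j b = b2' at *
  generalize q.2.1 i + q.2.1 j = W at *
  simp only [map_sub, map_smul, inner_sub_left, inner_sub_right, real_inner_smul_left,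
    real_inner_smul_right, inner_zero_right, ha, z1] at h1 ⊢
  field_simp at h1 ⊢
  apply mul_left_cancel₀ (mul_ne_zero (pow_ne_zero 2 L1) (pow_ne_zero 2 L2))
  linear_combination -h1

theorem ae_false (hB : Bd f g G) (hd : 3 ≤ finrank ℝ E) : AE f g fun _ => False := by
  have h1 : AE f g fun q => ∀ i : Fin 4, Phi q i (i + 1) (i + 1 + 1) (i + 1 + 1 + 1) ≠ 0 ∧
      (True → Sym g G q i (i + 1) (i + 1 + 1) (i + 1 + 1 + 1)) :=
    AE.all fun i => (ae_Phi hB hd (cyc_of i)).and (ae_Sym hB (cyc_of i))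
  have h2 := AE.all fun i : Fin 4 => ((ae_II_sc hB (i := i) rfl rfl).and
    (ae_II_ns hB (i := i) rfl rfl)).and (ae_AP hB (i := i) rfl rfl)
  refine ((((ae_NZ hB hd).and (ae_Sc hB hd)).and (ae_not_Pl hB hd)).and (h1.and h2)).mono ?_
  rintro q hb ⟨⟨⟨hz, hsc⟩, hp⟩, k1, k2⟩
  have hnp := np_of_not_pl hb hz hp
  have hAP : ∀ i j k : Fin 4, j = i + 1 → k = j + 1 → AP g G q i j k := by
    rintro i j k rfl rfl
    obtain ⟨n, C, S, hr⟩ := exists_rot hb hz hnp (cyc_of i) (k1 i).1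
    have hg := (g1_of_rot hB hb hz (cyc_of i) hr ((k1 i).2 trivial)).1
    refine (k2 i).2 ?_
    by_cases hU : Um g G q i (i + 1)
    · exact (k2 i).1.1 ⟨hz, ⟨n, hg⟩, hsc _ _ rfl hU⟩
    · exact (k2 i).1.2 ⟨hz, ⟨n, hg⟩, hU⟩
  have c := cyc_of 0
  obtain ⟨n, C, S, hr⟩ := exists_rot hb hz hnp c (k1 0).1
  obtain ⟨⟨n1, n2, n0, a, b, c', d, a1, -, -⟩, tr⟩ := g1_of_rot hB hb hz c hr ((k1 0).2 trivial)
  clear k1 k2
  generalize (0 : Fin 4) + 1 + 1 + 1 = l at *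
  generalize (0 : Fin 4) + 1 + 1 = k at *
  generalize (0 : Fin 4) + 1 = j at *
  generalize (0 : Fin 4) = i at *
  have gW := hb.gW c.ij
  have gn : ⟪g (q.1 j), n⟫ = 0 := (hb.tan_iff c.ij).2 (by rw [inner_sub_left, n1, n2, sub_self])
  have Wn : ⟪q.2.1 i + q.2.1 j, n⟫ = 0 := by rw [inner_add_left, n1, n2, add_zero]
  have prog : ∀ x y, ⟪g (q.1 j), x⟫ = 0 → ⟪g (q.1 j), y⟫ = 0 →
      kap g G q j (Hol g q i j k l x) (Hol g q i j k l y) = kap g G q j x y
        + 4 * (kap g G q i (sg g q i x) (sg g q i y) - kap g G q j x y) ∧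
      kap g G q i (sg g q i (Hol g q i j k l x)) (sg g q i (Hol g q i j k l y))
        = kap g G q i (sg g q i x) (sg g q i y)
          + 4 * (kap g G q i (sg g q i x) (sg g q i y) - kap g G q j x y) := fun x y hx hy => by
    have p1 := hAP l i j c.li c.ij x y hx hy
    have p2 := hAP k l i c.kl c.li _ _ (hb.sg_tan i x) (hb.sg_tan i y)
    have p3 := hAP j k l c.jk c.kl _ _ (hb.sg_tan l (sg g q i x)) (hb.sg_tan l (sg g q i y))
    have p4 := hAP i j k c.ij c.jk _ _ (hb.sg_tan k (sg g q l (sg g q i x)))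
      (hb.sg_tan k (sg g q l (sg g q i y)))
    simp only [Hol]
    constructor <;> linarith
  obtain ⟨e1, f1⟩ := prog _ _ gW gW
  obtain ⟨e2, f2⟩ := prog _ _ gW gn
  obtain ⟨e3, -⟩ := prog _ _ gn gn
  simp only [hr.hW, hr.hn, sg_lin, kap_lin, kap_comm hB q j n (q.2.1 i + q.2.1 j),
    kap_comm hB q i (sg g q i n) (sg g q i (q.2.1 i + q.2.1 j))] at e1 e2 e3 f1 f2
  obtain ⟨r1, r2⟩ := rot_alg hr.CS hr.S0
    (a1 := kap g G q j (q.2.1 i + q.2.1 j) (q.2.1 i + q.2.1 j))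
    (b1 := kap g G q j (q.2.1 i + q.2.1 j) n) (c1 := kap g G q j n n)
    (a2 := kap g G q i (sg g q i (q.2.1 i + q.2.1 j)) (sg g q i (q.2.1 i + q.2.1 j)))
    (b2 := kap g G q i (sg g q i (q.2.1 i + q.2.1 j)) (sg g q i n))
    (c2 := kap g G q i (sg g q i n) (sg g q i n))
    (by linear_combination e1) (by linear_combination e2) (by linear_combination e3)
    (by linear_combination f1) (by linear_combination f2)
  have b0 := hb.gu_ne j
  rw [kap, div_eq_zero_iff] at r1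
  have r3 := r1.resolve_right b0
  rw [kap, kap, div_left_inj' b0] at r2
  rw [← So_inner _ _ gn, a1, inner_add_left (a • _), real_inner_smul_left, real_inner_smul_left,
    Wn, mul_zero, zero_add] at r3
  have hb0 : b = 0 := (mul_eq_zero.1 r3).resolve_right (real_inner_self_pos.2 n0).ne'
  obtain ⟨s, hs⟩ : Sc g G q j := by
    refine hsc i j c.ij
      ⟨a, ⟪g (q.1 j), G (q.1 j) (q.2.1 i + q.2.1 j)⟫ / ⟪g (q.1 j), g (q.1 j)⟫, ?_⟩
    rw [So, pr, hb0] at a1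
    linear_combination (norm := module) a1
  have g2 := hb.gam_pos c.ij
  have g3 := hb.one_add_pos hz c.ij
  rw [mf, mf, hb.edWW, ed, n1, hs _ _ gW gW, hs _ _ gn gn, hr.nn, hb.WW] at tr
  rw [hs _ _ gW gW, hs _ _ gn gn, hr.nn, hb.WW] at r2
  have s0 : s = 0 := by
    apply mul_left_cancel₀ (mul_pos g3 g3).ne'
    linear_combination r2
  rw [s0] at tr
  have := mul_pos (add_pos (hb.Lp i) (hb.Lp j)) (mul_pos g3 g2)
  linarith

end Pool.Agent.MP_249f74_an.H69
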