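import Mathlib

/-!
Scalar identities for a closed quadrilateral.
-/

namespace Pool.Agent.MP_249f74_an.H69

/-- relations between lengths and angles of a closed quadrilateral -/
structure Rel (L1 L2 L3 L4 M1 M2 γ1 γ2 γ3 γ4 δ13 δ24 : ℝ) : Prop where
  p1 : 0 < L1
  p2 : 0 < L2
  p3 : 0 < L3
  p4 : 0 < L4
  h1 : 2 * L4 * L1 * γ1 = (L4 + L1) * (L1 + L2 + L3 + L4) - M1
  h2 : 2 * L1 * L2 * γ2 = (L1 + L2) * (L1 + L2 + L3 + L4) - M2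
  h3 : 2 * L2 * L3 * γ3 = (L2 + L3) * (L1 + L2 + L3 + L4) - M1
  h4 : 2 * L3 * L4 * γ4 = (L3 + L4) * (L1 + L2 + L3 + L4) - M2
  d13 : L1 + L2 + L3 + L4 = L2 * γ2 + L3 * δ13 + L4 * γ1
  d24 : L1 + L2 + L3 + L4 = L3 * γ3 + L4 * δ24 + L1 * γ2

namespace Rel

variable {L1 L2 L3 L4 M1 M2 γ1 γ2 γ3 γ4 δ13 δ24 : ℝ}

lemma e13 (h : Rel L1 L2 L3 L4 M1 M2 γ1 γ2 γ3 γ4 δ13 δ24) :
    2 * L1 * L3 * δ13 = M1 + M2 - (L2 + L4) * (L1 + L2 + L3 + L4) := by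
  linear_combination -2 * L1 * h.d13 - h.h1 - h.h2

lemma e24 (h : Rel L1 L2 L3 L4 M1 M2 γ1 γ2 γ3 γ4 δ13 δ24) :
    2 * L2 * L4 * δ24 = M1 + M2 - (L1 + L3) * (L1 + L2 + L3 + L4) := by
  linear_combination -2 * L2 * h.d24 - h.h3 - h.h2

lemma frac (h : Rel L1 L2 L3 L4 M1 M2 γ1 γ2 γ3 γ4 δ13 δ24) :
    γ1 = ((L4 + L1) * (L1 + L2 + L3 + L4) - M1) / (2 * L4 * L1) ∧
    γ2 = ((L1 + L2) * (L1 + L2 + L3 + L4) - M2) / (2 * L1 * L2) ∧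
    γ3 = ((L2 + L3) * (L1 + L2 + L3 + L4) - M1) / (2 * L2 * L3) ∧
    γ4 = ((L3 + L4) * (L1 + L2 + L3 + L4) - M2) / (2 * L3 * L4) ∧
    δ13 = (M1 + M2 - (L2 + L4) * (L1 + L2 + L3 + L4)) / (2 * L1 * L3) ∧
    δ24 = (M1 + M2 - (L1 + L3) * (L1 + L2 + L3 + L4)) / (2 * L2 * L4) := by
  have := h.p1
  have := h.p2
  have := h.p3
  have := h.p4
  refine ⟨?_, ?_, ?_, ?_, ?_, ?_⟩ <;> rw [eq_div_iff (by positivity)]
  · linear_combination h.h1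
  · linear_combination h.h2
  · linear_combination h.h3
  · linear_combination h.h4
  · linear_combination h.e13
  · linear_combination h.e24

lemma phi (h : Rel L1 L2 L3 L4 M1 M2 γ1 γ2 γ3 γ4 δ13 δ24) :
    (L1 + L2 + L3 + L4) ^ 2 * (L1 * L3 + L2 * L4) - M1 * M2
      = 2 * (L1 * L2 * L3 * L4) * (γ1 * γ3 + γ2 * γ4 - δ13 * δ24) := by
  have := h.p1
  have := h.p2
  have := h.p3
  have := h.p4
  obtain ⟨rfl, rfl, rfl, rfl, rfl, rfl⟩ := h.frac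
  field_simp
  ring

lemma kap (h : Rel L1 L2 L3 L4 M1 M2 γ1 γ2 γ3 γ4 δ13 δ24)
    (hE : (L1 + L2 + L3 + L4) ^ 2 * (L1 * L3 + L2 * L4) - M1 * M2 = 0) :
    γ2 * (L1 * (L1 + L2 + L3 + L4) - M1) = (L1 + L2 + L3 + L4) * L4 * (γ1 - δ24) ∧
    γ4 * (L4 * (L1 + L2 + L3 + L4) - M1) = (L1 + L2 + L3 + L4) * L1 * (γ1 - δ13) ∧
    γ2 * (L2 * (L1 + L2 + L3 + L4) - M1) = (L1 + L2 + L3 + L4) * L3 * (γ3 - δ13) := by
  have := h.p1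
  have := h.p2
  have := h.p3
  have := h.p4
  obtain ⟨rfl, rfl, rfl, rfl, rfl, rfl⟩ := h.frac
  refine ⟨?_, ?_, ?_⟩
  · field_simp
    linear_combination -hE
  · field_simp
    linear_combination -hE
  · field_simp
    linear_combination -hE

lemma der (h : Rel L1 L2 L3 L4 M1 M2 γ1 γ2 γ3 γ4 δ13 δ24)
    (hE : (L1 + L2 + L3 + L4) ^ 2 * (L1 * L3 + L2 * L4) - M1 * M2 = 0) {t α β z1 z2 : ℝ}
    (ht : (L1 + L2 + L3 + L4) * t + L2 * γ2 * α - L3 * γ4 * β = 0) {l1 l2 l3 l4 : ℝ}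
    (e1 : l1 = L1 * (t + α)) (e4 : l4 = L4 * (t - β)) (e2 : l2 = z2 - l1) (e3 : l3 = -l4 - z2)
    (hD : (L1 + L2 + L3 + L4) ^ 2 * (l1 * L3 + L1 * l3 + l2 * L4 + L2 * l4)
      - M1 * ((l1 + l2) * (L3 + L4) + (L1 + L2) * (l3 + l4) + 2 * (L1 * z1 + L2 * z2))
      - M2 * ((l4 + l1) * (L2 + L3) + (L4 + L1) * (l2 + l3)
        + 2 * (L2 * (-L4 * (t + γ2 * α - β * (1 - δ24)) - l1)
          + L3 * (-l4 - L1 * (t - γ4 * β + α * (1 - δ13))))) = 0) :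
    -M1 * z1 - z2 * ((L1 + L2 + L3 + L4) ^ 2 - (L1 + L2 + L3 + L4) * L4 * γ1 - M1)
      = L4 * M2 * γ1 * t := by
  have := h.p1
  have := h.p2
  have := h.p3
  have := h.p4
  have hL : 0 < L1 + L2 + L3 + L4 := by positivity
  have ht' : t = (L3 * γ4 * β - L2 * γ2 * α) / (L1 + L2 + L3 + L4) := by
    rw [eq_div_iff hL.ne']
    linear_combination ht
  have key : (L1 + L2 + L3 + L4) ^ 2 * (l1 * L3 + L1 * l3 + l2 * L4 + L2 * l4)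
      - M1 * ((l1 + l2) * (L3 + L4) + (L1 + L2) * (l3 + l4) + 2 * (L1 * z1 + L2 * z2))
      - M2 * ((l4 + l1) * (L2 + L3) + (L4 + L1) * (l2 + l3)
        + 2 * (L2 * (-L4 * (t + γ2 * α - β * (1 - δ24)) - l1)
          + L3 * (-l4 - L1 * (t - γ4 * β + α * (1 - δ13)))))
      - 2 * L1 * (-M1 * z1 - z2 * ((L1 + L2 + L3 + L4) ^ 2 - (L1 + L2 + L3 + L4) * L4 * γ1 - M1)
        - L4 * M2 * γ1 * t)
      = ((L1 + L2 + L3 + L4) ^ 2 * (L1 * L3 + L2 * L4) - M1 * M2) * (t + α - β) := by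
    subst e2 e3 e1 e4
    obtain ⟨rfl, rfl, rfl, rfl, rfl, rfl⟩ := h.frac
    rw [ht']
    field_simp
    ring
  rw [hD, hE] at key
  apply mul_left_cancel₀ (by positivity : 2 * L1 ≠ 0)
  linear_combination -key

end Rel

end Pool.Agent.MP_249f74_an.H69
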