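import Pool.Agent.MP_249f74_an.H69.Planar
import Pool.Agent.MP_249f74_an.H69.Scal

/-!
Non-planar quadrilaterals whose holonomy is a half-turn form a small set.
-/

open Set Module
open scoped RealInnerProductSpace ENNReal

namespace Pool.Agent.MP_249f74_an.H69

variable {E : Type*} [NormedAddCommGroup E] [InnerProductSpace ℝ E]
variable {f : E → ℝ} {g : E → E} {G : E → E →L[ℝ] E}

/-- non-planar quadrilateral -/
def NP (q : Cfg E) : Prop :=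
  ∀ i j k, j = i + 1 → k = j + 1 → ¬ ∃ α β : ℝ, q.2.1 k = α • q.2.1 i + β • q.2.1 j

lemma pl_step {q : Cfg E} (hb : Bil f g q) (hz : NZ q) {i j k l : Fin 4} (c : Cyc i j k l)
    (h : ∃ α β : ℝ, q.2.1 k = α • q.2.1 i + β • q.2.1 j) :
    ∃ α β : ℝ, q.2.1 l = α • q.2.1 j + β • q.2.1 k := by
  obtain ⟨α, β, e⟩ := h
  have hα : α ≠ 0 := by
    rintro rfl
    have h1 := hb.gam_pos c.jk
    have h2 := hb.one_add_pos hz c.jk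
    have h3 := hb.n k
    rw [e, zero_smul, zero_add] at h1 h2 h3
    simp only [real_inner_smul_left, real_inner_smul_right, hb.n] at h1 h2 h3
    nlinarith
  have h1 := hb.closure c
  have h5 := (hb.Lp l).ne'
  refine ⟨(q.2.2.1 i * β - q.2.2.1 j * α) / (q.2.2.1 l * α),
    (-q.2.2.1 i - q.2.2.1 k * α) / (q.2.2.1 l * α), ?_⟩
  apply smul_right_injective E (mul_ne_zero h5 hα)
  simp only [smul_add, smul_smul, mul_div_cancel₀ _ (mul_ne_zero h5 hα)]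
  linear_combination (norm := module) α • h1 + q.2.2.1 i • e

lemma np_of_not_pl {q : Cfg E} (hb : Bil f g q) (hz : NZ q) (h : ¬ Pl q) : NP q := by
  intro i j k e1 e2 h0
  have c : Cyc i j k (k + 1) := by
    subst e1 e2
    exact cyc_of i
  have h1 := pl_step hb hz c h0
  have h2 := pl_step hb hz c.rot h1
  have h3 := pl_step hb hz c.rot.rot h2
  refine h fun i' j' k' e1' e2' => ?_
  rcases c.cover i' with rfl | rfl | rfl | rfl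
  · rw [e2', e1', ← c.ij, ← c.jk]; exact h0
  · rw [e2', e1', ← c.jk]; exact h1
  · rw [e2', e1', ← c.li]; exact h2
  · rw [e2', e1', ← c.li, ← c.ij]; exact h3

/-- the quantity whose vanishing says that the holonomy is a half-turn -/
noncomputable def Phi (q : Cfg E) (i j k l : Fin 4) : ℝ :=
  (1 - ⟪q.2.1 l, q.2.1 i⟫) * (1 - ⟪q.2.1 j, q.2.1 k⟫)
    + (1 - ⟪q.2.1 i, q.2.1 j⟫) * (1 - ⟪q.2.1 k, q.2.1 l⟫)
    - (1 - ⟪q.2.1 i, q.2.1 k⟫) * (1 - ⟪q.2.1 j, q.2.1 l⟫)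

lemma Phi_rot (q : Cfg E) (i j k l : Fin 4) : Phi q j k l i = Phi q i j k l := by
  simp only [Phi, real_inner_comm (q.2.1 i) (q.2.1 k)]
  ring

/-- an auxiliary quadratic quantity -/
noncomputable def MM (q : Cfg E) (i j k l : Fin 4) : ℝ :=
  (q.2.2.1 i + q.2.2.1 j) * (q.2.2.1 k + q.2.2.1 l) + ⟪q.1 k - q.1 i, q.1 k - q.1 i⟫

lemma MM_swap (q : Cfg E) (i j k l : Fin 4) : MM q k l i j = MM q i j k l := by
  rw [MM, MM, ← neg_sub (q.1 k), inner_neg_neg, mul_comm]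

lemma Bil.diag {q : Cfg E} (hb : Bil f g q) {i j k l : Fin 4} (c : Cyc i j k l) :
    q.1 k - q.1 i = q.2.2.1 i • q.2.1 i + q.2.2.1 j • q.2.1 j := by
  rw [hb.e j k c.jk, hb.e i j c.ij]
  abel

lemma Bil.MM_eq {q : Cfg E} (hb : Bil f g q) {i j k l : Fin 4} (c : Cyc i j k l) :
    2 * q.2.2.1 i * q.2.2.1 j * (1 - ⟪q.2.1 i, q.2.1 j⟫) = (q.2.2.1 i + q.2.2.1 j)
      * (q.2.2.1 i + q.2.2.1 j + q.2.2.1 k + q.2.2.1 l) - MM q i j k l := by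
  rw [MM, hb.diag c]
  simp only [inner_add_left, inner_add_right, real_inner_smul_left, real_inner_smul_right, hb.n,
    real_inner_comm (q.2.1 i) (q.2.1 j)]
  ring

lemma Bil.MM_pos {q : Cfg E} (hb : Bil f g q) (i j k l : Fin 4) : 0 < MM q i j k l :=
  add_pos_of_pos_of_nonneg (mul_pos (add_pos (hb.Lp i) (hb.Lp j)) (add_pos (hb.Lp k) (hb.Lp l)))
    real_inner_self_nonneg

lemma Bil.clos {q : Cfg E} (hb : Bil f g q) {i j k l : Fin 4} (c : Cyc i j k l) (y : E) :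
    q.2.2.1 i * ⟪q.2.1 i, y⟫ + q.2.2.1 j * ⟪q.2.1 j, y⟫ + q.2.2.1 k * ⟪q.2.1 k, y⟫
      + q.2.2.1 l * ⟪q.2.1 l, y⟫ = 0 := by
  have := congrArg (fun z => ⟪z, y⟫) (hb.closure c)
  simpa only [inner_add_left, real_inner_smul_left, inner_zero_left] using this

lemma Bil.rel {q : Cfg E} (hb : Bil f g q) {i j k l : Fin 4} (c : Cyc i j k l) :
    Rel (q.2.2.1 i) (q.2.2.1 j) (q.2.2.1 k) (q.2.2.1 l) (MM q j k l i) (MM q i j k l)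
      (1 - ⟪q.2.1 l, q.2.1 i⟫) (1 - ⟪q.2.1 i, q.2.1 j⟫) (1 - ⟪q.2.1 j, q.2.1 k⟫)
      (1 - ⟪q.2.1 k, q.2.1 l⟫) (1 - ⟪q.2.1 i, q.2.1 k⟫) (1 - ⟪q.2.1 j, q.2.1 l⟫) where
  p1 := hb.Lp i
  p2 := hb.Lp j
  p3 := hb.Lp k
  p4 := hb.Lp l
  h1 := by
    have := hb.MM_eq c.rot.rot.rot
    rw [MM_swap] at this
    linear_combination this
  h2 := hb.MM_eq c
  h3 := by linear_combination hb.MM_eq c.rot
  h4 := by
    have := hb.MM_eq c.rot.rot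
    rw [MM_swap] at this
    linear_combination this
  d13 := by
    have := hb.clos c (q.2.1 i)
    rw [hb.n, real_inner_comm (q.2.1 i) (q.2.1 j), real_inner_comm (q.2.1 i) (q.2.1 k)] at this
    linear_combination this
  d24 := by
    have := hb.clos c (q.2.1 j)
    rw [hb.n, real_inner_comm (q.2.1 j) (q.2.1 k), real_inner_comm (q.2.1 j) (q.2.1 l)] at this
    linear_combination this

/-- the second variation form at vertex `j` -/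
noncomputable def mf (G : E → E →L[ℝ] E) (q : Cfg E) (i j : Fin 4) (a b : E) : ℝ :=
  (q.2.2.1 i + q.2.2.1 j) * ed (q.2.1 i) a b
    + q.2.2.1 i * q.2.2.1 j * (q.2.2.2 j * ⟪G (q.1 j) a, b⟫)

lemma Src.fwd {q v : Cfg E} {i j k l : Fin 4} {θ : E} (hb : Bil f g q) (c : Cyc i j k l)
    (h : Src g G q v l i j θ) {η : E} (hη : ⟪g (q.1 j), η⟫ = 0) :
    ed (q.2.1 j) (v.1 k) η = mf G q i j (pr (g (q.1 j)) (q.2.1 i) θ) η := by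
  have h1 := h.lin.jac c.ij hη
  have h2 := h.lin.p_eq hb c.jk η
  have h3 := h.lin.p_eq hb c.ij η
  rw [hb.ed_eq c.ij (h.lin.z j) hη] at h2
  rw [h.x0] at h3
  rw [h.xj, ed_smul_left] at h2 h3
  rw [h.xj, map_smul, real_inner_smul_left] at h1
  have h4 : ed (q.2.1 i) 0 η = 0 := by simp [ed]
  rw [h4] at h3
  have h5 : ⟪v.2.1 i, η⟫ = ed (q.2.1 i) (pr (g (q.1 j)) (q.2.1 i) θ) η := by
    apply mul_left_cancel₀ (hb.Lp i).ne'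
    linarith
  rw [mf]
  linear_combination -h2 + q.2.2.1 j * h1 + q.2.2.1 j * h5

lemma Src.bwd {q v : Cfg E} {i j k l : Fin 4} {θ : E} (hb : Bil f g q) (c : Cyc i j k l)
    (h : Src g G q v l i j θ) {η : E} (hη : ⟪g (q.1 l), η⟫ = 0) :
    ed (q.2.1 k) (v.1 k) η = -mf G q k l (pr (g (q.1 l)) (q.2.1 l) θ) η := by
  have h1 := h.lin.jac c.kl hη
  have h2 := h.lin.p_eq hb c.kl η
  have h3 := h.lin.p_eq hb c.li η
  rw [hb.ed_eq c.kl (h.lin.z l) hη] at h3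
  rw [h.x0] at h3
  rw [h.xh, ed_smul_left] at h2 h3
  rw [h.xh, map_smul, real_inner_smul_left] at h1
  have h4 : ed (q.2.1 l) 0 η = 0 := by simp [ed]
  rw [h4] at h3
  have h5 : ⟪v.2.1 l, η⟫ = ed (q.2.1 k) (pr (g (q.1 l)) (q.2.1 l) θ) η := by
    apply mul_left_cancel₀ (hb.Lp l).ne'
    linarith
  rw [mf]
  linear_combination h2 + q.2.2.1 k * h1 - q.2.2.1 k * h5

lemma Bil.pr_fwd {q : Cfg E} (hb : Bil f g q) {i j : Fin 4} (e : j = i + 1) (η : E) :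
    pr (g (q.1 j)) (q.2.1 i) η
      = η + ((⟪q.2.1 j, η⟫ - ⟪q.2.1 i, η⟫) / (1 - ⟪q.2.1 i, q.2.1 j⟫)) • q.2.1 i := by
  rw [hb.pr_eq e, pr, inner_sub_left, inner_sub_left, hb.n, real_inner_comm (q.2.1 i),
    ← neg_sub 1, div_neg, neg_smul, sub_neg_eq_add]

lemma Bil.pr_bwd {q : Cfg E} (hb : Bil f g q) {i j : Fin 4} (e : j = i + 1) (η : E) :
    pr (g (q.1 j)) (q.2.1 j) η
      = η - ((⟪q.2.1 j, η⟫ - ⟪q.2.1 i, η⟫) / (1 - ⟪q.2.1 i, q.2.1 j⟫)) • q.2.1 j := by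
  rw [hb.pr_eq e, pr, inner_sub_left, inner_sub_left, hb.n]

/-- eigenvector relations in the half-turn case -/
def PiAB (g : E → E) (G : E → E →L[ℝ] E) (q : Cfg E) (i j k l : Fin 4) : Prop :=
  (∀ ϑ, ⟪g (q.1 j), ϑ⟫ = 0 → (q.2.2.1 i + q.2.2.1 j + q.2.2.1 k + q.2.2.1 l)
      * mf G q i j ϑ (pr (g (q.1 j)) (q.2.1 i) (q.2.1 l))
      = MM q i j k l * ed (q.2.1 i) ϑ (pr (g (q.1 j)) (q.2.1 i) (q.2.1 l))) ∧
  (∀ ϑ, ⟪g (q.1 l), ϑ⟫ = 0 → (q.2.2.1 i + q.2.2.1 j + q.2.2.1 k + q.2.2.1 l)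
      * mf G q k l ϑ (pr (g (q.1 l)) (q.2.1 l) (q.2.1 i))
      = MM q i j k l * ed (q.2.1 k) ϑ (pr (g (q.1 l)) (q.2.1 l) (q.2.1 i)))

variable [FiniteDimensional ℝ E]

lemma pi_src {S : Set (Cfg E)} (hS : ∀ x ∈ S, Bil f g x) {i j k l : Fin 4}
    (c : Cyc i j k l) (hC : ∀ x ∈ S, Phi x i j k l = 0) {q v : Cfg E} (hq : q ∈ S)
    (hv : v ∈ Tan S q) {θ : E} (hθ : ⟪g (q.1 i), θ⟫ = 0) (hs : Src g G q v l i j θ) :
    (q.2.2.1 i + q.2.2.1 j + q.2.2.1 k + q.2.2.1 l)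
        * ed (q.2.1 j) (v.1 k) (pr (g (q.1 j)) (q.2.1 i) (q.2.1 l))
      = MM q i j k l * ((1 - ⟪q.2.1 l, q.2.1 i⟫) * ⟪q.2.1 i, θ⟫) ∧
    (q.2.2.1 i + q.2.2.1 j + q.2.2.1 k + q.2.2.1 l)
        * ed (q.2.1 k) (v.1 k) (pr (g (q.1 l)) (q.2.1 l) (q.2.1 i))
      = -(MM q i j k l * ((1 - ⟪q.2.1 l, q.2.1 i⟫) * ⟪q.2.1 i, θ⟫)) := by
  have hb := hS q hq
  have hl := hs.lin
  have hR := hb.rel c
  have hE : ∀ x ∈ S, (x.2.2.1 i + x.2.2.1 j + x.2.2.1 k + x.2.2.1 l)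
      * (x.2.2.1 i + x.2.2.1 j + x.2.2.1 k + x.2.2.1 l)
      * (x.2.2.1 i * x.2.2.1 k + x.2.2.1 j * x.2.2.1 l) - MM x j k l i * MM x i j k l = 0 := by
    intro x hx
    have h1 := ((hS x hx).rel c).phi
    have h2 := hC x hx
    rw [Phi] at h2
    rw [h2, mul_zero] at h1
    linear_combination h1
  have dM : ∀ i j k l : Fin 4, Dir (fun x => MM x i j k l) q v
      ((v.2.2.1 i + v.2.2.1 j) * (q.2.2.1 k + q.2.2.1 l)
        + (q.2.2.1 i + q.2.2.1 j) * (v.2.2.1 k + v.2.2.1 l)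
        + 2 * ⟪q.1 k - q.1 i, v.1 k - v.1 i⟫) := fun i j k l => by
    refine ((((dir_L i).add (dir_L j)).mul ((dir_L k).add (dir_L l))).add
      (((dir_x k).sub (dir_x i)).inner ((dir_x k).sub (dir_x i)))).congr ?_
    rw [real_inner_comm (q.1 k - q.1 i) (v.1 k - v.1 i)]
    ring
  have dL : Dir (fun x : Cfg E => x.2.2.1 i + x.2.2.1 j + x.2.2.1 k + x.2.2.1 l) q v 0 :=
    ((((dir_L i).add (dir_L j)).add (dir_L k)).add (dir_L l)).congr (hl.sum_l hb c)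
  have hD := (((dL.mul dL).mul (((dir_L i).mul (dir_L k)).add ((dir_L j).mul (dir_L l)))).sub
    ((dM j k l i).mul (dM i j k l))).eq_zero hq hv hE
  have g1 := hb.gam_pos c.li
  have g2 := hb.gam_pos c.ij
  have g4 := hb.gam_pos c.kl
  have t14 := hb.tan_eq c.li hθ
  have z23 := hb.tan_eq c.jk (hl.z k)
  have ct := hb.clos c θ
  have cz := hb.clos c (v.1 k)
  have hx2 := hs.xj
  have hx4 := hs.xh
  rw [hb.pr_fwd c.ij] at hx2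
  rw [hb.pr_bwd c.kl] at hx4
  have l1 := hl.l_eq hb c.ij
  have l2 := hl.l_eq hb c.jk
  have l3 := hl.l_eq hb c.kl
  have l4 := hl.l_eq hb c.li
  rw [hb.diag c, hb.diag c.rot, hs.x0] at hD
  rw [hb.tan_eq c.ij (hl.z j)] at l2
  rw [← hb.tan_eq c.kl (hl.z l), z23] at l3
  rw [hs.x0] at l1 l4
  obtain ⟨α, hα⟩ : ∃ α, (⟪q.2.1 j, θ⟫ - ⟪q.2.1 i, θ⟫) / (1 - ⟪q.2.1 i, q.2.1 j⟫) = α := ⟨_, rfl⟩
  obtain ⟨β, hβ⟩ : ∃ β, (⟪q.2.1 l, θ⟫ - ⟪q.2.1 k, θ⟫) / (1 - ⟪q.2.1 k, q.2.1 l⟫) = β := ⟨_, rfl⟩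
  rw [hα] at hx2
  rw [hβ] at hx4
  rw [div_eq_iff g2.ne'] at hα
  rw [div_eq_iff g4.ne'] at hβ
  have t2 : ⟪q.2.1 j, θ⟫ = ⟪q.2.1 i, θ⟫ + (1 - ⟪q.2.1 i, q.2.1 j⟫) * α := by linarith
  have t3 : ⟪q.2.1 k, θ⟫ = ⟪q.2.1 i, θ⟫ - (1 - ⟪q.2.1 k, q.2.1 l⟫) * β := by linarith
  rw [hx2] at l1 l2
  rw [hx4] at l3 l4
  rw [hx2, hx4] at hD
  simp only [inner_add_left, inner_add_right, inner_sub_right, real_inner_smul_left,
    real_inner_smul_right, inner_zero_right, hb.n, ← t14, t2, t3,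
    real_inner_comm (q.2.1 i) (q.2.1 j), real_inner_comm (q.2.1 i) (q.2.1 k)] at l1 l2 l3 l4 hD
  have hE' : (q.2.2.1 i + q.2.2.1 j + q.2.2.1 k + q.2.2.1 l) ^ 2
      * (q.2.2.1 i * q.2.2.1 k + q.2.2.1 j * q.2.2.1 l) - MM q j k l i * MM q i j k l = 0 := by
    linear_combination hE q hq
  have key := hR.der hE' (t := ⟪q.2.1 i, θ⟫) (α := α) (β := β) (z1 := ⟪q.2.1 i, v.1 k⟫)
    (z2 := ⟪q.2.1 j, v.1 k⟫) (by rw [t2, t3, ← t14] at ct; linear_combination ct)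
    (l1 := v.2.2.1 i) (l2 := v.2.2.1 j) (l3 := v.2.2.1 k) (l4 := v.2.2.1 l)
    (by linear_combination l1) (by linear_combination l4) (by linear_combination l2 + l1)
    (by linear_combination l3 + l4)
    (by linear_combination hD + 2 * MM q i j k l * q.2.2.1 j * l1
          + 2 * MM q i j k l * q.2.2.1 k * l4)
  obtain ⟨k1, k2, -⟩ := hR.kap hE'
  rw [z23] at cz
  constructor
  · rw [hb.pr_fwd c.ij, ed]
    obtain ⟨κ, hκ⟩ : ∃ κ, (⟪q.2.1 j, q.2.1 l⟫ - ⟪q.2.1 i, q.2.1 l⟫) / (1 - ⟪q.2.1 i, q.2.1 j⟫) = κ :=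
      ⟨_, rfl⟩
    rw [hκ]
    rw [div_eq_iff g2.ne', real_inner_comm (q.2.1 l) (q.2.1 i)] at hκ
    have k3 : q.2.2.1 i * (q.2.2.1 i + q.2.2.1 j + q.2.2.1 k + q.2.2.1 l) - MM q j k l i
        = (q.2.2.1 i + q.2.2.1 j + q.2.2.1 k + q.2.2.1 l) * q.2.2.1 l * κ := by
      apply mul_left_cancel₀ g2.ne'
      linear_combination k1 + (q.2.2.1 i + q.2.2.1 j + q.2.2.1 k + q.2.2.1 l) * q.2.2.1 l * hκ
    simp only [inner_add_right, real_inner_smul_right, real_inner_comm (q.2.1 i) (q.2.1 j),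
      real_inner_comm _ (v.1 k), inner_add_left, real_inner_smul_left]
    apply mul_left_cancel₀ (hb.Lp l).ne'
    linear_combination key + (q.2.2.1 i + q.2.2.1 j + q.2.2.1 k + q.2.2.1 l) * cz
      - (⟪q.2.1 i, v.1 k⟫ - ⟪q.2.1 j, v.1 k⟫) * k3
      - (q.2.2.1 i + q.2.2.1 j + q.2.2.1 k + q.2.2.1 l) * q.2.2.1 l * ⟪q.2.1 j, v.1 k⟫ * hκ
  · rw [hb.pr_bwd c.kl, ed]
    obtain ⟨κ, hκ⟩ : ∃ κ, (⟪q.2.1 l, q.2.1 i⟫ - ⟪q.2.1 k, q.2.1 i⟫) / (1 - ⟪q.2.1 k, q.2.1 l⟫) = κ :=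
      ⟨_, rfl⟩
    rw [hκ]
    rw [div_eq_iff g4.ne', real_inner_comm (q.2.1 i) (q.2.1 k)] at hκ
    have k3 : q.2.2.1 l * (q.2.2.1 i + q.2.2.1 j + q.2.2.1 k + q.2.2.1 l) - MM q j k l i
        = -((q.2.2.1 i + q.2.2.1 j + q.2.2.1 k + q.2.2.1 l) * q.2.2.1 i * κ) := by
      apply mul_left_cancel₀ g4.ne'
      linear_combination k2 - (q.2.2.1 i + q.2.2.1 j + q.2.2.1 k + q.2.2.1 l) * q.2.2.1 i * hκ
    simp only [inner_sub_right, real_inner_smul_right, real_inner_comm (q.2.1 i) (q.2.1 k),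
      real_inner_comm _ (v.1 k), z23, inner_sub_left, real_inner_smul_left]
    apply mul_left_cancel₀ (mul_pos (hb.Lp l) (hb.Lp i)).ne'
    have h1 := hR.h1
    linear_combination -q.2.2.1 i * key
      + ((q.2.2.1 i + q.2.2.1 j + q.2.2.1 k + q.2.2.1 l) * q.2.2.1 l - MM q j k l i) * cz
      - q.2.2.1 l * (⟪q.2.1 l, v.1 k⟫ - ⟪q.2.1 j, v.1 k⟫) * k3
      + (q.2.2.1 i + q.2.2.1 j + q.2.2.1 k + q.2.2.1 l) * q.2.2.1 l * q.2.2.1 i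
        * ⟪q.2.1 j, v.1 k⟫ * hκ
      + (q.2.2.1 i + q.2.2.1 j + q.2.2.1 k + q.2.2.1 l) * ⟪q.2.1 j, v.1 k⟫ * h1

lemma ae_PiAB (hB : Bd f g G) {i j k l : Fin 4} (c : Cyc i j k l) :
    AE f g fun q => Phi q i j k l = 0 → PiAB g G q i j k l := by
  refine AE.step hB _ _ fun S q hS hC hq hF => ?_
  have hb := hS q hq
  constructor
  · intro ϑ hϑ
    have hθ := inner_pr (hb.gu_ne i) ϑ
    obtain ⟨v, hv, hs⟩ := exists_src hB hS hq hF c.li c.ij hθ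
    have h1 := (pi_src hS c hC hq hv hθ hs).1
    rw [hs.fwd hb c (inner_pr (hb.gu_prev_pos c.ij).ne' _),
      pr_pr (hb.gu_prev_pos c.ij).ne' hϑ] at h1
    rw [h1, ed_pr_right (hb.n i), ← ed_pr_left (hb.n i) (g (q.1 i)) ϑ, ed,
      real_inner_comm _ (pr _ _ _), ← hb.tan_eq c.li hθ, real_inner_comm (q.2.1 l)]
    ring
  · intro ϑ hϑ
    have hθ := inner_pr (hb.gu_prev_pos c.li).ne' ϑ
    obtain ⟨v, hv, hs⟩ := exists_src hB hS hq hF c.li c.ij hθ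
    have h1 := (pi_src hS c hC hq hv hθ hs).2
    rw [hs.bwd hb c (inner_pr (hb.gu_ne l) _), pr_pr (hb.gu_ne l) hϑ, mul_neg, neg_inj] at h1
    rw [h1, ← hb.ed_eq c.kl hϑ (inner_pr (hb.gu_ne l) _), ed_pr_right (hb.n l),
      ← ed_pr_left (hb.n l) (g (q.1 i)) ϑ, ed, real_inner_comm _ (pr _ _ _),
      ← hb.tan_eq c.li hθ]
    ring

omit [FiniteDimensional ℝ E] in
lemma pi_W {q : Cfg E} (hb : Bil f g q) {i j k l : Fin 4} (c : Cyc i j k l)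
    (h0 : Phi q i j k l = 0) :
    (q.2.2.1 i + q.2.2.1 j + q.2.2.1 k + q.2.2.1 l) •
      (q.2.2.1 k • pr (g (q.1 j)) (q.2.1 j) (q.2.1 k)
        + q.2.2.1 l • pr (g (q.1 j)) (q.2.1 i) (q.2.1 l))
      = -MM q j k l i • (q.2.1 i + q.2.1 j) := by
  have hR := hb.rel c
  have h1 := hR.phi
  rw [Phi] at h0
  rw [h0, mul_zero] at h1
  obtain ⟨k1, -, k3⟩ := hR.kap h1
  have g2 := hb.gam_pos c.ij
  rw [hb.pr_fwd c.ij, hb.pr_bwd c.ij]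
  obtain ⟨κ, hκ⟩ : ∃ κ, (⟪q.2.1 j, q.2.1 l⟫ - ⟪q.2.1 i, q.2.1 l⟫) / (1 - ⟪q.2.1 i, q.2.1 j⟫) = κ :=
    ⟨_, rfl⟩
  obtain ⟨κ', hκ'⟩ :
      ∃ κ, (⟪q.2.1 j, q.2.1 k⟫ - ⟪q.2.1 i, q.2.1 k⟫) / (1 - ⟪q.2.1 i, q.2.1 j⟫) = κ := ⟨_, rfl⟩
  rw [hκ, hκ']
  rw [div_eq_iff g2.ne', real_inner_comm (q.2.1 l) (q.2.1 i)] at hκ
  rw [div_eq_iff g2.ne'] at hκ'
  have a1 : MM q j k l i = (q.2.2.1 i + q.2.2.1 j + q.2.2.1 k + q.2.2.1 l)
      * (q.2.2.1 i - q.2.2.1 l * κ) := by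
    apply mul_left_cancel₀ g2.ne'
    linear_combination -k1 - (q.2.2.1 i + q.2.2.1 j + q.2.2.1 k + q.2.2.1 l) * q.2.2.1 l * hκ
  have a2 : q.2.2.1 j + q.2.2.1 k * κ' = q.2.2.1 i - q.2.2.1 l * κ := by
    apply mul_left_cancel₀ (add_pos (add_pos (add_pos hR.p1 hR.p2) hR.p3) hR.p4).ne'
    rw [← a1]
    apply mul_left_cancel₀ g2.ne'
    linear_combination k3 - (q.2.2.1 i + q.2.2.1 j + q.2.2.1 k + q.2.2.1 l) * q.2.2.1 k * hκ'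
  have h2 := hb.closure c
  rw [a1]
  linear_combination (norm := module) (q.2.2.1 i + q.2.2.1 j + q.2.2.1 k + q.2.2.1 l) • h2
    - ((q.2.2.1 i + q.2.2.1 j + q.2.2.1 k + q.2.2.1 l)) • a2 • q.2.1 j

theorem ae_Phi (hB : Bd f g G) (hd : 3 ≤ finrank ℝ E) {i j k l : Fin 4} (c : Cyc i j k l) :
    AE f g fun q => Phi q i j k l ≠ 0 := by
  refine ((((ae_NZ hB hd).and (ae_Sc hB hd)).and (ae_not_Pl hB hd)).and
    ((ae_PiAB hB c).and (ae_PiAB hB c.rot.rot))).mono ?_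
  rintro q hb ⟨⟨⟨hz, hsc⟩, hp⟩, k1, k2⟩ h0
  have hnp := np_of_not_pl hb hz hp
  have hA := (k1 h0).1
  have hB' := (k2 (by rw [Phi_rot, Phi_rot, h0])).2
  rw [MM_swap] at hB'
  have hW := pi_W hb c h0
  have hM := hb.MM_eq c
  have hM1 := hb.MM_pos j k l i
  have g2 := hb.gam_pos c.ij
  have g3 := hb.one_add_pos hz c.ij
  have hLL := mul_pos (hb.Lp i) (hb.Lp j)
  have hL := add_pos (add_pos (add_pos (hb.Lp i) (hb.Lp j)) (hb.Lp k)) (hb.Lp l)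
  have hgA : ⟪g (q.1 j), pr (g (q.1 j)) (q.2.1 i) (q.2.1 l)⟫ = 0 :=
    inner_pr (hb.gu_prev_pos c.ij).ne' _
  have hAdef := hb.pr_fwd c.ij (q.2.1 l)
  generalize pr (g (q.1 j)) (q.2.1 i) (q.2.1 l) = A at *
  generalize pr (g (q.1 j)) (q.2.1 j) (q.2.1 k) = B at *
  generalize hLt : q.2.2.1 i + q.2.2.1 j + q.2.2.1 k + q.2.2.1 l = L at *
  have hLt' : q.2.2.1 k + q.2.2.1 l + q.2.2.1 i + q.2.2.1 j = L := by linarith
  rw [hLt'] at hB'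
  have oA : ∀ ϑ, ⟪g (q.1 j), ϑ⟫ = 0 → L * (q.2.2.2 j * ⟪G (q.1 j) ϑ, A⟫)
      + 2 * (1 - ⟪q.2.1 i, q.2.1 j⟫) * ed (q.2.1 i) ϑ A = 0 := fun ϑ hϑ => by
    have := hA ϑ hϑ
    rw [mf] at this
    apply mul_left_cancel₀ hLL.ne'
    linear_combination this + ed (q.2.1 i) ϑ A * hM
  have oB : ∀ ϑ, ⟪g (q.1 j), ϑ⟫ = 0 → L * (q.2.2.2 j * ⟪G (q.1 j) ϑ, B⟫)
      + 2 * (1 - ⟪q.2.1 i, q.2.1 j⟫) * ed (q.2.1 i) ϑ B = 0 := fun ϑ hϑ => by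
    have := hB' ϑ hϑ
    rw [mf] at this
    apply mul_left_cancel₀ hLL.ne'
    linear_combination this + ed (q.2.1 i) ϑ B * hM
  have oW : ∀ ϑ, ⟪g (q.1 j), ϑ⟫ = 0 → L * (q.2.2.2 j * ⟪G (q.1 j) ϑ, q.2.1 i + q.2.1 j⟫)
      + 2 * (1 - ⟪q.2.1 i, q.2.1 j⟫) * ed (q.2.1 i) ϑ (q.2.1 i + q.2.1 j) = 0 := fun ϑ hϑ => by
    have a1 := congrArg (fun z => ⟪G (q.1 j) ϑ, z⟫) hW
    have a2 := congrArg (fun z => ed (q.2.1 i) ϑ z) hW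
    simp only [real_inner_smul_right, inner_add_right (G (q.1 j) ϑ) (_ • B)] at a1
    simp only [ed_smul_right, ed_add_right _ _ (_ • B)] at a2
    apply mul_left_cancel₀ hM1.ne'
    linear_combination -L * q.2.2.1 k * oB ϑ hϑ - L * q.2.2.1 l * oA ϑ hϑ
      + L * q.2.2.2 j * a1 + 2 * (1 - ⟪q.2.1 i, q.2.1 j⟫) * a2
  have uW : ⟪q.2.1 i, q.2.1 i + q.2.1 j⟫ = 1 + ⟪q.2.1 i, q.2.1 j⟫ := by
    rw [inner_add_right, hb.n]
  have tW : ∀ ϑ, ⟪g (q.1 j), ϑ⟫ = 0 → ⟪ϑ, q.2.1 i + q.2.1 j⟫ = 2 * ⟪q.2.1 i, ϑ⟫ := fun ϑ hϑ => by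
    rw [real_inner_comm, inner_add_left, hb.tan_eq c.ij hϑ]
    ring
  have hU : Um g G q i j := by
    refine span2 fun n h1 h2 => ?_
    have a1 := oW n h2
    have a2 := tW n h2
    rw [real_inner_comm, h1] at a2
    have a3 : ⟪q.2.1 i, n⟫ = 0 := by linarith
    rw [ed, real_inner_comm _ n, h1, a3, hB.symm] at a1
    have : L * q.2.2.2 j * ⟪G (q.1 j) (q.2.1 i + q.2.1 j), n⟫ = 0 := by linear_combination a1
    exact (mul_eq_zero.1 this).resolve_left (mul_ne_zero hL.ne' (hb.an j).ne)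
  obtain ⟨s, hs⟩ := hsc i j c.ij hU
  have b1 := oW _ (hb.gW c.ij)
  rw [hs _ _ (hb.gW c.ij) (hb.gW c.ij), ed, uW, hb.WW] at b1
  have b2 : L * q.2.2.2 j * s = -(1 - ⟪q.2.1 i, q.2.1 j⟫) ^ 2 := by
    apply mul_left_cancel₀ g3.ne'
    linear_combination (1 / 2 : ℝ) * b1
  have b3 : ∀ ϑ, ⟪g (q.1 j), ϑ⟫ = 0 →
      ⟪ϑ, (1 + ⟪q.2.1 i, q.2.1 j⟫) • A - ⟪q.2.1 i, A⟫ • (q.2.1 i + q.2.1 j)⟫ = 0 := fun ϑ hϑ => by
    have a1 := oA ϑ hϑ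
    rw [hs _ _ hϑ hgA, ed] at a1
    rw [inner_sub_right, real_inner_smul_right, real_inner_smul_right, tW ϑ hϑ]
    apply mul_left_cancel₀ g2.ne'
    linear_combination a1 - ⟪ϑ, A⟫ * b2
  have b4 := b3 _ (by
    rw [inner_sub_right, real_inner_smul_right, real_inner_smul_right, hgA, hb.gW c.ij]; ring :
      ⟪g (q.1 j), (1 + ⟪q.2.1 i, q.2.1 j⟫) • A - ⟪q.2.1 i, A⟫ • (q.2.1 i + q.2.1 j)⟫ = 0)
  rw [inner_self_eq_zero] at b4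
  have b5 : ∃ α β : ℝ, q.2.1 l = α • q.2.1 i + β • q.2.1 j := by
    generalize (⟪q.2.1 j, q.2.1 l⟫ - ⟪q.2.1 i, q.2.1 l⟫) / (1 - ⟪q.2.1 i, q.2.1 j⟫) = κ at hAdef
    refine ⟨⟪q.2.1 i, A⟫ / (1 + ⟪q.2.1 i, q.2.1 j⟫) - κ,
      ⟪q.2.1 i, A⟫ / (1 + ⟪q.2.1 i, q.2.1 j⟫), ?_⟩
    apply smul_right_injective E g3.ne'
    simp only [smul_add, smul_smul, mul_sub, mul_div_cancel₀ _ g3.ne']
    linear_combination (norm := module) b4 - (1 + ⟪q.2.1 i, q.2.1 j⟫) • hAdef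
  obtain ⟨α, β, e⟩ := b5
  refine hnp i j k c.ij c.jk
    ⟨-(q.2.2.1 i + q.2.2.1 l * α) / q.2.2.1 k, -(q.2.2.1 j + q.2.2.1 l * β) / q.2.2.1 k, ?_⟩
  apply smul_right_injective E (hb.Lp k).ne'
  simp only [smul_add, smul_smul, mul_div_cancel₀ _ (hb.Lp k).ne']
  linear_combination (norm := module) hb.closure c - q.2.2.1 l • e

end Pool.Agent.MP_249f74_an.H69
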