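import Pool.Agent.MP_249f74_an.H69.Umb

/-!
Planar quadrilaterals form a small set.
-/

open Set Module
open scoped RealInnerProductSpace ENNReal

namespace Pool.Agent.MP_249f74_an.H69

variable {E : Type*} [NormedAddCommGroup E] [InnerProductSpace ℝ E]
variable {f : E → ℝ} {g : E → E} {G : E → E →L[ℝ] E}

lemma Bil.WW {q : Cfg E} (h : Bil f g q) (i j : Fin 4) :
    ⟪q.2.1 i + q.2.1 j, q.2.1 i + q.2.1 j⟫ = 2 * (1 + ⟪q.2.1 i, q.2.1 j⟫) := by
  simp only [inner_add_left, inner_add_right, h.n, real_inner_comm (q.2.1 i) (q.2.1 j)]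
  ring

lemma Bil.one_add_pos {q : Cfg E} (h : Bil f g q) (hz : NZ q) {i j : Fin 4} (e : j = i + 1) :
    0 < 1 + ⟪q.2.1 i, q.2.1 j⟫ := by
  have := real_inner_self_pos.2 (hz i j e)
  rw [h.WW] at this
  linarith

lemma Bil.gg_eq {q : Cfg E} (h : Bil f g q) {i j : Fin 4} (e : j = i + 1) :
    q.2.2.2 j ^ 2 * ⟪g (q.1 j), g (q.1 j)⟫ = 2 * (1 - ⟪q.2.1 i, q.2.1 j⟫) := by
  have : ⟪q.2.1 j - q.2.1 i, q.2.1 j - q.2.1 i⟫ = 2 * (1 - ⟪q.2.1 i, q.2.1 j⟫) := by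
    simp only [inner_sub_left, inner_sub_right, h.n, real_inner_comm (q.2.1 i) (q.2.1 j)]
    ring
  rw [← this, h.r i j e, real_inner_smul_left, real_inner_smul_right]
  ring

lemma Bil.gram_ne {q : Cfg E} (h : Bil f g q) (hz : NZ q) {i j : Fin 4} (e : j = i + 1) :
    ⟪g (q.1 j), g (q.1 j)⟫ * 1 - ⟪g (q.1 j), q.2.1 j⟫ * ⟪g (q.1 j), q.2.1 j⟫ ≠ 0 := by
  intro h0
  have h1 := h.gg_eq e
  have h2 := h.gam_eq e
  have h3 := h.gam_pos e
  have h4 := h.one_add_pos hz e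
  have : (1 - ⟪q.2.1 i, q.2.1 j⟫) * (1 + ⟪q.2.1 i, q.2.1 j⟫) = 0 := by
    linear_combination -h1 + q.2.2.2 j ^ 2 * h0
      - (1 - ⟪q.2.1 i, q.2.1 j⟫ + q.2.2.2 j * ⟪g (q.1 j), q.2.1 j⟫) * h2
  exact (mul_pos h3 h4).ne' this

lemma Bil.indep {q : Cfg E} (h : Bil f g q) (hz : NZ q) {i j : Fin 4} (e : j = i + 1) {x y : ℝ}
    (h0 : x • g (q.1 j) + y • q.2.1 j = 0) : x = 0 ∧ y = 0 := by
  have h1 := congrArg (fun z => ⟪z, q.2.1 i + q.2.1 j⟫) h0
  simp only [inner_add_left, real_inner_smul_left, h.gW e, inner_zero_left] at h1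
  rw [inner_add_right, h.n, real_inner_comm] at h1
  have h4 := h.one_add_pos hz e
  have hy : y = 0 := by
    apply (mul_eq_zero.1 (_ : y * (1 + ⟪q.2.1 i, q.2.1 j⟫) = 0)).resolve_right h4.ne'
    linarith
  rw [hy, zero_smul, add_zero, smul_eq_zero] at h0
  refine ⟨h0.resolve_right fun h5 => ?_, hy⟩
  have := h.gg_pos j
  rw [h5, inner_zero_left] at this
  exact lt_irrefl _ this

/-- planar quadrilateral -/
def Pl (q : Cfg E) : Prop :=
  ∀ i j k, j = i + 1 → k = j + 1 → ∃ α β : ℝ, q.2.1 k = α • q.2.1 i + β • q.2.1 j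

lemma Pl.g1 {q : Cfg E} (hp : Pl q) (h : Bil f g q) {i j k l : Fin 4} (c : Cyc i j k l) :
    ∃ α β : ℝ, g (q.1 i) = α • g (q.1 j) + β • q.2.1 i := by
  obtain ⟨α, β, e⟩ := hp i j k c.ij c.jk
  have h1 := h.closure c
  have h2 := h.r l i c.li
  have h3 := h.r i j c.ij
  have h4 := (h.an i).ne
  have h5 := (h.Lp l).ne'
  refine ⟨(q.2.2.1 j + q.2.2.1 k * β) * q.2.2.2 j / (q.2.2.1 l * q.2.2.2 i),
    (q.2.2.1 l + q.2.2.1 i + q.2.2.1 j + q.2.2.1 k * (α + β)) / (q.2.2.1 l * q.2.2.2 i), ?_⟩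
  apply smul_right_injective E (mul_ne_zero h5 h4)
  simp only [smul_add, smul_smul, mul_div_cancel₀ _ (mul_ne_zero h5 h4)]
  linear_combination (norm := module) -q.2.2.1 l • h2 - h1 + q.2.2.1 k • e
    + (q.2.2.1 j + q.2.2.1 k * β) • h3

lemma Pl.g2 {q : Cfg E} (hp : Pl q) (h : Bil f g q) {i j k l : Fin 4} (c : Cyc i j k l) :
    ∃ α β : ℝ, g (q.1 j) = α • g (q.1 i) + β • q.2.1 i := by
  obtain ⟨α, β, e⟩ := hp l i j c.li c.ij
  have h2 := h.r l i c.li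
  have h3 := h.r i j c.ij
  have h4 := (h.an j).ne
  refine ⟨-α * q.2.2.2 i / q.2.2.2 j, (α + β - 1) / q.2.2.2 j, ?_⟩
  apply smul_right_injective E h4
  simp only [smul_add, smul_smul, mul_div_cancel₀ _ h4]
  linear_combination (norm := module) -h3 + e - α • h2

/-- normal curvature in the incidence direction -/
noncomputable def sv (G : E → E →L[ℝ] E) (q : Cfg E) (i j : Fin 4) : ℝ :=
  ⟪G (q.1 j) (q.2.1 i + q.2.1 j), q.2.1 i + q.2.1 j⟫ / ⟪q.2.1 i + q.2.1 j, q.2.1 i + q.2.1 j⟫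

lemma Sc.sv {q : Cfg E} {i j : Fin 4} (hs : Sc g G q j) (h : Bil f g q) (hz : NZ q)
    (e : j = i + 1) (ξ η : E) (h1 : ⟪g (q.1 j), ξ⟫ = 0) (h2 : ⟪g (q.1 j), η⟫ = 0) :
    ⟪G (q.1 j) ξ, η⟫ = sv G q i j * ⟪ξ, η⟫ := by
  obtain ⟨s, hs⟩ := hs
  have := real_inner_self_pos.2 (hz i j e)
  rw [H69.sv, hs _ _ (h.gW e) (h.gW e), mul_div_cancel_right₀ _ this.ne', hs _ _ h1 h2]

/-- first-order consequences of planarity along one edge -/
def R12 (g : E → E) (G : E → E →L[ℝ] E) (q : Cfg E) (i j : Fin 4) : Prop :=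
  (∃ α β : ℝ, g (q.1 i) = α • g (q.1 j) + β • q.2.1 i ∧ ∀ ξ n, ⟪g (q.1 i), ξ⟫ = 0 →
    ⟪g (q.1 j), n⟫ = 0 → ⟪q.2.1 i, n⟫ = 0 → q.2.2.1 i * ⟪G (q.1 i) ξ, n⟫ = -β * ⟪ξ, n⟫) ∧
  (∃ α β : ℝ, g (q.1 j) = α • g (q.1 i) + β • q.2.1 i ∧ ∀ ξ n, ⟪g (q.1 j), ξ⟫ = 0 →
    ⟪g (q.1 i), n⟫ = 0 → ⟪q.2.1 i, n⟫ = 0 → q.2.2.1 i * ⟪G (q.1 j) ξ, n⟫ = β * ⟪ξ, n⟫)

/-- vector from the common centre to the vertex -/
noncomputable def Yv (g : E → E) (G : E → E →L[ℝ] E) (q : Cfg E) (h i : Fin 4) : E :=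
  (sv G q h i)⁻¹ • g (q.1 i)

/-- signed distance along the ray -/
noncomputable def rho (g : E → E) (G : E → E →L[ℝ] E) (q : Cfg E) (h i : Fin 4) : ℝ :=
  -⟪q.2.1 i, Yv g G q h i⟫

/-- concentric osculating spheres -/
structure Con (g : E → E) (G : E → E →L[ℝ] E) (q : Cfg E) : Prop where
  nz : NZ q
  sc : ∀ i, Sc g G q i
  s0 : ∀ h i, i = h + 1 → sv G q h i ≠ 0
  y : ∀ h i j, i = h + 1 → j = i + 1 → Yv g G q i j = Yv g G q h i + q.2.2.1 i • q.2.1 i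

lemma Con.rho_ne {q : Cfg E} (hc : Con g G q) (hb : Bil f g q) {h i : Fin 4} (e : i = h + 1) :
    rho g G q h i ≠ 0 := by
  rw [rho, Yv, real_inner_smul_right, real_inner_comm]
  exact neg_ne_zero.2 (mul_ne_zero (inv_ne_zero (hc.s0 h i e)) (hb.gu_ne i))

lemma rho_next {q : Cfg E} (hb : Bil f g q) {i j : Fin 4} (e : j = i + 1) :
    ⟪q.2.1 i, Yv g G q i j⟫ = rho g G q i j := by
  rw [rho, Yv, real_inner_smul_right, real_inner_smul_right, real_inner_comm, hb.gu_prev e,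
    real_inner_comm]
  ring

lemma Con.L_eq {q : Cfg E} (hc : Con g G q) (hb : Bil f g q) {h i j : Fin 4} (e1 : i = h + 1)
    (e2 : j = i + 1) : q.2.2.1 i = rho g G q h i + rho g G q i j := by
  rw [← rho_next hb e2, hc.y h i j e1 e2, inner_add_right, real_inner_smul_right, hb.n, rho]
  ring

lemma Con.J_eq {q : Cfg E} (hc : Con g G q) (hb : Bil f g q) {h i j : Fin 4} (e1 : i = h + 1)
    (e2 : j = i + 1) : ⟪Yv g G q i j, Yv g G q i j⟫ - rho g G q i j * rho g G q i j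
      = ⟪Yv g G q h i, Yv g G q h i⟫ - rho g G q h i * rho g G q h i := by
  have h1 := hc.L_eq hb e1 e2
  have h2 : rho g G q i j = q.2.2.1 i - rho g G q h i := by linarith
  rw [h2, hc.y h i j e1 e2, rho]
  simp only [inner_add_left, inner_add_right, real_inner_smul_left, real_inner_smul_right, hb.n,
    real_inner_comm (q.2.1 i) (Yv g G q h i)]
  ring

lemma Lin.sum_l {q v : Cfg E} (hb : Bil f g q) (hl : Lin g G q v) {i j k l : Fin 4}
    (c : Cyc i j k l) : v.2.2.1 i + v.2.2.1 j + v.2.2.1 k + v.2.2.1 l = 0 := by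
  rw [hl.l_eq hb c.ij, hl.l_eq hb c.jk, hl.l_eq hb c.kl, hl.l_eq hb c.li,
    hb.tan_eq c.ij (hl.z j), hb.tan_eq c.jk (hl.z k), hb.tan_eq c.kl (hl.z l),
    hb.tan_eq c.li (hl.z i)]
  ring

variable [FiniteDimensional ℝ E]

lemma ae_R12 (hB : Bd f g G) {i j k l : Fin 4} (c : Cyc i j k l) :
    AE f g fun q => (NZ q ∧ Pl q) → R12 g G q i j := by
  refine AE.step hB _ _ fun S q hS hC hq hF => ?_
  have hb := hS q hq
  obtain ⟨hz, hp⟩ := hC q hq
  constructor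
  · obtain ⟨α, β, e⟩ := hp.g1 hb c
    refine ⟨α, β, e, fun ξ n hξ h1 h2 => ?_⟩
    obtain ⟨v, hv, hs⟩ := exists_src hB hS hq hF c.ij c.jk
      (inner_pr (hb.gu_prev_pos c.ij).ne' ξ)
    have := dir_coplanar hq hv (dir_g0 hB hs.x0) (dir_u i) (dir_g hB i)
      (fun x hx => (hC x hx).2.g1 (hS x hx) c) e
      (by rw [hb.n, hb.gu_prev c.ij, neg_mul_neg]; exact hb.gram_ne hz c.ij) h1 h2
    rw [hs.xh, hs.ph, pr_pr (hb.gu_ne i) hξ] at this
    simp only [pr, map_smul, inner_sub_left, real_inner_smul_left, h2, inner_zero_left] at this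
    linarith
  · obtain ⟨α, β, e⟩ := hp.g2 hb c
    refine ⟨α, β, e, fun ξ n hξ h1 h2 => ?_⟩
    obtain ⟨v, hv, hs⟩ := exists_src hB hS hq hF c.li c.ij (inner_pr (hb.gu_ne i) ξ)
    have := dir_coplanar hq hv (dir_g0 hB hs.x0) (dir_u i) (dir_g hB j)
      (fun x hx => (hC x hx).2.g2 (hS x hx) c) e
      (by rw [hb.n]; exact hb.gram_ne hz c.li) h1 h2
    rw [hs.xj, hs.pi, pr_pr (hb.gu_prev_pos c.ij).ne' hξ] at this
    simp only [pr, map_smul, inner_sub_left, real_inner_smul_left, h2, inner_zero_left] at this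
    linarith

lemma R12.um {q : Cfg E} {i j : Fin 4} (h : R12 g G q i j) (hb : Bil f g q) (e : j = i + 1) :
    Um g G q i j := by
  obtain ⟨⟨α, β, e1, -⟩, ⟨α', β', -, h2⟩⟩ := h
  refine span2 fun n h3 h4 => ?_
  have h5 : ⟪q.2.1 i, n⟫ = 0 := by
    have := (hb.tan_eq e h4)
    rw [inner_add_left] at h3
    linarith
  have h6 : ⟪g (q.1 i), n⟫ = 0 := by
    rw [e1, inner_add_left, real_inner_smul_left, real_inner_smul_left, h4, h5]
    ring
  have := h2 _ n (hb.gW e) h6 h5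
  rw [h3, mul_zero] at this
  exact (mul_eq_zero.1 this).resolve_left (hb.Lp i).ne'

lemma R12.rel (hd : 3 ≤ finrank ℝ E) {q : Cfg E} {h i j : Fin 4} (hr : R12 g G q i j)
    (hb : Bil f g q) (hz : NZ q) (hsc : ∀ i, Sc g G q i) (e0 : i = h + 1) (e : j = i + 1) :
    ∃ α α' : ℝ, α * α' = 1 ∧ sv G q h i = α * sv G q i j ∧
      g (q.1 j) = α' • g (q.1 i) + (sv G q i j * q.2.2.1 i) • q.2.1 i := by
  obtain ⟨⟨α, β, e1, h1⟩, ⟨α', β', e2, h2⟩⟩ := hr
  obtain ⟨n, hn, hn1, hn2⟩ := exists_orth hd (g (q.1 j)) (q.2.1 i)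
  have hn3 : ⟪g (q.1 i), n⟫ = 0 := by
    rw [e1, inner_add_left, real_inner_smul_left, real_inner_smul_left, hn1, hn2]
    ring
  have hnn := (real_inner_self_pos.2 hn).ne'
  have a1 := h1 n n hn3 hn1 hn2
  have a2 := h2 n n hn1 hn3 hn2
  rw [(hsc i).sv hb hz e0 n n hn3 hn3, ← mul_assoc] at a1
  rw [(hsc j).sv hb hz e n n hn1 hn1, ← mul_assoc] at a2
  have b1 := mul_right_cancel₀ hnn a1
  have b2 := mul_right_cancel₀ hnn a2
  have b3 : (1 - α * α') • g (q.1 i) + (-(α * β' + β)) • q.2.1 i = 0 := by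
    linear_combination (norm := module) e1 + α • e2
  obtain ⟨c1, c2⟩ := hb.indep hz e0 b3
  refine ⟨α, α', by linarith, ?_, by rw [e2, ← b2, mul_comm]⟩
  apply mul_left_cancel₀ (hb.Lp i).ne'
  linear_combination b1 - α * b2 + c2

lemma con_of (hd : 3 ≤ finrank ℝ E) {q : Cfg E} (hb : Bil f g q) (hz : NZ q)
    (hsc : ∀ i, Sc g G q i) (hr : ∀ i j, j = i + 1 → R12 g G q i j) : Con g G q := by
  have hs0 : ∀ h i, i = h + 1 → sv G q h i ≠ 0 := by
    intro l i e hs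
    have c : Cyc i (i + 1) (i + 1 + 1) l := by
      subst e
      exact (cyc_of l).rot
    generalize i + 1 + 1 = k at c
    generalize i + 1 = j at c
    obtain ⟨a1, b1, c1, d1, e1⟩ := (hr i j c.ij).rel hd hb hz hsc c.li c.ij
    obtain ⟨a2, b2, c2, d2, e2⟩ := (hr j k c.jk).rel hd hb hz hsc c.ij c.jk
    obtain ⟨a3, b3, c3, d3, e3⟩ := (hr k l c.kl).rel hd hb hz hsc c.jk c.kl
    have s1 : sv G q i j = 0 := by linear_combination -b1 * d1 - sv G q i j * c1 + b1 * hs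
    have s2 : sv G q j k = 0 := by linear_combination -b2 * d2 - sv G q j k * c2 + b2 * s1
    have s3 : sv G q k l = 0 := by linear_combination -b3 * d3 - sv G q k l * c3 + b3 * s2
    rw [s1, zero_mul, zero_smul, add_zero] at e1
    rw [s2, zero_mul, zero_smul, add_zero, e1] at e2
    rw [s3, zero_mul, zero_smul, add_zero, e2] at e3
    have hW := hb.gW c.li
    have t1 : ⟪g (q.1 j), q.2.1 l + q.2.1 i⟫ = 0 := by
      rw [e1, real_inner_smul_left, hW, mul_zero]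
    have t2 : ⟪g (q.1 k), q.2.1 l + q.2.1 i⟫ = 0 := by
      rw [e2, real_inner_smul_left, real_inner_smul_left, hW, mul_zero, mul_zero]
    have t3 : ⟪g (q.1 l), q.2.1 l + q.2.1 i⟫ = 0 := by
      rw [e3, real_inner_smul_left, real_inner_smul_left, real_inner_smul_left, hW, mul_zero,
        mul_zero, mul_zero]
    have u1 := hb.tan_eq c.ij t1
    have u2 := hb.tan_eq c.jk t2
    have u3 := hb.tan_eq c.kl t3
    have u4 := congrArg (fun z => ⟪z, q.2.1 l + q.2.1 i⟫) (hb.closure c)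
    simp only [inner_add_left, real_inner_smul_left, inner_zero_left] at u4
    rw [u3, u2, u1, inner_add_right, hb.n, real_inner_comm] at u4
    have p1 := hb.one_add_pos hz c.li
    have := mul_pos (add_pos (add_pos (hb.Lp i) (hb.Lp j)) (add_pos (hb.Lp k) (hb.Lp l))) p1
    linarith
  refine ⟨hz, hsc, hs0, fun h i j e1 e2 => ?_⟩
  obtain ⟨a1, b1, c1, d1, e3⟩ := (hr i j e2).rel hd hb hz hsc e1 e2
  have := hs0 i j e2
  have ha : a1 ≠ 0 := left_ne_zero_of_mul_eq_one c1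
  have hb1 : b1 = a1⁻¹ := eq_inv_of_mul_eq_one_right c1
  rw [Yv, Yv, e3, d1, hb1, smul_add, smul_smul, smul_smul, mul_inv, ← mul_assoc,
    inv_mul_cancel₀ this, one_mul, mul_comm]

lemma dir_Y (hB : Bd f g G) {S : Set (Cfg E)} (hS : ∀ x ∈ S, Bil f g x) (hC : ∀ x ∈ S, Con g G x)
    {q v : Cfg E} (hq : q ∈ S) (hv : v ∈ Tan S q) {h i : Fin 4} (e : i = h + 1) :
    Dir (fun x => Yv g G x h i) q v (v.1 i) := by
  have hb := hS q hq
  have hc := hC q hq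
  have hl := lin_of_tan hB hS hq hv
  have key : ∀ h i : Fin 4, i = h + 1 →
      ∃ c : ℝ, Dir (fun x => Yv g G x h i) q v (v.1 i + c • g (q.1 i)) := by
    intro h i e
    have hW := (dir_u (q := q) (v := v) h).add (dir_u i)
    obtain ⟨z, hz⟩ := dir_G hB i hW
    obtain ⟨s', hs'⟩ : ∃ y, Dir (fun x => (sv G x h i)⁻¹) q v y :=
      ⟨_, ((hz.inner hW).div (hW.inner hW) (real_inner_self_pos.2 (hc.nz h i e)).ne').inv
        (hc.s0 h i e)⟩
    have h1 := hs'.smul (dir_g hB i)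
    obtain ⟨c, hc'⟩ : ∃ c : ℝ, (sv G q h i)⁻¹ • G (q.1 i) (v.1 i) - v.1 i = c • g (q.1 i) := by
      refine span1 fun n hn => ?_
      rw [inner_sub_left, real_inner_smul_left, (hc.sc i).sv hb hc.nz e _ _ (hl.z i) hn,
        ← mul_assoc, inv_mul_cancel₀ (hc.s0 h i e)]
      ring
    refine ⟨c + s', h1.congr ?_⟩
    linear_combination (norm := module) hc'
  have key2 : ∀ h i j : Fin 4, i = h + 1 → j = i + 1 →
      Dir (fun x => Yv g G x i j) q v (v.1 j) := by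
    intro h i j e1 e2
    obtain ⟨c1, h1⟩ := key h i e1
    obtain ⟨c2, h2⟩ := key i j e2
    have h3 := ((h2.sub h1).sub ((dir_x j).sub (dir_x i))).eq_zero hq hv fun x hx => by
      rw [(hC x hx).y h i j e1 e2, (hS x hx).e i j e2]
      abel
    have h4 := hc.y h i j e1 e2
    have h5 := hc.s0 i j e2
    have h6 : g (q.1 j) = sv G q i j • Yv g G q i j := by
      rw [Yv, smul_smul, mul_inv_cancel₀ h5, one_smul]
    rw [h4, Yv] at h6
    have h7 : (c2 * sv G q i j * (sv G q h i)⁻¹ - c1) • g (q.1 i)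
        + (c2 * sv G q i j * q.2.2.1 i) • q.2.1 i = 0 := by
      linear_combination (norm := module) h3 - c2 • h6
    have h8 := (hb.indep hc.nz e1 h7).2
    have h9 : c2 = 0 := by
      simpa [h5, (hb.Lp i).ne'] using h8
    exact h2.congr (by rw [h9, zero_smul, add_zero])
  have c := cyc_of h
  exact key2 _ h i c.li e

lemma con_var (hB : Bd f g G) {S : Set (Cfg E)} (hS : ∀ x ∈ S, Bil f g x)
    (hC : ∀ x ∈ S, Con g G x) {q : Cfg E} (hq : q ∈ S) (hF : Full S q) {i j k l : Fin 4}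
    (c : Cyc i j k l) : ∃ v ∈ Tan S q, ∃ r1 r2 r3 r4 e : ℝ, e ≠ 0 ∧
      Dir (fun x => rho g G x l i) q v r1 ∧ Dir (fun x => rho g G x i j) q v r2 ∧
      Dir (fun x => rho g G x j k) q v r3 ∧ Dir (fun x => rho g G x k l) q v r4 ∧
      rho g G q l i * r1 = e ∧ rho g G q i j * r2 = e ∧ rho g G q j k * r3 = e ∧
      rho g G q k l * r4 = e ∧ r1 + r2 + r3 + r4 = 0 := by
  have hb := hS q hq
  have hc := hC q hq
  obtain ⟨v, hv, hs⟩ := exists_src hB hS hq hF c.li c.ij (hb.gW c.li)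
  have hl := hs.lin
  have hr : ∀ h i : Fin 4, i = h + 1 → Dir (fun x => rho g G x h i) q v
      (-(⟪q.2.1 i, v.1 i⟫ + ⟪v.2.1 i, Yv g G q h i⟫)) := fun h i e =>
    ((dir_u i).inner (dir_Y hB hS hC hq hv e)).neg
  have hY : ∀ h i : Fin 4, i = h + 1 →
      Dir (fun x => ⟪Yv g G x h i, Yv g G x h i⟫) q v 0 := fun h i e => by
    refine ((dir_Y hB hS hC hq hv e).inner (dir_Y hB hS hC hq hv e)).congr ?_
    rw [real_inner_comm _ (v.1 i), Yv, real_inner_smul_left, hl.z]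
    ring
  have hstep : ∀ h i j : Fin 4, i = h + 1 → j = i + 1 → ∀ r r' : ℝ,
      Dir (fun x => rho g G x h i) q v r → Dir (fun x => rho g G x i j) q v r' →
      rho g G q i j * r' = rho g G q h i * r ∧ v.2.2.1 i = r + r' := by
    intro h i j e1 e2 r r' h1 h2
    have a1 := (((hY i j e2).sub (h2.mul h2)).sub ((hY h i e1).sub (h1.mul h1))).eq_zero hq hv
      fun x hx => sub_eq_zero.2 ((hC x hx).J_eq (hS x hx) e1 e2)
    have a2 := ((dir_L i).sub (h1.add h2)).eq_zero hq hv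
      fun x hx => sub_eq_zero.2 ((hC x hx).L_eq (hS x hx) e1 e2)
    constructor <;> linarith
  obtain ⟨a1, b1⟩ := hstep l i j c.li c.ij _ _ (hr l i c.li) (hr i j c.ij)
  obtain ⟨a2, b2⟩ := hstep i j k c.ij c.jk _ _ (hr i j c.ij) (hr j k c.jk)
  obtain ⟨a3, b3⟩ := hstep j k l c.jk c.kl _ _ (hr j k c.jk) (hr k l c.kl)
  obtain ⟨a4, b4⟩ := hstep k l i c.kl c.li _ _ (hr k l c.kl) (hr l i c.li)
  have := hl.sum_l hb c
  refine ⟨v, hv, _, _, _, _, _, ?_, hr l i c.li, hr i j c.ij, hr j k c.jk, hr k l c.kl, rfl, a1,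
    a2.trans a1, a3.trans (a2.trans a1), by linarith⟩
  refine mul_ne_zero (hc.rho_ne hb c.li) ?_
  have h1 : ⟪q.2.1 l + q.2.1 i, Yv g G q l i⟫ = 0 := by
    rw [Yv, real_inner_smul_right, real_inner_comm, hb.gW c.li, mul_zero]
  have h2 := hc.rho_ne hb c.li
  have h3 := (hb.one_add_pos hc.nz c.li).ne'
  rw [hs.x0, hs.pi, inner_zero_right, zero_add, inner_sub_left, h1, real_inner_smul_left,
    inner_add_right, hb.n, real_inner_comm (q.2.1 l), add_comm _ (1 : ℝ)]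
  rw [rho] at h2
  simpa using ⟨h3, by simpa using h2⟩

theorem ae_not_Pl (hB : Bd f g G) (hd : 3 ≤ finrank ℝ E) : AE f g fun q => ¬ Pl q := by
  have c := cyc_of 0
  generalize (0 : Fin 4) + 1 + 1 + 1 = l at c
  generalize (0 : Fin 4) + 1 + 1 = k at c
  generalize (0 : Fin 4) + 1 = j at c
  generalize (0 : Fin 4) = i at c
  have h1 : AE f g fun q => Con g G q → (rho g G q l i)⁻¹ + (rho g G q i j)⁻¹
      + (rho g G q j k)⁻¹ + (rho g G q k l)⁻¹ = 0 := by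
    refine AE.step hB _ _ fun S q hS hC hq hF => ?_
    obtain ⟨v, hv, r1, r2, r3, r4, e, he, -, -, -, -, a1, a2, a3, a4, a5⟩ :=
      con_var hB hS hC hq hF c
    have hb := hS q hq
    have hc := hC q hq
    have n1 := hc.rho_ne hb c.li
    have n2 := hc.rho_ne hb c.ij
    have n3 := hc.rho_ne hb c.jk
    have n4 := hc.rho_ne hb c.kl
    apply mul_left_cancel₀ he
    rw [mul_zero, ← a5, mul_add, mul_add, mul_add]
    congr 1
    congr 1
    congr 1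
    · rw [← a1]; field_simp
    · rw [← a2]; field_simp
    · rw [← a3]; field_simp
    · rw [← a4]; field_simp
  have h2 : AE f g fun q => (Con g G q ∧ (rho g G q l i)⁻¹ + (rho g G q i j)⁻¹
      + (rho g G q j k)⁻¹ + (rho g G q k l)⁻¹ = 0) → False := by
    refine AE.step hB _ _ fun S q hS hC hq hF => ?_
    obtain ⟨v, hv, r1, r2, r3, r4, e, he, d1, d2, d3, d4, a1, a2, a3, a4, -⟩ :=
      con_var hB hS (fun x hx => (hC x hx).1) hq hF c
    have hb := hS q hq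
    obtain ⟨hc, h0⟩ := hC q hq
    have n1 := hc.rho_ne hb c.li
    have n2 := hc.rho_ne hb c.ij
    have n3 := hc.rho_ne hb c.jk
    have n4 := hc.rho_ne hb c.kl
    have h3 := ((((d1.inv n1).add (d2.inv n2)).add (d3.inv n3)).add (d4.inv n4)).eq_zero hq hv
      fun x hx => (hC x hx).2
    have l1 := hb.Lp i
    have l2 := hb.Lp j
    have l3 := hb.Lp k
    have l4 := hb.Lp l
    rw [hc.L_eq hb c.li c.ij] at l1
    rw [hc.L_eq hb c.ij c.jk] at l2
    rw [hc.L_eq hb c.jk c.kl] at l3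
    rw [hc.L_eq hb c.kl c.li] at l4
    generalize rho g G q l i = x1 at *
    generalize rho g G q i j = x2 at *
    generalize rho g G q j k = x3 at *
    generalize rho g G q k l = x4 at *
    have b1 : r1 = e * x1⁻¹ := by rw [← a1]; field_simp
    have b2 : r2 = e * x2⁻¹ := by rw [← a2]; field_simp
    have b3 : r3 = e * x3⁻¹ := by rw [← a3]; field_simp
    have b4 : r4 = e * x4⁻¹ := by rw [← a4]; field_simp
    have h4 : x1⁻¹ ^ 3 + x2⁻¹ ^ 3 + x3⁻¹ ^ 3 + x4⁻¹ ^ 3 = 0 := by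
      apply mul_left_cancel₀ he
      rw [b1, b2, b3, b4] at h3
      simp only [div_eq_mul_inv, ← inv_pow] at h3
      linear_combination -h3
    have h5 : (x1⁻¹ + x2⁻¹) * (x1⁻¹ + x4⁻¹) * (x1⁻¹ + x3⁻¹) = 0 := by
      have h6 : x4⁻¹ = -(x1⁻¹ + x2⁻¹ + x3⁻¹) := by linarith
      rw [h6] at h4 ⊢
      linear_combination (1 / 3 : ℝ) * h4
    have h7 : x1⁻¹ + x2⁻¹ ≠ 0 := by
      rw [inv_add_inv n1 n2]
      exact div_ne_zero l1.ne' (mul_ne_zero n1 n2)
    have h8 : x1⁻¹ + x4⁻¹ ≠ 0 := by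
      rw [inv_add_inv n1 n4, add_comm]
      exact div_ne_zero l4.ne' (mul_ne_zero n1 n4)
    have h9 : x1⁻¹ + x3⁻¹ = 0 := (mul_eq_zero.1 h5).resolve_left (mul_ne_zero h7 h8)
    have h10 : x2⁻¹ + x4⁻¹ = 0 := by linarith
    rw [inv_add_inv n1 n3, div_eq_zero_iff] at h9
    rw [inv_add_inv n2 n4, div_eq_zero_iff] at h10
    have := h9.resolve_right (mul_ne_zero n1 n3)
    have := h10.resolve_right (mul_ne_zero n2 n4)
    linarith
  have h3 : AE f g fun q => ∀ i : Fin 4, (NZ q ∧ Pl q) → R12 g G q i (i + 1) :=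
    AE.all fun i => ae_R12 hB (cyc_of i)
  refine ((((ae_NZ hB hd).and (ae_Sc hB hd)).and h3).and (h1.and h2)).mono ?_
  rintro q hb ⟨⟨⟨hz, hsc⟩, hr⟩, k1, k2⟩ hp
  have hr' : ∀ i j, j = i + 1 → R12 g G q i j := fun i j e => e ▸ hr i ⟨hz, hp⟩
  have hc : Con g G q := con_of hd hb hz (fun j => by
    have c := cyc_of j
    exact hsc _ j c.li ((hr' _ j c.li).um hb c.li)) hr'
  exact k2 ⟨hc, k1 hc⟩

end Pool.Agent.MP_249f74_an.H69
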