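import Pool.Agent.MP_249f74_an.H69.HalfTurn

/-!
The holonomy of a non-planar quadrilateral is a rotation.
-/

open Set Module
open scoped RealInnerProductSpace ENNReal

namespace Pool.Agent.MP_249f74_an.H69

variable {E : Type*} [NormedAddCommGroup E] [InnerProductSpace ℝ E]
variable {f : E → ℝ} {g : E → E} {G : E → E →L[ℝ] E}

/-- projection along the outgoing ray onto the tangent hyperplane -/
noncomputable def sg (g : E → E) (q : Cfg E) (i : Fin 4) (η : E) : E :=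
  pr (g (q.1 i)) (q.2.1 i) η

/-- holonomy -/
noncomputable def Hol (g : E → E) (q : Cfg E) (i j k l : Fin 4) (η : E) : E :=
  sg g q j (sg g q k (sg g q l (sg g q i η)))

lemma Bil.sg_tan {q : Cfg E} (hb : Bil f g q) (i : Fin 4) (η : E) :
    ⟪g (q.1 i), sg g q i η⟫ = 0 := inner_pr (hb.gu_ne i) η

lemma sg_lin (q : Cfg E) (i : Fin 4) (x y : ℝ) (a b : E) :
    sg g q i (x • a + y • b) = x • sg g q i a + y • sg g q i b := by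
  simp only [sg, pr_add, pr_smul]

lemma Hol_lin (q : Cfg E) (i j k l : Fin 4) (x y : ℝ) (a b : E) :
    Hol g q i j k l (x • a + y • b) = x • Hol g q i j k l a + y • Hol g q i j k l b := by
  simp only [Hol, sg_lin]

lemma Bil.ed_sg {q : Cfg E} (hb : Bil f g q) {i j : Fin 4} (e : j = i + 1) (a b : E) :
    ed (q.2.1 i) (sg g q j a) (sg g q j b) = ed (q.2.1 j) a b := by
  rw [← hb.ed_eq e (hb.sg_tan j a) (hb.sg_tan j b), sg, sg, ed_pr_left (hb.n j),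
    ed_pr_right (hb.n j)]

lemma Bil.ed_Hol {q : Cfg E} (hb : Bil f g q) {i j k l : Fin 4} (c : Cyc i j k l) (a b : E) :
    ed (q.2.1 i) (Hol g q i j k l a) (Hol g q i j k l b) = ed (q.2.1 i) a b := by
  rw [Hol, Hol, hb.ed_sg c.ij, hb.ed_sg c.jk, hb.ed_sg c.kl, hb.ed_sg c.li]

lemma sg_orth (q : Cfg E) (i : Fin 4) {r : E} (h : ⟪q.2.1 i, r⟫ = 0) (y : E) :
    ⟪sg g q i y, r⟫ = ⟪y, r⟫ := by
  rw [sg, pr, inner_sub_left, real_inner_smul_left, h]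
  ring

lemma Bil.sg_fix {q : Cfg E} (hb : Bil f g q) {i j : Fin 4} (e : j = i + 1) {r : E}
    (h1 : ⟪q.2.1 i, r⟫ = 0) (h2 : ⟪q.2.1 j, r⟫ = 0) : sg g q j r = r :=
  pr_of_zero _ ((hb.tan_iff e).2 (by rw [inner_sub_left, h1, h2, sub_zero]))

lemma Bil.hol_skew {q : Cfg E} (hb : Bil f g q) {i j k l : Fin 4} (c : Cyc i j k l) {x y : E}
    (hx1 : ⟪q.2.1 j, x⟫ = ⟪q.2.1 i, x⟫) (hx2 : ⟪q.2.1 k, x⟫ = ⟪q.2.1 i, x⟫)
    (hy1 : ⟪q.2.1 j, y⟫ = ⟪q.2.1 i, y⟫) (hy2 : ⟪q.2.1 l, y⟫ = ⟪q.2.1 i, y⟫) :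
    (1 - ⟪q.2.1 l, q.2.1 i⟫) * (1 - ⟪q.2.1 j, q.2.1 k⟫) * (1 - ⟪q.2.1 k, q.2.1 l⟫)
      * (ed (q.2.1 i) (Hol g q i j k l x) y - ed (q.2.1 i) (Hol g q i j k l y) x)
      = (⟪q.2.1 i, x⟫ - ⟪q.2.1 l, x⟫) * (⟪q.2.1 k, y⟫ - ⟪q.2.1 i, y⟫) * Phi q i j k l := by
  have gx : ⟪g (q.1 j), x⟫ = 0 := (hb.tan_iff c.ij).2 (by rw [inner_sub_left, hx1, sub_self])
  have gy : ⟪g (q.1 j), y⟫ = 0 := (hb.tan_iff c.ij).2 (by rw [inner_sub_left, hy1, sub_self])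
  have g1 := (hb.gam_pos c.li).ne'
  have g3 := (hb.gam_pos c.jk).ne'
  have g4 := (hb.gam_pos c.kl).ne'
  rw [Hol, Hol, ← hb.ed_eq c.ij (hb.sg_tan j _) gy, ← hb.ed_eq c.ij (hb.sg_tan j _) gx]
  simp only [sg]
  rw [ed_pr_left (hb.n j), ed_pr_left (hb.n j)]
  simp only [hb.pr_bwd c.jk, hb.pr_bwd c.kl, hb.pr_bwd c.li, ed, Phi, inner_sub_left,
    inner_sub_right, real_inner_smul_left, real_inner_smul_right, hx1, hx2, hy1, hy2,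
    real_inner_comm x y, real_inner_comm (q.2.1 i) (q.2.1 j), real_inner_comm (q.2.1 i) (q.2.1 k)]
  field_simp
  ring

lemma orth2 {a b c d : ℝ} (h1 : a ^ 2 + b ^ 2 = 1) (h2 : c ^ 2 + d ^ 2 = 1)
    (h3 : a * c + b * d = 0) (h4 : b ≠ c) : d = a ∧ c = -b := by
  have e1 : ((a - d) ^ 2 + (b + c) ^ 2) * ((a + d) ^ 2 + (b - c) ^ 2) = 0 := by
    have : (a * d - b * c) ^ 2 = 1 := by
      linear_combination (c ^ 2 + d ^ 2) * h1 + h2 - (a * c + b * d) * h3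
    have e2 : (a - d) ^ 2 + (b + c) ^ 2 = 2 - 2 * (a * d - b * c) := by linear_combination h1 + h2
    have e3 : (a + d) ^ 2 + (b - c) ^ 2 = 2 + 2 * (a * d - b * c) := by linear_combination h1 + h2
    rw [e2, e3]
    linear_combination -4 * this
  have e4 : 0 < (a + d) ^ 2 + (b - c) ^ 2 := by
    have := sq_pos_of_ne_zero (sub_ne_zero.2 h4)
    positivity
  have e5 := (mul_eq_zero.1 e1).resolve_right e4.ne'
  constructor <;> nlinarith [sq_nonneg (a - d), sq_nonneg (b + c)]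

lemma rot_alg {C S a1 b1 c1 a2 b2 c2 : ℝ} (h : C ^ 2 + S ^ 2 = 1) (hS : S ≠ 0)
    (e1 : C ^ 2 * a1 + 2 * C * S * b1 + S ^ 2 * c1 = a1 + 4 * (a2 - a1))
    (e2 : -C * S * a1 + (C ^ 2 - S ^ 2) * b1 + C * S * c1 = b1 + 4 * (b2 - b1))
    (e3 : S ^ 2 * a1 - 2 * C * S * b1 + C ^ 2 * c1 = c1 + 4 * (c2 - c1))
    (f1 : C ^ 2 * a2 + 2 * C * S * b2 + S ^ 2 * c2 = a2 + 4 * (a2 - a1))
    (f2 : -C * S * a2 + (C ^ 2 - S ^ 2) * b2 + C * S * c2 = b2 + 4 * (b2 - b1)) :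
    b1 = 0 ∧ a1 = c1 := by
  have t : c2 - c1 = -(a2 - a1) := by linear_combination -(1 / 4) * (e1 + e3) + (a1 + c1) / 4 * h
  have u1 : -S * (a2 - a1) + C * (b2 - b1) = 0 := by
    apply mul_left_cancel₀ (mul_ne_zero two_ne_zero hS)
    linear_combination f1 - e1 - S ^ 2 * t - (a2 - a1) * h
  have u2 : C * (a2 - a1) + S * (b2 - b1) = 0 := by
    apply mul_left_cancel₀ (mul_ne_zero two_ne_zero hS)
    linear_combination e2 - f2 + C * S * t + (b2 - b1) * h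
  have v1 : a2 - a1 = 0 := by linear_combination -S * u1 + C * u2 - (a2 - a1) * h
  have v2 : b2 - b1 = 0 := by linear_combination C * u1 + S * u2 - (b2 - b1) * h
  have w1 : -S * (a1 - c1) + 2 * C * b1 = 0 := by
    apply mul_left_cancel₀ hS
    linear_combination e1 + 4 * v1 - a1 * h
  have w2 : C * (a1 - c1) + 2 * S * b1 = 0 := by
    apply mul_left_cancel₀ hS
    linear_combination -e2 - 4 * v2 + b1 * h
  constructor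
  · linear_combination (C * w1 + S * w2) / 2 - b1 * h
  · linear_combination -S * w1 + C * w2 - (a1 - c1) * h

/-- the holonomy is a rotation in the plane spanned by `u i + u j` and `n` -/
structure RotD (g : E → E) (q : Cfg E) (i j k l : Fin 4) (n : E) (C S : ℝ) : Prop where
  n1 : ⟪q.2.1 i, n⟫ = 0
  n2 : ⟪q.2.1 j, n⟫ = 0
  nn : ⟪n, n⟫ = (1 + ⟪q.2.1 i, q.2.1 j⟫) * (1 - ⟪q.2.1 i, q.2.1 j⟫)
  S0 : S ≠ 0
  CS : C ^ 2 + S ^ 2 = 1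
  hW : Hol g q i j k l (q.2.1 i + q.2.1 j) = C • (q.2.1 i + q.2.1 j) + S • n
  hn : Hol g q i j k l n = (-S) • (q.2.1 i + q.2.1 j) + C • n
  hr : ∀ r, ⟪q.2.1 i, r⟫ = 0 → ⟪q.2.1 j, r⟫ = 0 → ⟪n, r⟫ = 0 → Hol g q i j k l r = r

lemma Bil.edWW {q : Cfg E} (hb : Bil f g q) (i j : Fin 4) :
    ed (q.2.1 i) (q.2.1 i + q.2.1 j) (q.2.1 i + q.2.1 j)
      = (1 + ⟪q.2.1 i, q.2.1 j⟫) * (1 - ⟪q.2.1 i, q.2.1 j⟫) := by
  rw [ed, hb.WW, inner_add_right, hb.n]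
  ring

variable [FiniteDimensional ℝ E]

theorem exists_rot {q : Cfg E} (hb : Bil f g q) (hz : NZ q) (hnp : NP q) {i j k l : Fin 4}
    (c : Cyc i j k l) (hΦ : Phi q i j k l ≠ 0) : ∃ n C S, RotD g q i j k l n C S := by
  have g2 := hb.gam_pos c.ij
  have g3 := hb.one_add_pos hz c.ij
  have hA := mul_pos g3 g2
  have hWW := hb.edWW i j
  obtain ⟨n, α, β, γ, n1, n2, nn, hγ, hk⟩ : ∃ (n : E) (α β γ : ℝ), ⟪q.2.1 i, n⟫ = 0 ∧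
      ⟪q.2.1 j, n⟫ = 0 ∧ ⟪n, n⟫ = (1 + ⟪q.2.1 i, q.2.1 j⟫) * (1 - ⟪q.2.1 i, q.2.1 j⟫) ∧ γ ≠ 0 ∧
      q.2.1 k = α • q.2.1 i + β • q.2.1 j + γ • n := by
    obtain ⟨α, hα⟩ : ∃ α, α = (⟪q.2.1 i, q.2.1 k⟫ - ⟪q.2.1 i, q.2.1 j⟫ * ⟪q.2.1 j, q.2.1 k⟫)
      / ((1 + ⟪q.2.1 i, q.2.1 j⟫) * (1 - ⟪q.2.1 i, q.2.1 j⟫)) := ⟨_, rfl⟩
    obtain ⟨β, hβ⟩ : ∃ β, β = (⟪q.2.1 j, q.2.1 k⟫ - ⟪q.2.1 i, q.2.1 j⟫ * ⟪q.2.1 i, q.2.1 k⟫)
      / ((1 + ⟪q.2.1 i, q.2.1 j⟫) * (1 - ⟪q.2.1 i, q.2.1 j⟫)) := ⟨_, rfl⟩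
    obtain ⟨m, hm⟩ : ∃ m, m = q.2.1 k - α • q.2.1 i - β • q.2.1 j := ⟨_, rfl⟩
    have m0 : m ≠ 0 := fun h => hnp i j k c.ij c.jk ⟨α, β, by
      linear_combination (norm := module) h - hm⟩
    have m1 : ⟪q.2.1 i, m⟫ = 0 := by
      rw [hm, inner_sub_right, inner_sub_right, real_inner_smul_right, real_inner_smul_right,
        hb.n, hα, hβ]
      field_simp
      ring
    have m2 : ⟪q.2.1 j, m⟫ = 0 := by
      rw [hm, inner_sub_right, inner_sub_right, real_inner_smul_right, real_inner_smul_right,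
        hb.n, hα, hβ, real_inner_comm (q.2.1 i)]
      field_simp
      ring
    have mm := real_inner_self_pos.2 m0
    obtain ⟨t, ht0, ht⟩ : ∃ t : ℝ, t ≠ 0 ∧
        t * t * ⟪m, m⟫ = (1 + ⟪q.2.1 i, q.2.1 j⟫) * (1 - ⟪q.2.1 i, q.2.1 j⟫) := by
      refine ⟨√(((1 + ⟪q.2.1 i, q.2.1 j⟫) * (1 - ⟪q.2.1 i, q.2.1 j⟫)) / ⟪m, m⟫),
        (Real.sqrt_pos.2 (div_pos hA mm)).ne', ?_⟩
      rw [Real.mul_self_sqrt (div_pos hA mm).le, div_mul_cancel₀ _ mm.ne']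
    refine ⟨t • m, α, β, t⁻¹, by rw [real_inner_smul_right, m1, mul_zero],
      by rw [real_inner_smul_right, m2, mul_zero],
      by rw [real_inner_smul_right, real_inner_smul_left, ← ht, mul_assoc], inv_ne_zero ht0, ?_⟩
    rw [smul_smul, inv_mul_cancel₀ ht0, hm]
    module
  have hkr : ∀ r, ⟪q.2.1 i, r⟫ = 0 → ⟪q.2.1 j, r⟫ = 0 → ⟪n, r⟫ = 0 →
      ⟪q.2.1 k, r⟫ = 0 ∧ ⟪q.2.1 l, r⟫ = 0 := fun r h1 h2 h3 => by
    have a1 : ⟪q.2.1 k, r⟫ = 0 := by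
      rw [hk]
      simp only [inner_add_left, real_inner_smul_left, h1, h2, h3]
      ring
    have a2 := hb.clos c r
    rw [h1, h2, a1] at a2
    exact ⟨a1, (mul_eq_zero.1 (by linarith : q.2.2.1 l * ⟪q.2.1 l, r⟫ = 0)).resolve_left
      (hb.Lp l).ne'⟩
  have dec : ∀ y, (∀ r, ⟪q.2.1 i, r⟫ = 0 → ⟪q.2.1 j, r⟫ = 0 → ⟪n, r⟫ = 0 → ⟪y, r⟫ = 0) →
      ∃ a b : ℝ, Hol g q i j k l y = a • (q.2.1 i + q.2.1 j) + b • n := fun y hy => by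
    obtain ⟨a, a', b, e⟩ : ∃ a a' b : ℝ,
        Hol g q i j k l y = a • q.2.1 i + a' • q.2.1 j + b • n := by
      refine span3 fun r h1 h2 h3 => ?_
      obtain ⟨h4, h5⟩ := hkr r h1 h2 h3
      rw [Hol, sg_orth _ _ h2, sg_orth _ _ h4, sg_orth _ _ h5, sg_orth _ _ h1, hy r h1 h2 h3]
    have a1 := hb.tan_eq c.ij (hb.sg_tan j (sg g q k (sg g q l (sg g q i y))))
    rw [← Hol, e] at a1
    simp only [inner_add_right, real_inner_smul_right, hb.n, n1, n2,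
      real_inner_comm (q.2.1 i) (q.2.1 j)] at a1
    have a2 : a' = a := by
      apply mul_left_cancel₀ g2.ne'
      linarith
    exact ⟨a, b, by rw [e, a2, smul_add]⟩
  obtain ⟨a11, a21, hW⟩ := dec (q.2.1 i + q.2.1 j) fun r h1 h2 _ => by
    rw [inner_add_left, h1, h2, add_zero]
  obtain ⟨a12, a22, hn⟩ := dec n fun r _ _ h3 => h3
  have eWn : ed (q.2.1 i) (q.2.1 i + q.2.1 j) n = 0 := by
    rw [ed, inner_add_left, n1, n2]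
    ring
  have enW : ed (q.2.1 i) n (q.2.1 i + q.2.1 j) = 0 := by rw [ed_comm, eWn]
  have enn : ed (q.2.1 i) n n = (1 + ⟪q.2.1 i, q.2.1 j⟫) * (1 - ⟪q.2.1 i, q.2.1 j⟫) := by
    rw [ed, n1, nn]
    ring
  have uW : ⟪q.2.1 i, q.2.1 i + q.2.1 j⟫ = 1 + ⟪q.2.1 i, q.2.1 j⟫ := by
    rw [inner_add_right, hb.n]
  have uW' : ⟪q.2.1 j, q.2.1 i + q.2.1 j⟫ = 1 + ⟪q.2.1 i, q.2.1 j⟫ := by
    rw [inner_add_right, hb.n, real_inner_comm, add_comm]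
  have kn : ⟪q.2.1 k, n⟫ ≠ 0 := by
    rw [hk]
    simp only [inner_add_left, real_inner_smul_left, n1, n2, nn]
    simpa using ⟨hγ, g3.ne', g2.ne'⟩
  have cn := hb.clos c n
  rw [n1, n2] at cn
  have ln : ⟪q.2.1 l, n⟫ ≠ 0 := fun h => by
    rw [h] at cn
    exact mul_ne_zero (hb.Lp k).ne' kn (by linarith)
  have i1 := hb.ed_Hol c (q.2.1 i + q.2.1 j) (q.2.1 i + q.2.1 j)
  have i2 := hb.ed_Hol c n n
  have i3 := hb.ed_Hol c (q.2.1 i + q.2.1 j) n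
  have hne : a21 ≠ a12 := by
    intro he
    have cW := hb.clos c (q.2.1 i + q.2.1 j)
    have sk := hb.hol_skew c
      (x := ⟪q.2.1 k, n⟫ • (q.2.1 i + q.2.1 j)
        + (1 + ⟪q.2.1 i, q.2.1 j⟫ - ⟪q.2.1 k, q.2.1 i + q.2.1 j⟫) • n)
      (y := ⟪q.2.1 l, n⟫ • (q.2.1 i + q.2.1 j)
        + (1 + ⟪q.2.1 i, q.2.1 j⟫ - ⟪q.2.1 l, q.2.1 i + q.2.1 j⟫) • n)
    rw [uW, uW'] at cW
    rw [Hol_lin, Hol_lin, hW, hn] at sk
    generalize q.2.1 i + q.2.1 j = W at *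
    simp only [inner_add_right, real_inner_smul_right, uW, uW', n1, n2, ed_add_left, ed_add_right,
      ed_smul_left, ed_smul_right, hWW, eWn, enW, enn, he] at sk
    have sk2 := sk trivial (by ring) trivial (by ring)
    have hL := add_pos (add_pos (add_pos (hb.Lp i) (hb.Lp j)) (hb.Lp k)) (hb.Lp l)
    have p1 : q.2.2.1 l * (⟪q.2.1 k, n⟫ * (1 + ⟪q.2.1 i, q.2.1 j⟫)
        + (1 + ⟪q.2.1 i, q.2.1 j⟫ - ⟪q.2.1 k, W⟫) * 0 - (⟪q.2.1 k, n⟫ * ⟪q.2.1 l, W⟫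
        + (1 + ⟪q.2.1 i, q.2.1 j⟫ - ⟪q.2.1 k, W⟫) * ⟪q.2.1 l, n⟫))
        = (q.2.2.1 i + q.2.2.1 j + q.2.2.1 k + q.2.2.1 l) * ⟪q.2.1 k, n⟫
          * (1 + ⟪q.2.1 i, q.2.1 j⟫) := by
      linear_combination -⟪q.2.1 k, n⟫ * cW - (1 + ⟪q.2.1 i, q.2.1 j⟫ - ⟪q.2.1 k, W⟫) * cn
    have p2 : q.2.2.1 k * (⟪q.2.1 l, n⟫ * ⟪q.2.1 k, W⟫
        + (1 + ⟪q.2.1 i, q.2.1 j⟫ - ⟪q.2.1 l, W⟫) * ⟪q.2.1 k, n⟫ - (⟪q.2.1 l, n⟫
        * (1 + ⟪q.2.1 i, q.2.1 j⟫) + (1 + ⟪q.2.1 i, q.2.1 j⟫ - ⟪q.2.1 l, W⟫) * 0))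
        = -((q.2.2.1 i + q.2.2.1 j + q.2.2.1 k + q.2.2.1 l) * ⟪q.2.1 l, n⟫
          * (1 + ⟪q.2.1 i, q.2.1 j⟫)) := by
      linear_combination ⟪q.2.1 l, n⟫ * cW + (1 + ⟪q.2.1 i, q.2.1 j⟫ - ⟪q.2.1 l, W⟫) * cn
    have q1 := right_ne_zero_of_mul (p1 ▸ mul_ne_zero (mul_ne_zero hL.ne' kn) g3.ne')
    have q2 := right_ne_zero_of_mul
      (p2 ▸ neg_ne_zero.2 (mul_ne_zero (mul_ne_zero hL.ne' ln) g3.ne'))
    refine mul_ne_zero (mul_ne_zero q1 q2) hΦ ?_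
    rw [← sk2]
    ring
  rw [hW] at i1 i3
  rw [hn] at i2 i3
  simp only [ed_add_left _ (_ • (q.2.1 i + q.2.1 j)), ed_add_right _ _ (_ • (q.2.1 i + q.2.1 j)),
    ed_smul_left, ed_smul_right, hWW, eWn, enW, enn] at i1 i2 i3
  have j1 : a11 ^ 2 + a21 ^ 2 = 1 := by
    apply mul_left_cancel₀ hA.ne'
    linear_combination i1
  have j2 : a12 ^ 2 + a22 ^ 2 = 1 := by
    apply mul_left_cancel₀ hA.ne'
    linear_combination i2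
  have j3 : a11 * a12 + a21 * a22 = 0 := by
    apply mul_left_cancel₀ hA.ne'
    linear_combination i3
  obtain ⟨rfl, rfl⟩ := orth2 j1 j2 j3 hne
  refine ⟨n, a22, a21, n1, n2, nn, fun h => hne (by rw [h, neg_zero]), j1, hW, hn,
    fun r h1 h2 h3 => ?_⟩
  obtain ⟨h4, h5⟩ := hkr r h1 h2 h3
  rw [Hol, hb.sg_fix c.li h5 h1, hb.sg_fix c.kl h4 h5, hb.sg_fix c.jk h2 h4, hb.sg_fix c.ij h1 h2]

end Pool.Agent.MP_249f74_an.H69
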