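import Pool.Agent.MP_249f74_an.H69.Tangent

/-!
Billiard quadrilaterals, their linearised equations and point-source variations.
-/

open Set Module
open scoped RealInnerProductSpace ENNReal

namespace Pool.Agent.MP_249f74_an.H69

variable {E : Type*} [NormedAddCommGroup E] [InnerProductSpace ℝ E]

/-- vertices, directions, lengths, reflection coefficients -/
abbrev Cfg (E : Type*) := (Fin 4 → E) × (Fin 4 → E) × (Fin 4 → ℝ) × (Fin 4 → ℝ)

/-- boundary data: function, gradient, Hessian -/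
structure Bd (f : E → ℝ) (g : E → E) (G : E → E →L[ℝ] E) : Prop where
  hf : ∀ x, HasFDerivAt f (innerSL ℝ (g x)) x
  hg : ∀ x, HasFDerivAt g (G x) x
  hG : ∀ x, DifferentiableAt ℝ G x
  symm : ∀ x a b, ⟪G x a, b⟫ = ⟪G x b, a⟫

/-- billiard quadrilateral -/
structure Bil (f : E → ℝ) (g : E → E) (q : Cfg E) : Prop where
  z : ∀ i, f (q.1 i) = 0
  e : ∀ i j, j = i + 1 → q.1 j = q.1 i + q.2.2.1 i • q.2.1 i
  n : ∀ i, ⟪q.2.1 i, q.2.1 i⟫ = 1
  r : ∀ i j, j = i + 1 → q.2.1 j - q.2.1 i = q.2.2.2 j • g (q.1 j)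
  Lp : ∀ i, 0 < q.2.2.1 i
  t : ∀ i, ⟪g (q.1 i), q.2.1 i⟫ < 0
  an : ∀ i, q.2.2.2 i < 0

/-- linearised equations -/
structure Lin (g : E → E) (G : E → E →L[ℝ] E) (q v : Cfg E) : Prop where
  z : ∀ i, ⟪g (q.1 i), v.1 i⟫ = 0
  e : ∀ i j, j = i + 1 → v.1 j = v.1 i + q.2.2.1 i • v.2.1 i + v.2.2.1 i • q.2.1 i
  n : ∀ i, ⟪q.2.1 i, v.2.1 i⟫ = 0
  r : ∀ i j, j = i + 1 →
    v.2.1 j - v.2.1 i = q.2.2.2 j • G (q.1 j) (v.1 j) + v.2.2.2 j • g (q.1 j)

/-- projection along `u` onto the hyperplane orthogonal to `n` -/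
noncomputable def pr (n u η : E) : E := η - (⟪n, η⟫ / ⟪n, u⟫) • u

/-- the form `⟪a, b⟫ - ⟪u, a⟫ ⟪u, b⟫` -/
noncomputable def ed (u a b : E) : ℝ := ⟪a, b⟫ - ⟪u, a⟫ * ⟪u, b⟫

lemma inner_pr {n u : E} (h : ⟪n, u⟫ ≠ 0) (η : E) : ⟪n, pr n u η⟫ = 0 := by
  simp only [pr, inner_sub_right, real_inner_smul_right]
  field_simp
  ring

lemma pr_of_zero {n η : E} (u : E) (h : ⟪n, η⟫ = 0) : pr n u η = η := by
  simp [pr, h]

lemma pr_add (n u a b : E) : pr n u (a + b) = pr n u a + pr n u b := by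
  simp only [pr, inner_add_right, add_div, add_smul]
  abel

lemma pr_smul (n u : E) (c : ℝ) (a : E) : pr n u (c • a) = c • pr n u a := by
  simp only [pr, real_inner_smul_right, smul_sub, smul_smul, mul_div_assoc]

lemma pr_self {n u : E} (h : ⟪n, u⟫ ≠ 0) : pr n u u = 0 := by
  simp [pr, div_self h]

lemma pr_pr {n n' u η : E} (h : ⟪n, u⟫ ≠ 0) (h0 : ⟪n, η⟫ = 0) : pr n u (pr n' u η) = η := by
  have : pr n' u η = η + (-(⟪n', η⟫ / ⟪n', u⟫)) • u := by
    simp [pr, sub_eq_add_neg]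
  rw [this, pr_add, pr_smul, pr_self h, pr_of_zero u h0]
  simp

lemma pr_smul_left {c : ℝ} (hc : c ≠ 0) (n u η : E) : pr (c • n) u η = pr n u η := by
  simp only [pr, real_inner_smul_left, mul_div_mul_left _ _ hc]

lemma ed_comm (u a b : E) : ed u a b = ed u b a := by
  simp only [ed, real_inner_comm a b]
  ring

lemma ed_pr_left {u : E} (hu : ⟪u, u⟫ = 1) (n a b : E) : ed u (pr n u a) b = ed u a b := by
  simp only [ed, pr, inner_sub_left, inner_sub_right, real_inner_smul_left, real_inner_smul_right,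
    hu]
  ring

lemma ed_pr_right {u : E} (hu : ⟪u, u⟫ = 1) (n a b : E) : ed u a (pr n u b) = ed u a b := by
  rw [ed_comm, ed_pr_left hu, ed_comm]

lemma ed_add_left (u a a' b : E) : ed u (a + a') b = ed u a b + ed u a' b := by
  simp only [ed, inner_add_left, inner_add_right]
  ring

lemma ed_smul_left (u : E) (c : ℝ) (a b : E) : ed u (c • a) b = c * ed u a b := by
  simp only [ed, real_inner_smul_left, real_inner_smul_right]
  ring

lemma ed_add_right (u a b b' : E) : ed u a (b + b') = ed u a b + ed u a b' := by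
  simp only [ed, inner_add_right]
  ring

lemma ed_smul_right (u : E) (c : ℝ) (a b : E) : ed u a (c • b) = c * ed u a b := by
  simp only [ed, real_inner_smul_right]
  ring

section Coord

variable {q v : Cfg E}

lemma dir_x (i : Fin 4) : Dir (fun q : Cfg E => q.1 i) q v (v.1 i) := by
  let A : Cfg E →L[ℝ] E := (ContinuousLinearMap.proj i).comp (ContinuousLinearMap.fst ℝ _ _)
  exact Dir.clm A

lemma dir_u (i : Fin 4) : Dir (fun q : Cfg E => q.2.1 i) q v (v.2.1 i) := by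
  let A : Cfg E →L[ℝ] E := (ContinuousLinearMap.proj i).comp
    ((ContinuousLinearMap.fst ℝ _ _).comp (ContinuousLinearMap.snd ℝ _ _))
  exact Dir.clm A

lemma dir_L (i : Fin 4) : Dir (fun q : Cfg E => q.2.2.1 i) q v (v.2.2.1 i) := by
  let A : Cfg E →L[ℝ] ℝ := (ContinuousLinearMap.proj i).comp ((ContinuousLinearMap.fst ℝ _ _).comp
    ((ContinuousLinearMap.snd ℝ _ _).comp (ContinuousLinearMap.snd ℝ _ _)))
  exact Dir.clm A

lemma dir_a (i : Fin 4) : Dir (fun q : Cfg E => q.2.2.2 i) q v (v.2.2.2 i) := by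
  let A : Cfg E →L[ℝ] ℝ := (ContinuousLinearMap.proj i).comp ((ContinuousLinearMap.snd ℝ _ _).comp
    ((ContinuousLinearMap.snd ℝ _ _).comp (ContinuousLinearMap.snd ℝ _ _)))
  exact Dir.clm A

variable {f : E → ℝ} {g : E → E} {G : E → E →L[ℝ] E}

lemma dir_g (hB : Bd f g G) (i : Fin 4) :
    Dir (fun q : Cfg E => g (q.1 i)) q v (G (q.1 i) (v.1 i)) :=
  (dir_x i).comp (hB.hg _)

lemma dir_g0 (hB : Bd f g G) {i : Fin 4} (h : v.1 i = 0) :
    Dir (fun q : Cfg E => g (q.1 i)) q v 0 :=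
  (dir_g hB i).congr (by rw [h, map_zero])

lemma dir_G0 (hB : Bd f g G) {i : Fin 4} (h : v.1 i = 0) {y : Cfg E → E} {y' : E}
    (hy : Dir y q v y') : Dir (fun q : Cfg E => G (q.1 i) (y q)) q v (G (q.1 i) y') := by
  have h1 : Dir (fun q : Cfg E => G (q.1 i)) q v 0 :=
    ((dir_x i).congr h).comp_zero (hB.hG _)
  exact (h1.app hy).congr (by simp)

lemma dir_G (hB : Bd f g G) (i : Fin 4) {y : Cfg E → E} {y' : E}
    (hy : Dir y q v y') : ∃ z, Dir (fun q : Cfg E => G (q.1 i) (y q)) q v z := by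
  obtain ⟨Y, hY⟩ : ∃ Y, Dir (fun q : Cfg E => G (q.1 i)) q v Y :=
    ⟨_, (dir_x i).comp (hB.hG _).hasFDerivAt⟩
  exact ⟨_, hY.app hy⟩

end Coord

namespace Bil

variable {f : E → ℝ} {g : E → E} {q : Cfg E}

lemma gu_ne (h : Bil f g q) (i : Fin 4) : ⟪g (q.1 i), q.2.1 i⟫ ≠ 0 := (h.t i).ne

lemma gu_prev (h : Bil f g q) {i j : Fin 4} (e : j = i + 1) :
    ⟪g (q.1 j), q.2.1 i⟫ = -⟪g (q.1 j), q.2.1 j⟫ := by
  have h1 : ⟪q.2.1 j - q.2.1 i, q.2.1 j + q.2.1 i⟫ = 0 := by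
    simp only [inner_sub_left, inner_add_right, h.n, real_inner_comm (q.2.1 i) (q.2.1 j)]
    ring
  rw [h.r i j e, real_inner_smul_left, inner_add_right] at h1
  have := (mul_eq_zero.1 h1).resolve_left (h.an j).ne
  linarith

lemma gu_prev_pos (h : Bil f g q) {i j : Fin 4} (e : j = i + 1) :
    0 < ⟪g (q.1 j), q.2.1 i⟫ := by
  rw [h.gu_prev e]
  linarith [h.t j]

lemma gam_eq (h : Bil f g q) {i j : Fin 4} (e : j = i + 1) :
    1 - ⟪q.2.1 i, q.2.1 j⟫ = q.2.2.2 j * ⟪g (q.1 j), q.2.1 j⟫ := by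
  rw [← real_inner_smul_left, ← h.r i j e, inner_sub_left, h.n]

lemma gam_pos (h : Bil f g q) {i j : Fin 4} (e : j = i + 1) : 0 < 1 - ⟪q.2.1 i, q.2.1 j⟫ := by
  rw [h.gam_eq e]
  exact mul_pos_of_neg_of_neg (h.an j) (h.t j)

lemma gW (h : Bil f g q) {i j : Fin 4} (e : j = i + 1) :
    ⟪g (q.1 j), q.2.1 i + q.2.1 j⟫ = 0 := by
  rw [inner_add_right, h.gu_prev e]
  ring

lemma tan_eq (h : Bil f g q) {i j : Fin 4} (e : j = i + 1) {θ : E} (hθ : ⟪g (q.1 j), θ⟫ = 0) :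
    ⟪q.2.1 j, θ⟫ = ⟪q.2.1 i, θ⟫ := by
  have : ⟪q.2.1 j - q.2.1 i, θ⟫ = 0 := by rw [h.r i j e, real_inner_smul_left, hθ, mul_zero]
  rw [inner_sub_left] at this
  linarith

lemma tan_iff (h : Bil f g q) {i j : Fin 4} (e : j = i + 1) {θ : E} :
    ⟪g (q.1 j), θ⟫ = 0 ↔ ⟪q.2.1 j - q.2.1 i, θ⟫ = 0 := by
  rw [h.r i j e, real_inner_smul_left, mul_eq_zero]
  simp [(h.an j).ne]

lemma pr_eq (h : Bil f g q) {i j : Fin 4} (e : j = i + 1) (u η : E) :
    pr (g (q.1 j)) u η = pr (q.2.1 j - q.2.1 i) u η := by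
  rw [h.r i j e, pr_smul_left (h.an j).ne]

lemma ed_eq (h : Bil f g q) {i j : Fin 4} (e : j = i + 1) {a b : E} (ha : ⟪g (q.1 j), a⟫ = 0)
    (hb : ⟪g (q.1 j), b⟫ = 0) : ed (q.2.1 j) a b = ed (q.2.1 i) a b := by
  simp only [ed, h.tan_eq e ha, h.tan_eq e hb]

lemma gg_pos (h : Bil f g q) (i : Fin 4) : 0 < ⟪g (q.1 i), g (q.1 i)⟫ := by
  refine real_inner_self_pos.2 fun h0 => ?_
  have := h.t i
  rw [h0, inner_zero_left] at this
  exact lt_irrefl _ this

end Bil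

/-- four cyclically consecutive indices -/
structure Cyc (i j k l : Fin 4) : Prop where
  ij : j = i + 1
  jk : k = j + 1
  kl : l = k + 1
  li : i = l + 1

lemma Cyc.rot {i j k l : Fin 4} (h : Cyc i j k l) : Cyc j k l i := ⟨h.jk, h.kl, h.li, h.ij⟩

lemma cyc_of (i : Fin 4) : Cyc i (i + 1) (i + 1 + 1) (i + 1 + 1 + 1) :=
  ⟨rfl, rfl, rfl, by revert i; decide⟩

lemma Cyc.cover {i j k l : Fin 4} (h : Cyc i j k l) (m : Fin 4) :
    m = i ∨ m = j ∨ m = k ∨ m = l := by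
  obtain ⟨rfl, rfl, rfl, -⟩ := h
  revert i m
  decide

lemma Bil.closure {f : E → ℝ} {g : E → E} {q : Cfg E} (h : Bil f g q) {i j k l : Fin 4}
    (c : Cyc i j k l) : q.2.2.1 i • q.2.1 i + q.2.2.1 j • q.2.1 j + q.2.2.1 k • q.2.1 k
      + q.2.2.1 l • q.2.1 l = 0 := by
  have h1 := h.e i j c.ij
  have h2 := h.e j k c.jk
  have h3 := h.e k l c.kl
  have h4 := h.e l i c.li
  rw [h3, h2, h1] at h4
  linear_combination (norm := module) -h4

variable [FiniteDimensional ℝ E] {f : E → ℝ} {g : E → E} {G : E → E →L[ℝ] E}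

lemma lin_of_tan (hB : Bd f g G) {S : Set (Cfg E)} (hS : ∀ q ∈ S, Bil f g q) {q v : Cfg E}
    (hq : q ∈ S) (hv : v ∈ Tan S q) : Lin g G q v where
  z i := by
    have := ((dir_x i).comp (hB.hf _)).eq_zero hq hv fun x hx => (hS x hx).z i
    simpa using this
  e i j e := by
    have := ((dir_x j).sub ((dir_x i).add ((dir_L i).smul (dir_u i)))).eq_zero hq hv
      fun x hx => sub_eq_zero.2 ((hS x hx).e i j e)
    rw [sub_eq_zero] at this
    rw [this, add_assoc]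
  n i := by
    have := (((dir_u i).inner (dir_u i)).sub (Dir.const 1)).eq_zero hq hv
      fun x hx => sub_eq_zero.2 ((hS x hx).n i)
    rw [real_inner_comm (q.2.1 i) (v.2.1 i)] at this
    linarith
  r i j e := by
    have := (((dir_u j).sub (dir_u i)).sub ((dir_a j).smul (dir_g hB j))).eq_zero hq hv
      fun x hx => sub_eq_zero.2 ((hS x hx).r i j e)
    exact sub_eq_zero.1 this

omit [FiniteDimensional ℝ E] in
lemma Lin.step {q v : Cfg E} (h : Bil f g q) (hl : Lin g G q v) {i j : Fin 4} (e : j = i + 1)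
    (h1 : v.1 i = 0) (h2 : v.2.1 i = 0) :
    v.1 j = 0 ∧ v.2.1 j = 0 ∧ v.2.2.1 i = 0 ∧ v.2.2.2 j = 0 := by
  have a1 := hl.e i j e
  rw [h1, h2, smul_zero, zero_add, zero_add] at a1
  have a2 := hl.z j
  rw [a1, real_inner_smul_right] at a2
  have a3 : v.2.2.1 i = 0 := (mul_eq_zero.1 a2).resolve_right (h.gu_prev_pos e).ne'
  have a4 : v.1 j = 0 := by rw [a1, a3, zero_smul]
  have a5 := hl.r i j e
  rw [h2, a4, map_zero, smul_zero, zero_add, sub_zero] at a5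
  have a6 := hl.n j
  rw [a5, real_inner_smul_right, real_inner_comm] at a6
  have a7 : v.2.2.2 j = 0 := (mul_eq_zero.1 a6).resolve_right (h.gu_ne j)
  exact ⟨a4, by rw [a5, a7, zero_smul], a3, a7⟩

/-- the tangent space contains all point-source variations -/
def Full (S : Set (Cfg E)) (q : Cfg E) : Prop :=
  ∀ i p, ⟪q.2.1 i, p⟫ = 0 → ∃ v ∈ Tan S q, v.1 i = 0 ∧ v.2.1 i = p

lemma finrank_orth {a : E} (ha : a ≠ 0) : finrank ℝ (ℝ ∙ a)ᗮ + 1 = finrank ℝ E := by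
  have := Submodule.finrank_add_finrank_orthogonal (ℝ ∙ a)
  rw [finrank_span_singleton ha] at this
  omega

lemma full_of_finrank (hB : Bd f g G) {S : Set (Cfg E)} (hS : ∀ q ∈ S, Bil f g q) {q : Cfg E}
    (hq : q ∈ S) (hr : 2 * finrank ℝ E - 3 < finrank ℝ (Tan S q)) : Full S q := by
  intro i p hp
  have hb := hS q hq
  have hg0 : g (q.1 i) ≠ 0 := fun h0 => by
    have := hb.t i
    rw [h0, inner_zero_left] at this
    exact lt_irrefl _ this
  have hu0 : q.2.1 i ≠ 0 := fun h0 => by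
    have := hb.n i
    rw [h0, inner_zero_left] at this
    exact zero_ne_one this
  let A : Cfg E →ₗ[ℝ] E := (LinearMap.proj i).comp (LinearMap.fst ℝ _ _)
  let B : Cfg E →ₗ[ℝ] E :=
    (LinearMap.proj i).comp ((LinearMap.fst ℝ _ _).comp (LinearMap.snd ℝ _ _))
  let A' : Tan S q →ₗ[ℝ] (ℝ ∙ g (q.1 i))ᗮ :=
    (A.domRestrict _).codRestrict _ fun v =>
      Submodule.mem_orthogonal_singleton_iff_inner_right.2 ((lin_of_tan hB hS hq v.2).z i)
  let B' : Tan S q →ₗ[ℝ] (ℝ ∙ q.2.1 i)ᗮ :=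
    (B.domRestrict _).codRestrict _ fun v =>
      Submodule.mem_orthogonal_singleton_iff_inner_right.2 ((lin_of_tan hB hS hq v.2).n i)
  have hinj : Function.Injective (A'.prod B') := by
    rw [← LinearMap.ker_eq_bot, LinearMap.ker_eq_bot']
    intro v hv
    have hl := lin_of_tan hB hS hq v.2
    have h1 : v.1.1 i = 0 := congrArg (fun z => (z.1 : E)) hv
    have h2 : v.1.2.1 i = 0 := congrArg (fun z => (z.2 : E)) hv
    have c := cyc_of i
    obtain ⟨a1, a2, a3, a4⟩ := hl.step hb c.ij h1 h2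
    obtain ⟨b1, b2, b3, b4⟩ := hl.step hb c.jk a1 a2
    obtain ⟨c1, c2, c3, c4⟩ := hl.step hb c.kl b1 b2
    obtain ⟨d1, d2, d3, d4⟩ := hl.step hb c.li c1 c2
    apply Subtype.ext
    refine Prod.ext ?_ (Prod.ext ?_ (Prod.ext ?_ ?_)) <;> funext m <;>
      rcases c.cover m with rfl | rfl | rfl | rfl <;> assumption
  have hsurj : Function.Surjective (A'.prod B') := by
    rw [← LinearMap.range_eq_top]
    apply Submodule.eq_top_of_finrank_eq
    have h1 := LinearMap.finrank_range_of_inj hinj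
    have h2 := Submodule.finrank_le (LinearMap.range (A'.prod B'))
    have h3 := finrank_orth hg0
    have h4 := finrank_orth hu0
    rw [Module.finrank_prod] at h2 ⊢
    omega
  obtain ⟨v, hv⟩ := hsurj (0, ⟨p, Submodule.mem_orthogonal_singleton_iff_inner_right.2 hp⟩)
  exact ⟨v, v.2, congrArg (fun z => (z.1 : E)) hv, congrArg (fun z => (z.2 : E)) hv⟩

/-- point-source variation at vertex `i` with parameter `θ` -/
structure Src (g : E → E) (G : E → E →L[ℝ] E) (q v : Cfg E) (h i j : Fin 4) (θ : E) : Prop where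
  lin : Lin g G q v
  x0 : v.1 i = 0
  pi : v.2.1 i = θ - ⟪q.2.1 i, θ⟫ • q.2.1 i
  ph : v.2.1 h = θ - ⟪q.2.1 h, θ⟫ • q.2.1 h
  xj : v.1 j = q.2.2.1 i • pr (g (q.1 j)) (q.2.1 i) θ
  xh : v.1 h = -q.2.2.1 h • pr (g (q.1 h)) (q.2.1 h) θ

lemma exists_src (hB : Bd f g G) {S : Set (Cfg E)} (hS : ∀ q ∈ S, Bil f g q) {q : Cfg E}
    (hq : q ∈ S) (hF : Full S q) {h i j : Fin 4} (e1 : i = h + 1) (e2 : j = i + 1) {θ : E}
    (hθ : ⟪g (q.1 i), θ⟫ = 0) : ∃ v ∈ Tan S q, Src g G q v h i j θ := by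
  have hb := hS q hq
  obtain ⟨v, hv, h1, h2⟩ := hF i (θ - ⟪q.2.1 i, θ⟫ • q.2.1 i) (by
    rw [inner_sub_right, real_inner_smul_right, hb.n]; ring)
  have hl := lin_of_tan hB hS hq hv
  have a1 := hl.r h i e1
  rw [h1, map_zero, smul_zero, zero_add, h2] at a1
  have a2 := hb.r h i e1
  have a3 := hb.tan_eq e1 hθ
  have a4 : v.2.1 h = θ - ⟪q.2.1 h, θ⟫ • q.2.1 h
      - (v.2.2.2 i + ⟪q.2.1 h, θ⟫ * q.2.2.2 i) • g (q.1 i) := by
    rw [a3] at a1
    linear_combination (norm := module) -a1 - ⟪q.2.1 h, θ⟫ • a2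
  have a5 := hl.n h
  rw [a4, inner_sub_right, inner_sub_right, real_inner_smul_right, real_inner_smul_right, hb.n,
    real_inner_comm (g (q.1 i))] at a5
  have a6 : v.2.2.2 i + ⟪q.2.1 h, θ⟫ * q.2.2.2 i = 0 := by
    have := (hb.gu_prev_pos e1).ne'
    apply (mul_eq_zero.1 (_ : _ * ⟪g (q.1 i), q.2.1 h⟫ = 0)).resolve_right this
    linarith
  rw [a6, zero_smul, sub_zero] at a4
  refine ⟨v, hv, hl, h1, h2, a4, ?_, ?_⟩
  · have b1 := hl.e i j e2
    have b2 := hl.z j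
    have b3 := (hb.gu_prev_pos e2).ne'
    rw [h1, h2] at b1
    rw [b1] at b2
    simp only [inner_add_right, inner_sub_right, real_inner_smul_right, inner_zero_right] at b2
    have b4 : v.2.2.1 i = q.2.2.1 i * ⟪q.2.1 i, θ⟫
        - q.2.2.1 i * (⟪g (q.1 j), θ⟫ / ⟪g (q.1 j), q.2.1 i⟫) := by
      field_simp
      linarith
    rw [b1, b4, pr]
    module
  · have b1 := hl.e h i e1
    have b2 := hl.z h
    have b3 := hb.gu_ne h
    rw [h1, a4] at b1
    have b0 : v.1 h = -(q.2.2.1 h • (θ - ⟪q.2.1 h, θ⟫ • q.2.1 h) + v.2.2.1 h • q.2.1 h) := by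
      linear_combination (norm := module) -b1
    rw [b0] at b2
    simp only [inner_add_right, inner_sub_right, real_inner_smul_right, inner_neg_right] at b2
    have b4 : v.2.2.1 h = q.2.2.1 h * ⟪q.2.1 h, θ⟫
        - q.2.2.1 h * (⟪g (q.1 h), θ⟫ / ⟪g (q.1 h), q.2.1 h⟫) := by
      field_simp
      linarith
    rw [b0, b4, pr]
    module

omit [FiniteDimensional ℝ E] in
lemma Lin.l_eq {q v : Cfg E} (h : Bil f g q) (hl : Lin g G q v) {i j : Fin 4} (e : j = i + 1) :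
    v.2.2.1 i = ⟪q.2.1 i, v.1 j⟫ - ⟪q.2.1 i, v.1 i⟫ := by
  rw [hl.e i j e]
  simp only [inner_add_right, real_inner_smul_right, hl.n, h.n]
  ring

omit [FiniteDimensional ℝ E] in
lemma Lin.p_eq {q v : Cfg E} (h : Bil f g q) (hl : Lin g G q v) {i j : Fin 4} (e : j = i + 1)
    (η : E) : q.2.2.1 i * ⟪v.2.1 i, η⟫ = ed (q.2.1 i) (v.1 j) η - ed (q.2.1 i) (v.1 i) η := by
  rw [hl.e i j e]
  simp only [ed, inner_add_right, inner_add_left, real_inner_smul_right, real_inner_smul_left,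
    hl.n, h.n]
  ring

omit [FiniteDimensional ℝ E] in
lemma Lin.jac {q v : Cfg E} (hl : Lin g G q v) {i j : Fin 4} (e : j = i + 1)
    {η : E} (hη : ⟪g (q.1 j), η⟫ = 0) :
    ⟪v.2.1 j, η⟫ - ⟪v.2.1 i, η⟫ = q.2.2.2 j * ⟪G (q.1 j) (v.1 j), η⟫ := by
  rw [← inner_sub_left, hl.r i j e, inner_add_left, real_inner_smul_left, real_inner_smul_left, hη]
  ring

/-- a property holds outside a set of Hausdorff dimension at most `2 d - 3` -/
def AE (f : E → ℝ) (g : E → E) (P : Cfg E → Prop) : Prop :=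
  dimH {q | Bil f g q ∧ ¬ P q} ≤ ((2 * finrank ℝ E - 3 : ℕ) : ℝ≥0∞)

omit [FiniteDimensional ℝ E] in
lemma AE.mono {P R : Cfg E → Prop} (h : AE f g P) (h' : ∀ q, Bil f g q → P q → R q) :
    AE f g R := by
  refine (dimH_mono ?_).trans h
  exact fun q hq => ⟨hq.1, fun hp => hq.2 (h' q hq.1 hp)⟩

omit [FiniteDimensional ℝ E] in
lemma AE.and {P R : Cfg E → Prop} (h : AE f g P) (h' : AE f g R) :
    AE f g fun q => P q ∧ R q := by
  refine (dimH_mono (t := {q | Bil f g q ∧ ¬ P q} ∪ {q | Bil f g q ∧ ¬ R q}) ?_).trans ?_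
  · rintro q ⟨h1, h2⟩
    by_cases hp : P q
    · exact Or.inr ⟨h1, fun hr => h2 ⟨hp, hr⟩⟩
    · exact Or.inl ⟨h1, hp⟩
  · rw [dimH_union]
    exact max_le h h'

omit [FiniteDimensional ℝ E] in
lemma AE.all {ι : Type*} [Countable ι] {P : ι → Cfg E → Prop} (h : ∀ i, AE f g (P i)) :
    AE f g fun q => ∀ i, P i q := by
  refine (dimH_mono (t := ⋃ i, {q | Bil f g q ∧ ¬ P i q}) ?_).trans ?_
  · rintro q ⟨h1, h2⟩
    push Not at h2
    obtain ⟨i, hi⟩ := h2
    exact mem_iUnion.2 ⟨i, h1, hi⟩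
  · rw [dimH_iUnion]
    exact iSup_le h

omit [FiniteDimensional ℝ E] in
lemma AE.of_forall {P : Cfg E → Prop} (h : ∀ q, Bil f g q → P q) : AE f g P := by
  have : {q | Bil f g q ∧ ¬ P q} = ∅ := eq_empty_of_forall_notMem fun q hq => hq.2 (h q hq.1)
  simp [AE, this]

/-- differentiate along the set where `C` holds -/
lemma AE.step (hB : Bd f g G) (C R : Cfg E → Prop)
    (h : ∀ (S : Set (Cfg E)) q, (∀ x ∈ S, Bil f g x) → (∀ x ∈ S, C x) → q ∈ S → Full S q →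
      R q) :
    AE f g fun q => C q → R q := by
  refine (dimH_mono ?_).trans (dimH_small_tangent {q | Bil f g q ∧ C q} _)
  rintro q ⟨h1, h2⟩
  rw [Classical.not_imp] at h2
  refine ⟨⟨h1, h2.1⟩, ?_⟩
  by_contra hlt
  exact h2.2 (h {q | Bil f g q ∧ C q} q (fun q hq => hq.1) (fun q hq => hq.2) ⟨h1, h2.1⟩
    (full_of_finrank hB (fun q hq => hq.1) ⟨h1, h2.1⟩ (not_le.1 hlt)))

end Pool.Agent.MP_249f74_an.H69
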