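import Pool.Agent.MP_249f74_an.H69.Setup

/-!
Linear algebra helpers, non-normal incidence, and umbilic mirrors.
-/

open Set Module
open scoped RealInnerProductSpace ENNReal

namespace Pool.Agent.MP_249f74_an.H69

variable {E : Type*} [NormedAddCommGroup E] [InnerProductSpace ℝ E] [FiniteDimensional ℝ E]

lemma mem_span_of_orth (s : Set E) {y : E} (h : ∀ n, (∀ a ∈ s, ⟪a, n⟫ = 0) → ⟪y, n⟫ = 0) :
    y ∈ Submodule.span ℝ s := by
  rw [← Submodule.orthogonal_orthogonal (Submodule.span ℝ s), Submodule.mem_orthogonal]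
  intro n hn
  rw [real_inner_comm]
  exact h n fun a ha => (Submodule.mem_orthogonal _ _).1 hn a (Submodule.subset_span ha)

lemma span1 {a y : E} (h : ∀ n, ⟪a, n⟫ = 0 → ⟪y, n⟫ = 0) : ∃ α : ℝ, y = α • a := by
  have := mem_span_of_orth {a} fun n hn => h n (hn a rfl)
  obtain ⟨α, e⟩ := Submodule.mem_span_singleton.1 this
  exact ⟨α, e.symm⟩

lemma span2 {a b y : E} (h : ∀ n, ⟪a, n⟫ = 0 → ⟪b, n⟫ = 0 → ⟪y, n⟫ = 0) :
    ∃ α β : ℝ, y = α • a + β • b := by
  have := mem_span_of_orth {a, b} fun n hn => h n (hn a (by simp)) (hn b (by simp))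
  obtain ⟨α, β, e⟩ := Submodule.mem_span_pair.1 this
  exact ⟨α, β, e.symm⟩

lemma span3 {a b c y : E} (h : ∀ n, ⟪a, n⟫ = 0 → ⟪b, n⟫ = 0 → ⟪c, n⟫ = 0 → ⟪y, n⟫ = 0) :
    ∃ α β γ : ℝ, y = α • a + β • b + γ • c := by
  have := mem_span_of_orth {a, b, c} fun n hn =>
    h n (hn a (by simp)) (hn b (by simp)) (hn c (by simp))
  obtain ⟨α, z, hz, e⟩ := Submodule.mem_span_insert.1 this
  obtain ⟨β, γ, e'⟩ := Submodule.mem_span_pair.1 hz
  exact ⟨α, β, γ, by rw [e, ← e', add_assoc]⟩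

lemma exists_orth (hd : 3 ≤ finrank ℝ E) (a b : E) :
    ∃ n : E, n ≠ 0 ∧ ⟪a, n⟫ = 0 ∧ ⟪b, n⟫ = 0 := by
  classical
  have h1 : finrank ℝ (Submodule.span ℝ ({a, b} : Set E)) ≤ 2 := by
    have := finrank_span_finset_le_card (R := ℝ) ({a, b} : Finset E)
    rw [Set.finrank, Finset.coe_pair] at this
    exact this.trans Finset.card_le_two
  have h2 := Submodule.finrank_add_finrank_orthogonal (Submodule.span ℝ ({a, b} : Set E))
  have h3 : (Submodule.span ℝ ({a, b} : Set E))ᗮ ≠ ⊥ := by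
    intro h
    rw [h, finrank_bot] at h2
    omega
  obtain ⟨n, hn, hn0⟩ := Submodule.exists_mem_ne_zero_of_ne_bot h3
  exact ⟨n, hn0, (Submodule.mem_orthogonal _ _).1 hn a (Submodule.subset_span (by simp)),
    (Submodule.mem_orthogonal _ _).1 hn b (Submodule.subset_span (by simp))⟩

section Coplanar

variable {X : Type*} [NormedAddCommGroup X] [NormedSpace ℝ X] [FiniteDimensional ℝ X]

omit [FiniteDimensional ℝ E] in
/-- derivative of a relation `c = h a - δ b` with a given function `h` -/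
lemma dir_rel {S : Set X} {q v : X} (hq : q ∈ S) (hv : v ∈ Tan S q) {a b c : X → E}
    {h : X → ℝ} {a' b' c' : E} {h' δ : ℝ} (ha : Dir a q v a') (hb : Dir b q v b')
    (hc : Dir c q v c') (hh : Dir h q v h') (hS : ∀ x ∈ S, ∃ δ : ℝ, c x = h x • a x - δ • b x)
    (e : c q = h q • a q - δ • b q) (hb0 : b q ≠ 0) {n : E} (hn : ⟪b q, n⟫ = 0) :
    ⟪c', n⟫ - h q * ⟪a', n⟫ + δ * ⟪b', n⟫ = h' * ⟪a q, n⟫ := by
  have h1 := ((hc.sub (hh.smul ha)).inner (((hb.inner hb).smul (Dir.const n)).sub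
    ((hb.inner (Dir.const n)).smul hb))).eq_zero hq hv (by
      intro x hx
      obtain ⟨δ, hδ⟩ := hS x hx
      rw [hδ]
      simp only [inner_sub_left, inner_sub_right, real_inner_smul_left, real_inner_smul_right]
      ring)
  have hbb : ⟪b q, b q⟫ ≠ 0 := (real_inner_self_pos.2 hb0).ne'
  rw [e] at h1
  simp only [inner_sub_left, inner_sub_right, inner_add_left,
    real_inner_smul_left, real_inner_smul_right, hn, inner_zero_right, smul_zero, zero_smul,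
    zero_add] at h1
  apply mul_left_cancel₀ hbb
  linear_combination h1

omit [FiniteDimensional ℝ E] in
/-- derivative of a coplanarity relation -/
lemma dir_coplanar {S : Set X} {q v : X} (hq : q ∈ S) (hv : v ∈ Tan S q) {a b c : X → E}
    {a' b' c' : E} {α β : ℝ} (ha : Dir a q v a') (hb : Dir b q v b')
    (hc : Dir c q v c') (hS : ∀ x ∈ S, ∃ α β : ℝ, c x = α • a x + β • b x)
    (e : c q = α • a q + β • b q) (hΔ : ⟪a q, a q⟫ * ⟪b q, b q⟫ - ⟪a q, b q⟫ * ⟪a q, b q⟫ ≠ 0)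
    {n : E} (hna : ⟪a q, n⟫ = 0) (hnb : ⟪b q, n⟫ = 0) :
    ⟪c', n⟫ = α * ⟪a', n⟫ + β * ⟪b', n⟫ := by
  obtain ⟨d1, h1⟩ : ∃ y, Dir (fun x => ⟪a x, a x⟫ * ⟪b x, b x⟫ - ⟪a x, b x⟫ * ⟪a x, b x⟫) q v y :=
    ⟨_, ((ha.inner ha).mul (hb.inner hb)).sub ((ha.inner hb).mul (ha.inner hb))⟩
  obtain ⟨d2, h2⟩ : ∃ y, Dir (fun x => ⟪c x, a x⟫ * ⟪b x, b x⟫ - ⟪c x, b x⟫ * ⟪a x, b x⟫) q v y :=
    ⟨_, ((hc.inner ha).mul (hb.inner hb)).sub ((hc.inner hb).mul (ha.inner hb))⟩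
  obtain ⟨d3, h3⟩ : ∃ y, Dir (fun x => ⟪c x, b x⟫ * ⟪a x, a x⟫ - ⟪c x, a x⟫ * ⟪a x, b x⟫) q v y :=
    ⟨_, ((hc.inner hb).mul (ha.inner ha)).sub ((hc.inner ha).mul (ha.inner hb))⟩
  have h4 := (((h1.mul (hc.inner (Dir.const n))).sub (h2.mul (ha.inner (Dir.const n)))).sub
    (h3.mul (hb.inner (Dir.const n)))).eq_zero hq hv (by
      intro x hx
      obtain ⟨α, β, e⟩ := hS x hx
      rw [e]
      simp only [inner_add_left, real_inner_smul_left, real_inner_comm (a x) (b x)]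
      ring)
  rw [e] at h4
  simp only [inner_add_left, real_inner_smul_left, real_inner_comm (a q) (b q), hna, hnb,
    inner_zero_right] at h4
  apply mul_left_cancel₀ hΔ
  linear_combination h4

end Coplanar

variable {f : E → ℝ} {g : E → E} {G : E → E →L[ℝ] E}

/-- no normal incidence -/
def NZ (q : Cfg E) : Prop := ∀ i j, j = i + 1 → q.2.1 i + q.2.1 j ≠ 0

/-- the incidence direction is principal -/
def Um (g : E → E) (G : E → E →L[ℝ] E) (q : Cfg E) (i j : Fin 4) : Prop :=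
  ∃ α β : ℝ, G (q.1 j) (q.2.1 i + q.2.1 j) = α • (q.2.1 i + q.2.1 j) + β • g (q.1 j)

/-- umbilic point -/
def Sc (g : E → E) (G : E → E →L[ℝ] E) (q : Cfg E) (j : Fin 4) : Prop :=
  ∃ s : ℝ, ∀ ξ η, ⟪g (q.1 j), ξ⟫ = 0 → ⟪g (q.1 j), η⟫ = 0 → ⟪G (q.1 j) ξ, η⟫ = s * ⟪ξ, η⟫

omit [FiniteDimensional ℝ E] in
lemma Src.dW {q v : Cfg E} {i j k : Fin 4} {θ : E} (hb : Bil f g q) (e : j = i + 1)
    (hθ : ⟪g (q.1 j), θ⟫ = 0) (h : Src g G q v i j k θ) :
    Dir (fun q : Cfg E => q.2.1 i + q.2.1 j) q v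
      ((2 : ℝ) • θ - ⟪q.2.1 j, θ⟫ • (q.2.1 i + q.2.1 j)) := by
  refine ((dir_u i).add (dir_u j)).congr ?_
  rw [h.pi, h.ph, hb.tan_eq e hθ]
  module

theorem ae_NZ (hB : Bd f g G) (hd : 3 ≤ finrank ℝ E) : AE f g NZ := by
  have : ∀ i j : Fin 4, AE f g fun q => (j = i + 1 ∧ q.2.1 i + q.2.1 j = 0) → False := by
    intro i j
    refine AE.step hB _ _ fun S q hS hC hq hF => ?_
    obtain ⟨e, h0⟩ := hC q hq
    obtain ⟨θ, hθ0, hθ, -⟩ := exists_orth hd (g (q.1 j)) 0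
    obtain ⟨v, hv, hs⟩ := exists_src hB hS hq hF e rfl hθ
    have := (hs.dW (hS q hq) e hθ).eq_zero hq hv fun x hx => (hC x hx).2
    rw [h0, smul_zero, sub_zero, smul_eq_zero] at this
    exact hθ0 (this.resolve_left two_ne_zero)
  exact (AE.all fun i => AE.all fun j => this i j).mono fun q _ h i j e h0 => h i j ⟨e, h0⟩

theorem ae_Sc (hB : Bd f g G) (hd : 3 ≤ finrank ℝ E) :
    AE f g fun q => ∀ i j, j = i + 1 → Um g G q i j → Sc g G q j := by
  have : ∀ i j : Fin 4, AE f g fun q => (NZ q ∧ j = i + 1 ∧ Um g G q i j) → Sc g G q j := by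
    intro i j
    refine AE.step hB _ _ fun S q hS hC hq hF => ?_
    have hb := hS q hq
    obtain ⟨hz, e, α, β, hU⟩ := hC q hq
    have hW := hz i j e
    have hWW := real_inner_self_pos.2 hW
    have hgW := hb.gW e
    have hgg := hb.gg_pos j
    refine ⟨α, fun θ η hθ hη => ?_⟩
    obtain ⟨v, hv, hs⟩ := exists_src hB hS hq hF e rfl hθ
    have hdW := hs.dW hb e hθ
    set W := q.2.1 i + q.2.1 j with hWdef
    have key : ∀ n, ⟪W, n⟫ = 0 → ⟪g (q.1 j), n⟫ = 0 → ⟪G (q.1 j) θ, n⟫ = α * ⟪θ, n⟫ := by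
      intro n h1 h2
      have := dir_coplanar hq hv
        hdW (dir_g0 hB hs.x0) (dir_G0 hB hs.x0 hdW) (fun x hx => (hC x hx).2.2) hU
        (by rw [← hWdef, real_inner_comm (g (q.1 j)) W, hgW]; simpa using (mul_pos hWW hgg).ne') h1 h2
      simp only [map_sub, map_smul, hU, inner_sub_left, inner_add_left,
        real_inner_smul_left, h1, h2, inner_zero_left] at this
      linarith
    have k1 := key (η - (⟪W, η⟫ / ⟪W, W⟫) • W)
      (by rw [inner_sub_right, real_inner_smul_right]; field_simp; ring)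
      (by rw [inner_sub_right, real_inner_smul_right, hη, hgW]; ring)
    have k2 : ⟪G (q.1 j) θ, W⟫ = α * ⟪θ, W⟫ := by
      rw [hB.symm, hU, inner_add_left, real_inner_smul_left, real_inner_smul_left, hθ,
        real_inner_comm]
      ring
    simp only [inner_sub_right, real_inner_smul_right, k2] at k1
    linarith
  exact ((ae_NZ hB hd).and (AE.all fun i => AE.all fun j => this i j)).mono
    fun q _ h i j e hU => h.2 i j ⟨h.1, e, hU⟩

end Pool.Agent.MP_249f74_an.H69
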